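import Pool.Agent.Lib.MP_d610d0_nt.CA.SV.Stm

set_option autoImplicit false

/-!
Project CA, section SV, piece bg: the number of the primes `p` with a very large prime factor of `p + 2`.
-/

namespace Pool.Agent.CA.SV

open Finset Filter
open scoped ArithmeticFunction.Omega
open Pool.Agent.MP89da58 (tri)
open Pool.Agent.CH (zJ wJ wL Rough VV Wt dsum thP EE)
open Pool.Agent.CH.F (mu SW)

open Classical in
/-- The primes `m` of the cofactor `e`. -/
private noncomputable def bgT (J j e : ℕ) : Finset ℕ :=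
  (range (27 * J ^ 3 + 1)).filter (fun m : ℕ => m.Prime ∧ Yc J < m ∧
    ∃ p : ℕ, p.Prime ∧ p + 2 = e * m ∧ wJ J j p ≠ 0)

private theorem bg_zc {J : ℕ} (hJ : 9 ≤ J) : 2 < zc J := by
  have h1 : 3 ≤ Nat.sqrt J := Nat.le_sqrt.2 (by omega)
  have h2 : (9 : ℝ) ≤ 3 * (Nat.sqrt J : ℝ) := by
    have : (3 : ℝ) ≤ (Nat.sqrt J : ℝ) := by exact_mod_cast h1
    linarith
  show 2 < zJ (Nat.sqrt J)
  unfold Pool.Agent.CH.zJ
  have h3 : (2 : ℝ) = (2 ^ (8 : ℕ) : ℝ) ^ (1 / 8 : ℝ) := by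
    rw [← Real.rpow_natCast, ← Real.rpow_mul (by norm_num)]; norm_num
  have h4 : (9 : ℝ) ^ (3 / 8 : ℝ) = (9 ^ (3 : ℕ) : ℝ) ^ (1 / 8 : ℝ) := by
    rw [← Real.rpow_natCast, ← Real.rpow_mul (by norm_num)]; norm_num
  calc (2 : ℝ) = (2 ^ (8 : ℕ) : ℝ) ^ (1 / 8 : ℝ) := h3
    _ < (9 ^ (3 : ℕ) : ℝ) ^ (1 / 8 : ℝ) :=
        Real.rpow_lt_rpow (by norm_num) (by norm_num) (by norm_num)
    _ = (9 : ℝ) ^ (3 / 8 : ℝ) := h4.symm
    _ ≤ (3 * (Nat.sqrt J : ℝ)) ^ (3 / 8 : ℝ) := Real.rpow_le_rpow (by norm_num) h2 (by norm_num)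

private theorem bg_cover {J j : ℕ} (hJ : 5 ≤ J) (hwin : Pool.Agent.CH.F.S_win)
    (hj : j ∈ Ioc J (2 * J)) :
    bgn J j ≤ ∑ e ∈ ES J, (bgT J j e).card := by
  classical
  have hw := (hwin J hJ j hj).2.1
  have hJ0 : (0 : ℝ) < J := by exact_mod_cast (by omega : 0 < J)
  unfold bgn
  refine (card_le_card (t := (ES J).biUnion (fun e => (bgT J j e).image (fun m => e * m - 2)))
    ?_).trans (card_biUnion_le.trans (sum_le_sum fun e _ => card_image_le))
  intro p hp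
  rw [mem_filter, mem_Icc] at hp
  obtain ⟨⟨hp1, hp2⟩, hpp, hpw, hsq, hr, hom, m, hm, hmd, hmY⟩ := hp
  obtain ⟨e, he⟩ := hmd
  have h1 := hw p hp1 hpw
  have hm0 : m ≠ 0 := hm.ne_zero
  have he0 : e ≠ 0 := by rintro rfl; omega
  have hed : e ∣ p + 2 := ⟨m, by rw [he]; ring⟩
  rw [mem_biUnion]
  have hYpos : 0 < Yc J := Real.rpow_pos_of_pos hJ0 _
  refine ⟨e, ?_, ?_⟩
  · unfold ES
    rw [mem_filter, mem_Icc]
    refine ⟨⟨Nat.one_le_iff_ne_zero.2 he0, Nat.le_floor ?_⟩,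
      hsq.squarefree_of_dvd hed, fun q hq hqe => hr q hq (hqe.trans hed), ?_⟩
    · -- `e m = p + 2 ≤ 27 J^3`
      have h2 : (m : ℝ) * e ≤ 27 * (J : ℝ) ^ (3 : ℕ) := by
        have : m * e ≤ 27 * J ^ 3 := by rw [← he]; omega
        exact_mod_cast this
      have h3 : Yc J * e ≤ 27 * (J : ℝ) ^ (3 : ℕ) :=
        (mul_le_mul_of_nonneg_right hmY.le (Nat.cast_nonneg _)).trans h2
      have h4 : (J : ℝ) ^ (3 : ℕ) = Yc J * (J : ℝ) ^ (27 / 20 : ℝ) := by
        unfold Yc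
        rw [← Real.rpow_add hJ0, ← Real.rpow_natCast]
        norm_num
      rw [h4] at h3
      have h5 : Yc J * e ≤ Yc J * (27 * (J : ℝ) ^ (27 / 20 : ℝ)) := by linarith
      exact le_of_mul_le_mul_left h5 hYpos
    · rw [he, ArithmeticFunction.cardFactors_mul hm0 he0,
        ArithmeticFunction.cardFactors_apply_prime hm] at hom
      omega
  · rw [mem_image]
    refine ⟨m, ?_, ?_⟩
    · unfold bgT
      rw [mem_filter, mem_range]
      refine ⟨?_, hm, hmY, p, hpp, by rw [he]; ring, hpw⟩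
      have h2 : m * 1 ≤ m * e := Nat.mul_le_mul_left _ (Nat.one_le_iff_ne_zero.2 he0)
      rw [← he] at h2
      omega
    · show e * m - 2 = p
      rw [mul_comm, ← he]; omega

/-- the interval of the `m` -/
private theorem bg_int {J j : ℕ} (hJ : 2500 ≤ J) {e : ℕ} (he : 1 ≤ e) :
    ∃ s N : ℕ, bgT J j e ⊆ Ico s (s + N) ∧ (N : ℝ) ≤ 2.0002 * mu J j / e + 2 := by
  classical
  have hJ0 : (0 : ℝ) < J := by exact_mod_cast (by omega : 0 < J)
  have hJr : (2500 : ℝ) ≤ J := by exact_mod_cast hJ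
  have he0 : (0 : ℝ) < e := by exact_mod_cast he
  set x : ℝ := ((j : ℝ) + 1 / 2) ^ 3 with hx
  have hx0 : 0 < x := by positivity
  set t : ℝ := 1 / (2 * J) with ht
  have ht0 : 0 < t := by positivity
  have ht1 : t ≤ 1 := by
    rw [ht, div_le_one (by positivity)]; linarith
  set a : ℝ := x * Real.exp (-t) with ha
  set b : ℝ := x * Real.exp t with hb
  have ha0 : 0 < a := by positivity
  have hab : a ≤ b := by
    have : Real.exp (-t) ≤ Real.exp t := Real.exp_le_exp.2 (by linarith)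
    exact mul_le_mul_of_nonneg_left this hx0.le
  have hba : b - a ≤ 2.0002 * mu J j := by
    have h1 : |Real.exp t - 1 - t| ≤ t ^ 2 := Real.abs_exp_sub_one_sub_id_le (by rw [abs_of_pos ht0]; exact ht1)
    have h2 : 1 - t ≤ Real.exp (-t) := by
      have := Real.add_one_le_exp (-t)
      linarith
    have h3 : Real.exp t - Real.exp (-t) ≤ 2 * t + t ^ 2 := by
      have := (abs_le.1 h1).2
      linarith
    have h4 : t ^ 2 ≤ 0.0002 * t := by
      have : t ≤ 0.0002 := by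
        rw [ht, div_le_iff₀ (by positivity)]; linarith
      nlinarith
    have h5 : mu J j = x * t := by
      unfold Pool.Agent.CH.F.mu
      rw [ht]; ring
    rw [h5, ha, hb]
    have h6 : x * Real.exp t - x * Real.exp (-t) = x * (Real.exp t - Real.exp (-t)) := by ring
    rw [h6]
    have h7 : Real.exp t - Real.exp (-t) ≤ 2.0002 * t := by linarith
    calc x * (Real.exp t - Real.exp (-t)) ≤ x * (2.0002 * t) :=
          mul_le_mul_of_nonneg_left h7 hx0.le
      _ = 2.0002 * (x * t) := by ring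
  refine ⟨⌊(a + 2) / e⌋₊, ⌈(b - a) / e⌉₊ + 1, ?_, ?_⟩
  · intro m hm
    unfold bgT at hm
    rw [mem_filter] at hm
    obtain ⟨-, hmp, -, p, hpp, hpe, hpw⟩ := hm
    have hp0 : (0 : ℝ) < p := by exact_mod_cast hpp.pos
    have h1 : |2 * (J : ℝ) * Real.log (p / x)| < 1 := by
      by_contra h
      apply hpw
      unfold wJ tri
      rw [max_eq_left]
      linarith [not_lt.1 h]
    have h2 : |Real.log (p / x)| < t := by
      rw [abs_mul, abs_of_pos (by positivity : (0 : ℝ) < 2 * J)] at h1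
      rw [ht, lt_div_iff₀ (by positivity)]
      linarith
    have h3 := abs_lt.1 h2
    have h4 : a < p := by
      have : Real.exp (-t) < p / x := (Real.lt_log_iff_exp_lt (by positivity)).1 h3.1
      rw [lt_div_iff₀ hx0] at this
      rw [ha]; linarith
    have h5 : (p : ℝ) < b := by
      have : p / x < Real.exp t := (Real.log_lt_iff_lt_exp (by positivity)).1 h3.2
      rw [div_lt_iff₀ hx0] at this
      rw [hb]; linarith
    have h6 : (p : ℝ) + 2 = e * m := by exact_mod_cast hpe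
    rw [mem_Ico]
    constructor
    · have : ((⌊(a + 2) / e⌋₊ : ℕ) : ℝ) ≤ m := by
        refine (Nat.floor_le (by positivity)).trans ?_
        rw [div_le_iff₀ he0]
        linarith
      exact_mod_cast this
    · have h7 : (m : ℝ) < (a + 2) / e + (b - a) / e := by
        rw [← add_div, lt_div_iff₀ he0]
        linarith
      have h8 : (a + 2) / e < (⌊(a + 2) / e⌋₊ : ℝ) + 1 := Nat.lt_floor_add_one _
      have h9 : (b - a) / e ≤ (⌈(b - a) / e⌉₊ : ℝ) := Nat.le_ceil _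
      have h10 : (m : ℝ) < ((⌊(a + 2) / e⌋₊ + (⌈(b - a) / e⌉₊ + 1) : ℕ) : ℝ) := by
        push_cast
        linarith
      exact_mod_cast h10
  · push_cast
    have h1 : (0 : ℝ) ≤ (b - a) / e := div_nonneg (by linarith) he0.le
    have h2 : (⌈(b - a) / e⌉₊ : ℝ) < (b - a) / e + 1 := Nat.ceil_lt_add_one h1
    have h3 : (b - a) / e ≤ 2.0002 * mu J j / e := div_le_div_of_nonneg_right hba he0.le
    linarith

/-- the sieve for one cofactor -/
private theorem bg_one (hwin : Pool.Agent.CH.F.S_win) (sel : R_sel) (cls : R_cls) :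
    ∀ᶠ J : ℕ in atTop, ∀ j ∈ Ioc J (2 * J), ∀ e ∈ ES J,
      0.0245 * Real.log J ^ 2 ≤ GS (cl e) (De e (Rc J)) →
      WS (cl e) (De e (Rc J)) ^ 2 ≤ (J : ℝ) ^ (645 / 1000 : ℝ) →
      ((bgT J j e).card : ℝ) ≤ (2.0002 * mu J j / e + 2) / (0.0245 * Real.log J ^ 2) +
        (J : ℝ) ^ (645 / 1000 : ℝ) := by
  classical
  have hLt : Tendsto (fun J : ℕ => Real.log J) atTop atTop :=
    Real.tendsto_log_atTop.comp tendsto_natCast_atTop_atTop
  filter_upwards [eventually_ge_atTop 2500, hLt.eventually_ge_atTop 10] with J hJ hL j hj e he hG hW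
  have hJ0 : (0 : ℝ) < J := by exact_mod_cast (by omega : 0 < J)
  have hJ1 : (1 : ℝ) < J := by exact_mod_cast (by omega : 1 < J)
  unfold ES at he
  rw [mem_filter, mem_Icc] at he
  obtain ⟨⟨he1, he2⟩, hesq, her, heO⟩ := he
  obtain ⟨s, N, hT, hN⟩ := bg_int (j := j) hJ he1
  have hRY : ∀ q : ℕ, q ≤ Rc J → (q : ℝ) < Yc J := by
    intro q hq
    have h1 : (q : ℝ) ≤ (J : ℝ) ^ (8 / 25 : ℝ) := by
      refine le_trans (by exact_mod_cast hq) (Nat.floor_le (Real.rpow_nonneg hJ0.le _))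
    exact h1.trans_lt (Real.rpow_lt_rpow_of_exponent_lt hJ1 (by norm_num))
  have hDe : ∀ r ∈ De e (Rc J), Squarefree r ∧ ∀ p ∈ r.primeFactors, p.Prime ∧ p ∣ r ∧ ¬ p ∣ e ∧
      p ≤ Rc J := by
    intro r hr
    unfold De at hr
    rw [mem_filter, mem_Icc] at hr
    obtain ⟨⟨hr1, hr2⟩, hrs, hrc⟩ := hr
    refine ⟨hrs, fun p hp => ?_⟩
    have hpp := Nat.prime_of_mem_primeFactors hp
    have hpd := Nat.dvd_of_mem_primeFactors hp
    refine ⟨hpp, hpd, fun hpe => ?_, (Nat.le_of_dvd hr1 hpd).trans hr2⟩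
    exact hpp.one_lt.ne' (Nat.eq_one_of_dvd_coprimes hrc hpd hpe)
  have key := sel (cl e) (De e (Rc J)) (fun r hr => ⟨(hDe r hr).1, fun p hp => ?_⟩)
    (bgT J j e) s N hT ?_
  · have hG1 : 1 ≤ 0.0245 * Real.log J ^ 2 := by nlinarith
    set G := GS (cl e) (De e (Rc J)) with hGd
    set g := 0.0245 * Real.log J ^ 2 with hg
    have hG0 : 0 < G := by linarith
    have hN0 : (0 : ℝ) ≤ N := Nat.cast_nonneg _
    have h1 : ((bgT J j e).card : ℝ) ≤ N / G + WS (cl e) (De e (Rc J)) ^ 2 / G ^ 2 := by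
      have : N / G + WS (cl e) (De e (Rc J)) ^ 2 / G ^ 2
          = (N * G + WS (cl e) (De e (Rc J)) ^ 2) / G ^ 2 := by
        field_simp
      rw [this, le_div_iff₀ (by positivity)]
      exact key
    have h2 : (N : ℝ) / G ≤ (2.0002 * mu J j / e + 2) / g :=
      div_le_div₀ (hN0.trans hN) hN (by linarith) hG
    have h3 : WS (cl e) (De e (Rc J)) ^ 2 / G ^ 2 ≤ (J : ℝ) ^ (645 / 1000 : ℝ) := by
      refine le_trans (div_le_self (sq_nonneg _) ?_) hW
      nlinarith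
    linarith
  · obtain ⟨hpp, -, hpe, -⟩ := (hDe r hr).2 p hp
    refine ⟨fun a ha => ?_, ?_⟩
    · unfold cl at ha
      exact mem_range.1 (mem_filter.1 ha).1
    · rw [cls e p hpp hpe]
      split_ifs with h
      · rw [h]; norm_num
      · have := hpp.two_le
        omega
  · intro m hm r hr q hq hmem
    obtain ⟨hqp, -, hqe, hqR⟩ := (hDe r hr).2 q hq
    unfold bgT at hm
    rw [mem_filter] at hm
    obtain ⟨-, hmp, hmY, p, hpp, hpe, hpw⟩ := hm
    have hqm : q ≠ m := by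
      rintro rfl
      exact absurd (hRY q hqR) (not_lt.2 hmY.le)
    unfold cl at hmem
    rw [mem_filter] at hmem
    rcases hmem.2 with h | h
    · have : q ∣ m := (Nat.dvd_mod_iff (dvd_refl q)).1 h
      exact hqm ((Nat.prime_dvd_prime_iff_eq hqp hmp).1 this)
    · have h1 : (q : ℤ) ∣ (e : ℤ) * m - 2 := by
        have h2 : ((m % q : ℕ) : ℤ) = (m : ℤ) % (q : ℤ) := by norm_cast
        have h3 : (q : ℤ) ∣ (m : ℤ) - ((m % q : ℕ) : ℤ) := by
          rw [h2]; exact Int.dvd_self_sub_emod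
        have h4 : (e : ℤ) * m - 2 = ((e : ℤ) * ((m % q : ℕ) : ℤ) - 2) +
            (e : ℤ) * ((m : ℤ) - ((m % q : ℕ) : ℤ)) := by ring
        rw [h4]
        exact dvd_add h (h3.mul_left _)
      have h5 : (e : ℤ) * m - 2 = (p : ℤ) := by
        have : (p : ℤ) + 2 = e * m := by exact_mod_cast hpe
        linarith
      rw [h5] at h1
      have h6 : q ∣ p := by exact_mod_cast h1
      have h7 : q = p := (Nat.prime_dvd_prime_iff_eq hqp hpp).1 h6
      -- `p > J^3`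
      have h8 := ((hwin J (by omega) j hj).2.1 p hpp.one_lt.le hpw).2.2.1
      have h9 : (q : ℝ) ≤ (J : ℝ) ^ (3 : ℕ) := by
        refine (hRY q hqR).le.trans ?_
        unfold Yc
        rw [← Real.rpow_natCast]
        exact Real.rpow_le_rpow_of_exponent_le hJ1.le (by norm_num)
      have h10 : q ≤ J ^ 3 := by exact_mod_cast h9
      omega

/-- the final comparison -/
private theorem bg_end : ∀ᶠ J : ℕ in atTop,
    81 * (J : ℝ) ^ (1995 / 1000 : ℝ) ≤ 0.01 * (J : ℝ) ^ 2 / Real.log J ^ 2 := by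
  have h1 : (fun x : ℝ => Real.log x ^ (2 : ℝ)) =o[atTop] fun x : ℝ => x ^ (5 / 1000 : ℝ) :=
    isLittleO_log_rpow_rpow_atTop 2 (by norm_num)
  have h2 := (h1.bound (by norm_num : (0 : ℝ) < 1 / 8100))
  have h3 := (tendsto_natCast_atTop_atTop (R := ℝ)).eventually h2
  filter_upwards [h3, eventually_ge_atTop 3] with J hJ hJ3
  have hJ0 : (0 : ℝ) < J := by exact_mod_cast (by omega : 0 < J)
  have hJ1 : (1 : ℝ) < J := by exact_mod_cast (by omega : 1 < J)
  have hL : 0 < Real.log J := Real.log_pos hJ1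
  rw [Real.norm_of_nonneg (by positivity), Real.norm_of_nonneg (by positivity)] at hJ
  have h4 : Real.log J ^ 2 ≤ 1 / 8100 * (J : ℝ) ^ (5 / 1000 : ℝ) := by
    have : Real.log (J : ℝ) ^ (2 : ℝ) = Real.log J ^ (2 : ℕ) := by
      rw [← Real.rpow_natCast]; norm_num
    rw [this] at hJ
    exact hJ
  rw [le_div_iff₀ (by positivity)]
  have h5 : (J : ℝ) ^ (2 : ℕ) = (J : ℝ) ^ (1995 / 1000 : ℝ) * (J : ℝ) ^ (5 / 1000 : ℝ) := by
    rw [← Real.rpow_add hJ0, ← Real.rpow_natCast]; norm_num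
  rw [h5]
  have h6 : 0 ≤ (J : ℝ) ^ (1995 / 1000 : ℝ) := by positivity
  nlinarith [mul_le_mul_of_nonneg_left h4 h6]

theorem p_bg : S_bg := by
  classical
  intro hwin sel cls gw se
  have hLt : Tendsto (fun J : ℕ => Real.log J) atTop atTop :=
    Real.tendsto_log_atTop.comp tendsto_natCast_atTop_atTop
  filter_upwards [eventually_ge_atTop 2500, hLt.eventually_ge_atTop 10, bg_one hwin sel cls, gw, se,
    bg_end] with J hJ hL hone hgw hse hend j hj
  have hJ0 : (0 : ℝ) < J := by exact_mod_cast (by omega : 0 < J)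
  have hJ1 : (1 : ℝ) ≤ J := by exact_mod_cast (by omega : 1 ≤ J)
  have hL0 : 0 < Real.log J := by linarith
  have hz := bg_zc (J := J) (by omega)
  set g := 0.0245 * Real.log J ^ 2 with hg
  have hg1 : 1 ≤ g := by rw [hg]; nlinarith
  have hmem : ∀ e ∈ ES J, (1 ≤ e ∧ (e : ℝ) ≤ 27 * (J : ℝ) ^ (27 / 20 : ℝ)) ∧ Odd e ∧
      Rough (zc J) e := by
    intro e he
    unfold ES at he
    rw [mem_filter, mem_Icc] at he
    obtain ⟨⟨he1, he2⟩, -, her, -⟩ := he
    refine ⟨⟨he1, (Nat.le_floor_iff (by positivity)).1 he2⟩, ?_, her⟩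
    by_contra hne
    rw [Nat.not_odd_iff_even] at hne
    have h2 := her 2 Nat.prime_two hne.two_dvd
    push_cast at h2
    linarith
  have hmu0 : (J : ℝ) ^ 2 / 2 ≤ mu J j := by
    unfold Pool.Agent.CH.F.mu
    have hj1 : (J : ℝ) ≤ j := by exact_mod_cast (mem_Ioc.1 hj).1.le
    rw [le_div_iff₀ (by positivity)]
    have h1 : (J : ℝ) ^ 3 ≤ ((j : ℝ) + 1 / 2) ^ 3 :=
      pow_le_pow_left₀ hJ0.le (by linarith) 3
    nlinarith
  have hmu : 0 < mu J j := lt_of_lt_of_le (by positivity) hmu0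
  have hcard : ((ES J).card : ℝ) ≤ 27 * (J : ℝ) ^ (27 / 20 : ℝ) := by
    have h1 : (ES J).card ≤ (Icc 1 ⌊27 * (J : ℝ) ^ (27 / 20 : ℝ)⌋₊).card := by
      unfold ES
      exact card_filter_le _ _
    rw [Nat.card_Icc, Nat.add_sub_cancel] at h1
    refine le_trans (by exact_mod_cast h1) (Nat.floor_le (by positivity))
  have h1 : (bgn J j : ℝ) ≤ ∑ e ∈ ES J, ((2.0002 * mu J j / e + 2) / g +
      (J : ℝ) ^ (645 / 1000 : ℝ)) := by
    have h2 := bg_cover (J := J) (j := j) (by omega) hwin hj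
    have h3 : (bgn J j : ℝ) ≤ ∑ e ∈ ES J, ((bgT J j e).card : ℝ) := by exact_mod_cast h2
    refine h3.trans (sum_le_sum fun e he => ?_)
    obtain ⟨⟨ha, hb⟩, hc, hd⟩ := hmem e he
    exact hone j hj e he (hgw e hc hd hb).1 (hgw e hc hd hb).2
  have h2 : ∑ e ∈ ES J, ((2.0002 * mu J j / e + 2) / g + (J : ℝ) ^ (645 / 1000 : ℝ))
      = 2.0002 * mu J j / g * ∑ e ∈ ES J, 1 / (e : ℝ) +
        ((ES J).card : ℝ) * (2 / g + (J : ℝ) ^ (645 / 1000 : ℝ)) := by
    rw [mul_sum, ← nsmul_eq_mul, ← sum_const, ← sum_add_distrib]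
    refine sum_congr rfl fun e _ => ?_
    ring
  have h3 : 2.0002 * mu J j / g * ∑ e ∈ ES J, 1 / (e : ℝ) ≤ 2.0002 * mu J j / g * 0.0015 :=
    mul_le_mul_of_nonneg_left hse (by positivity)
  have h4 : ((ES J).card : ℝ) * (2 / g + (J : ℝ) ^ (645 / 1000 : ℝ)) ≤
      81 * (J : ℝ) ^ (1995 / 1000 : ℝ) := by
    have h5 : 2 / g ≤ 2 * (J : ℝ) ^ (645 / 1000 : ℝ) := by
      have h6 : 2 / g ≤ 2 := div_le_self (by norm_num) hg1
      have h7 : 1 ≤ (J : ℝ) ^ (645 / 1000 : ℝ) := Real.one_le_rpow hJ1 (by norm_num)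
      linarith
    have h8 : (J : ℝ) ^ (1995 / 1000 : ℝ) = (J : ℝ) ^ (27 / 20 : ℝ) * (J : ℝ) ^ (645 / 1000 : ℝ) := by
      rw [← Real.rpow_add hJ0]; norm_num
    rw [h8]
    calc ((ES J).card : ℝ) * (2 / g + (J : ℝ) ^ (645 / 1000 : ℝ))
        ≤ (27 * (J : ℝ) ^ (27 / 20 : ℝ)) * (3 * (J : ℝ) ^ (645 / 1000 : ℝ)) := by
          apply mul_le_mul hcard (by linarith) (by positivity) (by positivity)
      _ = 81 * ((J : ℝ) ^ (27 / 20 : ℝ) * (J : ℝ) ^ (645 / 1000 : ℝ)) := by ring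
  have h5 : 2.0002 * mu J j / g * 0.0015 ≤ 0.1225 * mu J j / Real.log J ^ 2 := by
    rw [hg]
    have : 2.0002 * mu J j / (0.0245 * Real.log J ^ 2) * 0.0015
        = (2.0002 * 0.0015 / 0.0245) * (mu J j / Real.log J ^ 2) := by
      field_simp
    rw [this, mul_div_assoc (0.1225 : ℝ)]
    have hq : 0 ≤ mu J j / Real.log J ^ 2 := by positivity
    have hc : (2.0002 * 0.0015 / 0.0245 : ℝ) ≤ 0.1225 := by norm_num
    exact mul_le_mul_of_nonneg_right hc hq
  have h6 : 0.01 * (J : ℝ) ^ 2 / Real.log J ^ 2 ≤ 0.02 * mu J j / Real.log J ^ 2 := by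
    apply div_le_div_of_nonneg_right _ (by positivity)
    linarith
  have h7 : 0.1225 * mu J j / Real.log J ^ 2 + 0.02 * mu J j / Real.log J ^ 2 ≤
      0.15 * mu J j / Real.log J ^ 2 := by
    rw [← add_div]
    apply div_le_div_of_nonneg_right _ (by positivity)
    linarith
  rw [h2] at h1
  linarith

end Pool.Agent.CA.SV
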