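import Pool.Agent.Lib.MP_d610d0_nt.CA.SV.Stm

set_option autoImplicit false

/-!
Project CA, section SV, piece cls: two residue classes.
-/

namespace Pool.Agent.CA.SV

open Finset

/-- [SV cls] -/
theorem p_cls : S_cls := by
  intro e p hp hpe
  have hmem : ∀ t, t ∈ cl e p ↔ t < p ∧ (p ∣ t ∨ (p : ℤ) ∣ (e : ℤ) * t - 2) := by
    intro t
    unfold cl
    rw [mem_filter, mem_range]
  have : Fact p.Prime := ⟨hp⟩
  have he0 : (e : ZMod p) ≠ 0 := by
    intro h
    exact hpe ((ZMod.natCast_eq_zero_iff e p).1 h)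
  by_cases h2 : p = 2
  · rw [if_pos h2]
    subst h2
    have hc : cl e 2 = {0} := by
      ext t
      rw [hmem, mem_singleton]
      constructor
      · rintro ⟨h1, h3⟩
        by_contra h0
        have ht : t = 1 := by omega
        subst ht
        rcases h3 with h3 | h3
        · omega
        · apply hpe
          omega
      · rintro rfl
        exact ⟨by norm_num, Or.inl (dvd_zero _)⟩
    rw [hc, card_singleton]
  · rw [if_neg h2]
    -- the class of `2 / e`
    have h20 : (2 : ZMod p) ≠ 0 := by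
      intro h
      have h3 : ((2 : ℕ) : ZMod p) = 0 := by exact_mod_cast h
      have h4 := (ZMod.natCast_eq_zero_iff 2 p).1 h3
      exact h2 ((Nat.prime_dvd_prime_iff_eq hp Nat.prime_two).1 h4)
    have hx0 : (2 : ZMod p) * (e : ZMod p)⁻¹ ≠ 0 := mul_ne_zero h20 (inv_ne_zero he0)
    have hval : ((((2 : ZMod p) * (e : ZMod p)⁻¹).val : ℕ) : ZMod p) =
        (2 : ZMod p) * (e : ZMod p)⁻¹ := ZMod.natCast_zmod_val _
    have hdvd : ∀ t : ℕ, (p : ℤ) ∣ (e : ℤ) * t - 2 ↔ (t : ZMod p) = 2 * (e : ZMod p)⁻¹ := by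
      intro t
      rw [← ZMod.intCast_zmod_eq_zero_iff_dvd]
      push_cast
      rw [sub_eq_zero, eq_mul_inv_iff_mul_eq₀ he0, mul_comm]
    have hc : cl e p = {0, ((2 : ZMod p) * (e : ZMod p)⁻¹).val} := by
      ext t
      rw [hmem, mem_insert, mem_singleton, hdvd]
      constructor
      · rintro ⟨h1, h3 | h3⟩
        · left
          exact Nat.eq_zero_of_dvd_of_lt h3 h1
        · right
          rw [← h3, ZMod.val_natCast_of_lt h1]
      · rintro (rfl | rfl)
        · exact ⟨hp.pos, Or.inl (dvd_zero _)⟩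
        · exact ⟨ZMod.val_lt _, Or.inr hval⟩
    rw [hc, card_insert_of_notMem, card_singleton]
    rw [mem_singleton]
    intro h
    apply hx0
    rw [← hval, ← h, Nat.cast_zero]

end Pool.Agent.CA.SV
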