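import Pool.Agent.Lib.MP_d610d0_nt.CA.SV.Stm

set_option autoImplicit false

/-! [SV fin] The conclusion. -/

namespace Pool.Agent.CA.SV

open Finset Filter
open scoped ArithmeticFunction.Omega
open Pool.Agent.CH (zJ wJ wL Rough VV Wt dsum thP EE)
open Pool.Agent.CH.F (mu SW)
open Pool.Agent.CH.D (FL FT Sf)

/-- linearity of `EE` -/
theorem fin_EE (J : ℕ) (s : Finset ℕ) (f : ℕ → ℕ → ℝ) (c : ℕ → ℝ) (a : ℤ) (j q : ℕ) :
    EE J (fun n => ∑ k ∈ s, f k n / c k) a j q = ∑ k ∈ s, 1 / c k * EE J (f k) a j q := by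
  have h : ∀ S : Finset ℕ, ∑ n ∈ S, (∑ k ∈ s, f k n / c k) * wJ J j n =
      ∑ k ∈ s, 1 / c k * ∑ n ∈ S, f k n * wJ J j n := by
    intro S
    have e1 : ∀ k ∈ s, 1 / c k * ∑ n ∈ S, f k n * wJ J j n =
        ∑ n ∈ S, f k n / c k * wJ J j n := by
      intro k _
      rw [Finset.mul_sum]
      exact Finset.sum_congr rfl (fun n _ => by ring)
    rw [Finset.sum_congr rfl e1, Finset.sum_comm]
    exact Finset.sum_congr rfl (fun n _ => by rw [Finset.sum_mul])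
  unfold EE
  rw [h, h, Finset.mul_sum, ← Finset.sum_sub_distrib]
  exact Finset.sum_congr rfl (fun k _ => by ring)

theorem fin_fact : ∑ k ∈ Icc 6 15, 1 / (k.factorial : ℝ) ≤ 1 := by
  have h : ∀ k ∈ Icc 6 15, 1 / (k.factorial : ℝ) ≤ 1 / 10 := by
    intro k hk
    rw [Finset.mem_Icc] at hk
    have h1 : (6 : ℕ).factorial ≤ k.factorial := Nat.factorial_le hk.1
    have h2 : (10 : ℕ) ≤ k.factorial := le_trans (by decide) h1
    have h3 : (10 : ℝ) ≤ k.factorial := by exact_mod_cast h2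
    exact one_div_le_one_div_of_le (by norm_num) h3
  refine le_trans (Finset.sum_le_sum h) ?_
  rw [Finset.sum_const, Nat.card_Icc, nsmul_eq_mul]
  norm_num

theorem p_fin : S_fin := by
  intro hS h1 h2 hm1 hms hsq hbg hone
  classical
  obtain ⟨J0, hJ0⟩ := hS
  have h2' : ∀ᶠ J : ℕ in atTop, ∀ k ∈ Icc 6 15, ∀ c : ℕ → ℝ,
      Wt (zc J) ((Nat.sqrt J : ℝ) ^ (999 / 1000 : ℝ)) c → ∀ j ∈ Ioc J (2 * J),
      |∑ q ∈ Icc 1 (Nat.sqrt J), c q * EE J (Bk k J) 2 j q| ≤ (J : ℝ) ^ 2 / (Real.log J) ^ 3 := by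
    rw [Filter.eventually_all_finset]
    intro k hk
    exact h2 k hk 3
  have key : ∀ᶠ J : ℕ in atTop, ∀ j ∈ Ioc J (2 * J),
      0.01 * (J : ℝ) ^ 2 / Real.log J ^ 2 ≤ ((cubeSet 5 j).ncard : ℝ) := by
    filter_upwards [h1 3, h2', hm1, hms, hsq, hbg, hone, eventually_ge_atTop (J0 * J0)] with
      J e1 e2 e3 e4 e5 e6 e7 e8 j hj
    have hs : J0 ≤ Nat.sqrt J := Nat.le_sqrt.2 e8
    obtain ⟨cp, cm, w1, w2, w3, w4, w5, w6⟩ := hJ0 (Nat.sqrt J) hs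
    have hW : SW (Nat.sqrt J) cp cm := ⟨w1, w2, w3, w4, w5, w6⟩
    refine e7 cp cm hW j hj ⟨?_, ?_, e3 j hj, e4 j hj, e5 j hj, e6 j hj⟩
    · exact e1 cm w2 j hj
    · have a1 : ∑ q ∈ Icc 1 (Nat.sqrt J), cp q * EE J (RB J) 2 j q =
          ∑ k ∈ Icc 6 15, 1 / (k.factorial : ℝ) *
            ∑ q ∈ Icc 1 (Nat.sqrt J), cp q * EE J (Bk k J) 2 j q := by
        have a2 : ∀ q, EE J (RB J) 2 j q =
            ∑ k ∈ Icc 6 15, 1 / (k.factorial : ℝ) * EE J (Bk k J) 2 j q := fun q =>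
          fin_EE J (Icc 6 15) (fun k n => Bk k J n) (fun k => (k.factorial : ℝ)) 2 j q
        have a3 : ∀ q ∈ Icc 1 (Nat.sqrt J), cp q * EE J (RB J) 2 j q =
            ∑ k ∈ Icc 6 15, 1 / (k.factorial : ℝ) * (cp q * EE J (Bk k J) 2 j q) := by
          intro q _
          rw [a2, Finset.mul_sum]
          exact Finset.sum_congr rfl (fun k _ => by ring)
        rw [Finset.sum_congr rfl a3, Finset.sum_comm]
        exact Finset.sum_congr rfl (fun k _ => by rw [Finset.mul_sum])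
      rw [a1]
      have b0 : 0 ≤ (J : ℝ) ^ 2 / Real.log J ^ 3 := by
        have : 0 ≤ Real.log (J : ℝ) := Real.log_natCast_nonneg J
        positivity
      calc |∑ k ∈ Icc 6 15, 1 / (k.factorial : ℝ) *
            ∑ q ∈ Icc 1 (Nat.sqrt J), cp q * EE J (Bk k J) 2 j q|
          ≤ ∑ k ∈ Icc 6 15, |1 / (k.factorial : ℝ) *
            ∑ q ∈ Icc 1 (Nat.sqrt J), cp q * EE J (Bk k J) 2 j q| :=
            Finset.abs_sum_le_sum_abs _ _
        _ ≤ ∑ k ∈ Icc 6 15, 1 / (k.factorial : ℝ) * ((J : ℝ) ^ 2 / Real.log J ^ 3) := by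
            refine Finset.sum_le_sum (fun k hk => ?_)
            have b1 : 0 ≤ 1 / (k.factorial : ℝ) := by positivity
            rw [abs_mul, abs_of_nonneg b1]
            exact mul_le_mul_of_nonneg_left (e2 k hk cp w1 j hj) b1
        _ = (∑ k ∈ Icc 6 15, 1 / (k.factorial : ℝ)) * ((J : ℝ) ^ 2 / Real.log J ^ 3) := by
            rw [Finset.sum_mul]
        _ ≤ 1 * ((J : ℝ) ^ 2 / Real.log J ^ 3) := mul_le_mul_of_nonneg_right fin_fact b0
        _ = (J : ℝ) ^ 2 / Real.log J ^ 3 := one_mul _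
  obtain ⟨J1, hJ1⟩ := Filter.eventually_atTop.1 key
  refine ⟨1 / 400, by norm_num, J1 + 3, fun n hn => ?_⟩
  obtain ⟨m, rfl⟩ : ∃ m, n = m + 1 := ⟨n - 1, by omega⟩
  have hm2 : 2 ≤ m := by omega
  have h := hJ1 m (by omega) (m + 1) (by rw [Finset.mem_Ioc]; omega)
  refine le_trans ?_ h
  have hmR : (2 : ℝ) ≤ m := by exact_mod_cast hm2
  have hL : 0 < Real.log m := Real.log_pos (by linarith)
  have hLL : Real.log m ≤ Real.log ((m + 1 : ℕ) : ℝ) := by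
    apply Real.log_le_log (by linarith)
    push_cast
    linarith
  have hL' : 0 < Real.log ((m + 1 : ℕ) : ℝ) := lt_of_lt_of_le hL hLL
  have hsq' : Real.log m ^ 2 ≤ Real.log ((m + 1 : ℕ) : ℝ) ^ 2 :=
    pow_le_pow_left₀ hL.le hLL 2
  have hmm : ((m + 1 : ℕ) : ℝ) ^ 2 ≤ 4 * (m : ℝ) ^ 2 := by
    push_cast
    nlinarith
  calc 1 / 400 * ((m + 1 : ℕ) : ℝ) ^ 2 / Real.log ((m + 1 : ℕ) : ℝ) ^ 2
      ≤ 1 / 400 * (4 * (m : ℝ) ^ 2) / Real.log m ^ 2 := by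
        apply div_le_div₀ (by positivity) (by linarith) (by positivity) hsq'
    _ = 0.01 * (m : ℝ) ^ 2 / Real.log m ^ 2 := by
        norm_num
        ring

end Pool.Agent.CA.SV
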