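import Pool.Agent.Lib.MP_d610d0_nt.CA.SV.Stm

set_option autoImplicit false

/-!
Piece gt: squarefree numbers against all numbers.
-/

namespace Pool.Agent.CA.SV

open Finset Filter

/-- The sum over all numbers. -/
noncomputable def gt_T (f : ℕ → ℝ) (P : Finset ℕ) (N : ℕ) : ℝ :=
  ∑ n ∈ (Icc 1 N).filter (fun n => n.primeFactors ⊆ P), f n / n

/-- The sum over the squarefree numbers. -/
noncomputable def gt_G (c : ℕ → ℝ) (P : Finset ℕ) (N : ℕ) : ℝ :=
  ∑ r ∈ (Icc 1 N).filter (fun r => Squarefree r ∧ r.primeFactors ⊆ P),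
      ∏ p ∈ r.primeFactors, (c p / ((p : ℝ) - c p))

theorem gt_pf {p n : ℕ} (hp : p.Prime) (hn : n ≠ 0) :
    (p * n).primeFactors = insert p n.primeFactors := by
  rw [Nat.primeFactors_mul hp.ne_zero hn, Nat.Prime.primeFactors hp]
  rfl

theorem gt_sub {p n : ℕ} {P : Finset ℕ} (hp : p.Prime) (hpP : p ∉ P) (hn : n ≠ 0) :
    (n.primeFactors ⊆ insert p P ∧ ¬ p ∣ n) ↔ n.primeFactors ⊆ P := by
  constructor
  · rintro ⟨h1, h2⟩ q hq
    rcases Finset.mem_insert.1 (h1 hq) with h3 | h3
    · subst h3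
      exact absurd (Nat.dvd_of_mem_primeFactors hq) h2
    · exact h3
  · intro h
    refine ⟨h.trans (Finset.subset_insert _ _), fun h2 => hpP (h ?_)⟩
    exact Nat.mem_primeFactors.2 ⟨hp, h2, hn⟩

theorem gt_stepT {c f : ℕ → ℝ} (hf : ∀ p n : ℕ, p.Prime → 1 ≤ n → f (p * n) = c p * f n)
    {p : ℕ} (hp : p.Prime) {P : Finset ℕ} (hpP : p ∉ P) (N : ℕ) :
    gt_T f (insert p P) N = gt_T f P N + c p / p * gt_T f (insert p P) (N / p) := by
  unfold gt_T
  rw [← Finset.sum_filter_add_sum_filter_not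
    ((Icc 1 N).filter (fun n => n.primeFactors ⊆ insert p P)) (fun n => ¬ p ∣ n)]
  congr 1
  · apply Finset.sum_congr _ fun _ _ => rfl
    ext n
    rw [Finset.mem_filter, Finset.mem_filter, Finset.mem_filter, Finset.mem_Icc]
    constructor
    · rintro ⟨⟨h1, h2⟩, h3⟩
      exact ⟨h1, (gt_sub hp hpP (by omega)).1 ⟨h2, h3⟩⟩
    · rintro ⟨h1, h2⟩
      have h3 := (gt_sub hp hpP (n := n) (by omega)).2 h2
      exact ⟨⟨h1, h3.1⟩, h3.2⟩
  · rw [Finset.mul_sum]
    refine Finset.sum_bij' (fun n _ => n / p) (fun m _ => p * m) ?_ ?_ ?_ ?_ ?_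
    · intro n hn
      rw [Finset.mem_filter, Finset.mem_filter, Finset.mem_Icc, not_not] at hn
      obtain ⟨⟨⟨h1, h2⟩, h3⟩, m, rfl⟩ := hn
      have hm : m ≠ 0 := by rintro rfl; omega
      rw [Nat.mul_div_cancel_left _ hp.pos]
      rw [Finset.mem_filter, Finset.mem_Icc, Nat.le_div_iff_mul_le hp.pos]
      refine ⟨⟨Nat.pos_of_ne_zero hm, by rw [mul_comm]; exact h2⟩, ?_⟩
      rw [gt_pf hp hm] at h3
      exact (Finset.subset_insert _ _).trans h3
    · intro m hm
      rw [Finset.mem_filter, Finset.mem_Icc, Nat.le_div_iff_mul_le hp.pos] at hm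
      obtain ⟨⟨h1, h2⟩, h3⟩ := hm
      rw [Finset.mem_filter, Finset.mem_filter, Finset.mem_Icc, not_not, gt_pf hp (by omega)]
      refine ⟨⟨⟨Nat.mul_pos hp.pos h1, by rw [mul_comm]; exact h2⟩, ?_⟩, Dvd.intro m rfl⟩
      exact Finset.insert_subset (Finset.mem_insert_self _ _) h3
    · intro n hn
      rw [Finset.mem_filter, not_not] at hn
      exact Nat.mul_div_cancel' hn.2
    · intro m _
      exact Nat.mul_div_cancel_left _ hp.pos
    · intro n hn
      rw [Finset.mem_filter, Finset.mem_filter, Finset.mem_Icc, not_not] at hn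
      obtain ⟨⟨⟨h1, h2⟩, h3⟩, m, rfl⟩ := hn
      have hm : m ≠ 0 := by rintro rfl; omega
      rw [Nat.mul_div_cancel_left _ hp.pos, hf p m hp (Nat.pos_of_ne_zero hm)]
      have h4 : (m : ℝ) ≠ 0 := by exact_mod_cast hm
      have h5 : (p : ℝ) ≠ 0 := by exact_mod_cast hp.ne_zero
      push_cast
      field_simp

theorem gt_stepG (c : ℕ → ℝ) {p : ℕ} (hp : p.Prime) {P : Finset ℕ} (hpP : p ∉ P) (N : ℕ) :
    gt_G c (insert p P) N = gt_G c P N + c p / ((p : ℝ) - c p) * gt_G c P (N / p) := by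
  unfold gt_G
  rw [← Finset.sum_filter_add_sum_filter_not
    ((Icc 1 N).filter (fun n => Squarefree n ∧ n.primeFactors ⊆ insert p P)) (fun n => ¬ p ∣ n)]
  congr 1
  · apply Finset.sum_congr _ fun _ _ => rfl
    ext n
    rw [Finset.mem_filter, Finset.mem_filter, Finset.mem_filter, Finset.mem_Icc]
    constructor
    · rintro ⟨⟨h1, h0, h2⟩, h3⟩
      exact ⟨h1, h0, (gt_sub hp hpP (by omega)).1 ⟨h2, h3⟩⟩
    · rintro ⟨h1, h0, h2⟩
      have h3 := (gt_sub hp hpP (n := n) (by omega)).2 h2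
      exact ⟨⟨h1, h0, h3.1⟩, h3.2⟩
  · rw [Finset.mul_sum]
    refine Finset.sum_bij' (fun n _ => n / p) (fun m _ => p * m) ?_ ?_ ?_ ?_ ?_
    · intro n hn
      rw [Finset.mem_filter, Finset.mem_filter, Finset.mem_Icc, not_not] at hn
      obtain ⟨⟨⟨h1, h2⟩, h0, h3⟩, m, rfl⟩ := hn
      have hm : m ≠ 0 := by rintro rfl; omega
      have hpm : ¬ p ∣ m := by
        intro h
        have h4 := h0 p (Nat.mul_dvd_mul_left p h)
        exact hp.one_lt.ne' (Nat.isUnit_iff.1 h4)
      rw [Nat.mul_div_cancel_left _ hp.pos]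
      rw [Finset.mem_filter, Finset.mem_Icc, Nat.le_div_iff_mul_le hp.pos]
      refine ⟨⟨Nat.pos_of_ne_zero hm, by rw [mul_comm]; exact h2⟩,
        h0.squarefree_of_dvd (Dvd.intro_left p rfl), ?_⟩
      rw [gt_pf hp hm] at h3
      exact (gt_sub hp hpP hm).1 ⟨(Finset.subset_insert _ _).trans h3, hpm⟩
    · intro m hm
      rw [Finset.mem_filter, Finset.mem_Icc, Nat.le_div_iff_mul_le hp.pos] at hm
      obtain ⟨⟨h1, h2⟩, h0, h3⟩ := hm
      have hpm : ¬ p ∣ m := ((gt_sub hp hpP (n := m) (by omega)).2 h3).2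
      rw [Finset.mem_filter, Finset.mem_filter, Finset.mem_Icc, not_not, gt_pf hp (by omega)]
      refine ⟨⟨⟨Nat.mul_pos hp.pos h1, by rw [mul_comm]; exact h2⟩, ?_, ?_⟩, Dvd.intro m rfl⟩
      · rw [Nat.squarefree_mul ((Nat.Prime.coprime_iff_not_dvd hp).2 hpm)]
        exact ⟨hp.squarefree, h0⟩
      · exact Finset.insert_subset_insert _ h3
    · intro n hn
      rw [Finset.mem_filter, not_not] at hn
      exact Nat.mul_div_cancel' hn.2
    · intro m _
      exact Nat.mul_div_cancel_left _ hp.pos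
    · intro n hn
      rw [Finset.mem_filter, Finset.mem_filter, Finset.mem_Icc, not_not] at hn
      obtain ⟨⟨⟨h1, h2⟩, h0, h3⟩, m, rfl⟩ := hn
      have hm : m ≠ 0 := by rintro rfl; omega
      have hpm : p ∉ m.primeFactors := by
        intro h
        have h4 := h0 p (Nat.mul_dvd_mul_left p (Nat.dvd_of_mem_primeFactors h))
        exact hp.one_lt.ne' (Nat.isUnit_iff.1 h4)
      rw [Nat.mul_div_cancel_left _ hp.pos, gt_pf hp hm, Finset.prod_insert hpm]

theorem gt_mono {c : ℕ → ℝ} (hc : ∀ p : ℕ, p.Prime → 0 ≤ c p ∧ c p < p) (P : Finset ℕ)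
    {M N : ℕ} (h : M ≤ N) : gt_G c P M ≤ gt_G c P N := by
  unfold gt_G
  apply Finset.sum_le_sum_of_subset_of_nonneg
  · apply Finset.filter_subset_filter
    exact Finset.Icc_subset_Icc_right h
  · intro r _ _
    apply Finset.prod_nonneg
    intro p hp
    have := hc p (Nat.prime_of_mem_primeFactors hp)
    exact div_nonneg this.1 (by linarith)

theorem p_gt : S_gt := by
  intro c f hc hf1 hf P
  induction P using Finset.induction_on with
  | empty =>
    intro _ N
    have e1 : (Icc 1 N).filter (fun r => Squarefree r ∧ r.primeFactors ⊆ (∅ : Finset ℕ)) =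
        (Icc 1 N).filter (fun n => n.primeFactors ⊆ (∅ : Finset ℕ)) := by
      ext n
      rw [Finset.mem_filter, Finset.mem_filter, Finset.mem_Icc]
      constructor
      · rintro ⟨h1, _, h3⟩
        exact ⟨h1, h3⟩
      · rintro ⟨h1, h3⟩
        refine ⟨h1, ?_, h3⟩
        rw [Finset.subset_empty, Nat.primeFactors_eq_empty] at h3
        rcases h3 with h3 | h3
        · omega
        · rw [h3]; exact squarefree_one
    rw [e1]
    apply Finset.sum_le_sum
    intro n hn
    rw [Finset.mem_filter, Finset.mem_Icc, Finset.subset_empty, Nat.primeFactors_eq_empty] at hn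
    obtain ⟨h1, h2⟩ := hn
    rcases h2 with h2 | h2
    · omega
    · subst h2
      simp [hf1]
  | insert p P hpP ih =>
    intro hP
    have hp : p.Prime := hP p (Finset.mem_insert_self _ _)
    have ih' : ∀ N, gt_T f P N ≤ gt_G c P N :=
      ih (fun q hq => hP q (Finset.mem_insert_of_mem hq))
    have key : ∀ N, gt_T f (insert p P) N ≤ gt_G c (insert p P) N := by
      intro N
      induction N using Nat.strong_induction_on with
      | _ N ihN =>
        rcases Nat.eq_zero_or_pos N with hN | hN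
        · subst hN
          unfold gt_T gt_G
          simp
        · have h1 := ihN (N / p) (Nat.div_lt_self hN hp.one_lt)
          have hcp := hc p hp
          have hp0 : (0 : ℝ) < p := by exact_mod_cast hp.pos
          have h2 : gt_G c (insert p P) (N / p) ≤
              (1 + c p / ((p : ℝ) - c p)) * gt_G c P (N / p) := by
            rw [gt_stepG c hp hpP]
            have h3 := gt_mono hc P (Nat.div_le_self (N / p) p)
            have h4 : 0 ≤ c p / ((p : ℝ) - c p) := div_nonneg hcp.1 (by linarith)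
            nlinarith
          rw [gt_stepT hf hp hpP, gt_stepG c hp hpP]
          have h5 : c p / p * gt_T f (insert p P) (N / p) ≤
              c p / p * ((1 + c p / ((p : ℝ) - c p)) * gt_G c P (N / p)) :=
            mul_le_mul_of_nonneg_left (h1.trans h2) (div_nonneg hcp.1 hp0.le)
          have h6 : c p / p * ((1 + c p / ((p : ℝ) - c p)) * gt_G c P (N / p)) =
              c p / ((p : ℝ) - c p) * gt_G c P (N / p) := by
            have h7 : (p : ℝ) - c p ≠ 0 := by linarith
            field_simp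
            ring
          have h8 := ih' N
          linarith
    exact key

end Pool.Agent.CA.SV
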