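import Pool.Agent.Lib.MP_d610d0_nt.CA.SV.Stm
import Pool.Agent.Lib.MP_89da58_nt.LargeArith

set_option autoImplicit false

/-!
Project CA, section SV, piece gw: the size of `G` and of the error term of Selberg's sieve.
-/

namespace Pool.Agent.CA.SV

open Finset Filter
open Pool.Agent.CH (zJ Rough)

private lemma gw_f2_one : f2 1 = 1 := by
  unfold f2
  rw [Nat.factorization_one]
  exact Finsupp.prod_zero_index

private lemma gw_f2_mul (p n : ℕ) (hp : p.Prime) (hn : 1 ≤ n) : f2 (p * n) = c2 p * f2 n := by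
  unfold f2
  rw [Nat.factorization_mul hp.ne_zero (by omega), Finsupp.prod_add_index' (by simp)
    (by intros; rw [pow_add]), hp.factorization, Finsupp.prod_single_index (by simp), pow_one]

private lemma gw_c2 (p : ℕ) (hp : p.Prime) : 0 ≤ c2 p ∧ c2 p < p := by
  unfold c2
  split_ifs with h
  · rw [h]; norm_num
  · have h3 : 3 ≤ p := by have := hp.two_le; omega
    have h4 : (3 : ℝ) ≤ p := by exact_mod_cast h3
    constructor <;> linarith

private lemma gw_gs (hcls : R_cls) (e p : ℕ) (hp : p.Prime) (hpe : ¬ p ∣ e) :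
    gs (cl e) p = c2 p / (p - c2 p) := by
  unfold gs c2
  rw [hcls e p hp hpe]
  split_ifs <;> push_cast <;> rfl

private lemma gw_not_dvd {r e p : ℕ} (h : Nat.Coprime r e) (hp : p ∈ r.primeFactors) :
    ¬ p ∣ e := by
  intro h2
  have hpp := Nat.prime_of_mem_primeFactors hp
  have h3 := Nat.dvd_gcd (Nat.dvd_of_mem_primeFactors hp) h2
  rw [h] at h3
  exact hpp.one_lt.ne' (Nat.dvd_one.1 h3)

private lemma gw_GS (hcls : R_cls) (hgt : R_gt) (e R : ℕ) :
    ∑ n ∈ (Icc 1 R).filter (fun n => Nat.Coprime n e), f2 n / n ≤ GS (cl e) (De e R) := by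
  obtain ⟨P, hP⟩ : ∃ P : Finset ℕ, P = (range (R + 1)).filter (fun p => p.Prime ∧ ¬ p ∣ e) :=
    ⟨_, rfl⟩
  have hsub : ∀ n ∈ Icc 1 R, n.primeFactors ⊆ P ↔ Nat.Coprime n e := by
    intro n hn
    rw [mem_Icc] at hn
    constructor
    · intro h
      by_contra hc
      obtain ⟨p, hp, hpn, hpe⟩ := Nat.Prime.not_coprime_iff_dvd.1 hc
      have h2 := h (Nat.mem_primeFactors.2 ⟨hp, hpn, by omega⟩)
      rw [hP, mem_filter] at h2
      exact h2.2.2 hpe
    · intro h p hp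
      rw [hP, mem_filter, mem_range]
      have h1 := Nat.le_of_dvd (by omega) (Nat.dvd_of_mem_primeFactors hp)
      exact ⟨by omega, Nat.prime_of_mem_primeFactors hp, gw_not_dvd h hp⟩
  have h := hgt c2 f2 gw_c2 gw_f2_one gw_f2_mul P (fun p hp => by
    rw [hP, mem_filter] at hp; exact hp.2.1) R
  have e1 : (Icc 1 R).filter (fun n => n.primeFactors ⊆ P) =
      (Icc 1 R).filter (fun n => Nat.Coprime n e) := filter_congr hsub
  have e2 : (Icc 1 R).filter (fun r => Squarefree r ∧ r.primeFactors ⊆ P) = De e R := by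
    unfold De
    refine filter_congr fun r hr => ?_
    rw [hsub r hr]
  rw [e1, e2] at h
  refine h.trans (le_of_eq ?_)
  unfold GS
  refine sum_congr rfl fun r hr => prod_congr rfl fun p hp => ?_
  unfold De at hr
  rw [mem_filter] at hr
  rw [gw_gs hcls e p (Nat.prime_of_mem_primeFactors hp) (gw_not_dvd hr.2.2 hp)]

private lemma gw_card (e : ℕ) (he : 1 ≤ e) : (e.primeFactors.card : ℝ) ≤ 2 * Real.log e := by
  have h1 : 2 ^ e.primeFactors.card ≤ e := by
    calc 2 ^ e.primeFactors.card = ∏ _p ∈ e.primeFactors, 2 := by rw [prod_const]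
      _ ≤ ∏ p ∈ e.primeFactors, p := prod_le_prod' fun p hp =>
          (Nat.prime_of_mem_primeFactors hp).two_le
      _ ≤ e := Nat.le_of_dvd he (Nat.prod_primeFactors_dvd e)
  have h2 : ((2 : ℝ)) ^ e.primeFactors.card ≤ e := by exact_mod_cast h1
  have h3 := Real.log_le_log (by positivity) h2
  rw [Real.log_pow] at h3
  have h4 := Real.log_two_gt_d9
  have h5 : (0 : ℝ) ≤ e.primeFactors.card := by positivity
  nlinarith

private lemma gw_term (hcls : R_cls) (e p : ℕ) (hp : p.Prime) (hpe : ¬ p ∣ e) :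
    0 ≤ gs (cl e) p * ((p : ℝ) + 1) ∧
      gs (cl e) p * ((p : ℝ) + 1) ≤ (if p = 3 then 2 else 1) * 4 := by
  rw [gw_gs hcls e p hp hpe]
  have hc := gw_c2 p hp
  have hpos : 0 < (p : ℝ) - c2 p := by linarith
  constructor
  · exact mul_nonneg (div_nonneg hc.1 hpos.le) (by positivity)
  · rw [div_mul_eq_mul_div, div_le_iff₀ hpos]
    unfold c2 at *
    by_cases h2 : p = 2
    · subst h2; norm_num
    · by_cases h3 : p = 3
      · subst h3; norm_num
      · rw [if_neg h2, if_neg h3]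
        have h4 : p ≠ 4 := by rintro rfl; norm_num at hp
        have h5 : 5 ≤ p := by have := hp.two_le; omega
        have h6 : (5 : ℝ) ≤ p := by exact_mod_cast h5
        linarith

private lemma gw_three (s : Finset ℕ) :
    ∏ p ∈ s, (if p = 3 then (2 : ℝ) else 1) ≤ 2 := by
  rw [prod_ite_eq' s 3 (fun _ => (2 : ℝ))]
  split_ifs <;> norm_num

private lemma gw_div (r : ℕ) (hr : r ≠ 0) : ((2 : ℝ)) ^ r.primeFactors.card ≤ r.divisors.card := by
  rw [Nat.card_divisors hr]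
  push_cast
  rw [← prod_const]
  refine prod_le_prod (fun _ _ => by norm_num) fun p hp => ?_
  have h1 : 1 ≤ r.factorization p :=
    (Nat.prime_of_mem_primeFactors hp).factorization_pos_of_dvd hr (Nat.dvd_of_mem_primeFactors hp)
  have h2 : (1 : ℝ) ≤ r.factorization p := by exact_mod_cast h1
  linarith

private lemma gw_prod (hcls : R_cls) (e r : ℕ) (hr : r ≠ 0) (hre : Nat.Coprime r e) :
    0 ≤ ∏ p ∈ r.primeFactors, (gs (cl e) p * ((p : ℝ) + 1)) ∧
      ∏ p ∈ r.primeFactors, (gs (cl e) p * ((p : ℝ) + 1)) ≤ 2 * (r.divisors.card : ℝ) ^ 2 := by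
  have ht : ∀ p ∈ r.primeFactors, 0 ≤ gs (cl e) p * ((p : ℝ) + 1) ∧
      gs (cl e) p * ((p : ℝ) + 1) ≤ (if p = 3 then 2 else 1) * 4 := fun p hp =>
    gw_term hcls e p (Nat.prime_of_mem_primeFactors hp) (gw_not_dvd hre hp)
  refine ⟨prod_nonneg fun p hp => (ht p hp).1, ?_⟩
  calc ∏ p ∈ r.primeFactors, (gs (cl e) p * ((p : ℝ) + 1))
      ≤ ∏ p ∈ r.primeFactors, ((if p = 3 then (2 : ℝ) else 1) * 4) :=
        prod_le_prod (fun p hp => (ht p hp).1) fun p hp => (ht p hp).2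
    _ = (∏ p ∈ r.primeFactors, (if p = 3 then (2 : ℝ) else 1)) * 4 ^ r.primeFactors.card := by
        rw [prod_mul_distrib, prod_const]
    _ ≤ 2 * (r.divisors.card : ℝ) ^ 2 := by
        have h1 : (4 : ℝ) ^ r.primeFactors.card ≤ (r.divisors.card : ℝ) ^ 2 := by
          have h2 := gw_div r hr
          calc (4 : ℝ) ^ r.primeFactors.card = ((2 : ℝ) ^ r.primeFactors.card) ^ 2 := by
                rw [← pow_mul, mul_comm, pow_mul]; norm_num
            _ ≤ _ := pow_le_pow_left₀ (by positivity) h2 2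
        exact mul_le_mul (gw_three _) h1 (by positivity) (by norm_num)

private lemma gw_WS (hcls : R_cls) (e R : ℕ) :
    0 ≤ WS (cl e) (De e R) ∧ WS (cl e) (De e R) ≤ 2 * (R * (1 + Real.log R) ^ 3) := by
  have hm : ∀ r ∈ De e R, r ≠ 0 ∧ Nat.Coprime r e := by
    intro r hr
    unfold De at hr
    rw [mem_filter, mem_Icc] at hr
    exact ⟨by omega, hr.2.2⟩
  unfold WS
  constructor
  · exact sum_nonneg fun r hr => (gw_prod hcls e r (hm r hr).1 (hm r hr).2).1
  · calc ∑ r ∈ De e R, ∏ p ∈ r.primeFactors, (gs (cl e) p * ((p : ℝ) + 1))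
        ≤ ∑ r ∈ De e R, 2 * (r.divisors.card : ℝ) ^ 2 :=
          sum_le_sum fun r hr => (gw_prod hcls e r (hm r hr).1 (hm r hr).2).2
      _ ≤ ∑ r ∈ Icc 1 R, 2 * (r.divisors.card : ℝ) ^ 2 :=
          sum_le_sum_of_subset_of_nonneg (filter_subset _ _) fun _ _ _ => by positivity
      _ ≤ _ := by
          rw [← mul_sum]
          exact mul_le_mul_of_nonneg_left (Pool.Agent.MP89da58.sum_tau_sq R) (by norm_num)

private lemma gw_zc (J : ℕ) (h : 9 ≤ J) : (J : ℝ) ^ (1 / 8 : ℝ) ≤ zc J := by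
  unfold zc zJ
  have hJ : (1 : ℝ) ≤ J := by exact_mod_cast (by omega : 1 ≤ J)
  have h1 : (J : ℝ) < ((Nat.sqrt J : ℝ) + 1) ^ 2 := by
    exact_mod_cast Nat.lt_succ_sqrt' J
  have h2 : 3 ≤ Nat.sqrt J := Nat.le_sqrt.2 h
  have h3 : (3 : ℝ) ≤ Nat.sqrt J := by exact_mod_cast h2
  have h4 : (J : ℝ) ≤ (3 * (Nat.sqrt J : ℝ)) ^ 2 := by nlinarith
  have h5 : (J : ℝ) ^ (1 / 2 : ℝ) ≤ 3 * (Nat.sqrt J : ℝ) := by
    rw [← Real.sqrt_eq_rpow]
    exact (Real.sqrt_le_left (by positivity)).2 h4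
  calc (J : ℝ) ^ (1 / 8 : ℝ) ≤ (J : ℝ) ^ (1 / 2 * (3 / 8) : ℝ) :=
        Real.rpow_le_rpow_of_exponent_le hJ (by norm_num)
    _ = ((J : ℝ) ^ (1 / 2 : ℝ)) ^ (3 / 8 : ℝ) := by rw [Real.rpow_mul (by positivity)]
    _ ≤ _ := Real.rpow_le_rpow (by positivity) h5 (by norm_num)

private lemma gw_inv (e : ℕ) (z : ℝ) (hz : 0 < z) (he : 1 ≤ e) (hr : Rough z e) :
    ∑ p ∈ e.primeFactors, 1 / (p : ℝ) ≤ 2 * Real.log e / z := by
  calc ∑ p ∈ e.primeFactors, 1 / (p : ℝ) ≤ ∑ _p ∈ e.primeFactors, 1 / z :=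
        sum_le_sum fun p hp => one_div_le_one_div_of_le hz
          (hr p (Nat.prime_of_mem_primeFactors hp) (Nat.dvd_of_mem_primeFactors hp))
    _ = e.primeFactors.card * (1 / z) := by rw [sum_const, nsmul_eq_mul]
    _ ≤ 2 * Real.log e * (1 / z) := mul_le_mul_of_nonneg_right (gw_card e he) (by positivity)
    _ = _ := by ring

private lemma gw_ev (c a : ℝ) (hc : 0 < c) (ha : 0 < a) :
    ∀ᶠ J : ℕ in atTop, c * Real.log J ≤ (J : ℝ) ^ a := by
  have h := (isLittleO_log_rpow_atTop ha).bound (inv_pos.2 hc)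
  have h2 := tendsto_natCast_atTop_atTop.eventually (h.and (eventually_ge_atTop (1 : ℝ)))
  filter_upwards [h2] with J hJ
  obtain ⟨h3, h4⟩ := hJ
  rw [Real.norm_of_nonneg (Real.log_nonneg h4), Real.norm_of_nonneg (by positivity)] at h3
  calc c * Real.log J ≤ c * (c⁻¹ * (J : ℝ) ^ a) := mul_le_mul_of_nonneg_left h3 hc.le
    _ = _ := by field_simp

theorem p_gw : S_gw := by
  intro hcls hgt htl
  have hlogJ : ∀ᶠ J : ℕ in atTop, (1000 : ℝ) ≤ Real.log J :=
    (Real.tendsto_log_atTop.comp tendsto_natCast_atTop_atTop).eventually_ge_atTop 1000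
  have hE3 : ∀ᶠ J : ℕ in atTop, (2 : ℝ) ≤ (J : ℝ) ^ (1 / 10000 : ℝ) :=
    ((tendsto_rpow_atTop (by norm_num)).comp tendsto_natCast_atTop_atTop).eventually_ge_atTop 2
  filter_upwards [hlogJ, gw_ev 32000 (1 / 8) (by norm_num) (by norm_num), hE3,
    gw_ev 3 (1 / 1200) (by norm_num) (by norm_num), eventually_ge_atTop 9] with J hL h2 h3 h4 hJ9
  intro e hodd hrough he
  obtain ⟨L, hLdef⟩ : ∃ L : ℝ, L = Real.log J := ⟨_, rfl⟩
  rw [← hLdef] at hL h2 h4 ⊢
  have hJ0 : (0 : ℝ) < J := by exact_mod_cast (by omega : 0 < J)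
  have hJ1 : (1 : ℝ) ≤ J := by exact_mod_cast (by omega : 1 ≤ J)
  have he1 : 1 ≤ e := hodd.pos
  have he1' : (1 : ℝ) ≤ e := by exact_mod_cast he1
  -- the size of `R`
  have hRle : (Rc J : ℝ) ≤ (J : ℝ) ^ (8 / 25 : ℝ) := Nat.floor_le (by positivity)
  have hRge : (J : ℝ) ^ (3199 / 10000 : ℝ) ≤ Rc J := by
    have h5 : (J : ℝ) ^ (8 / 25 : ℝ) < Rc J + 1 := Nat.lt_floor_add_one _
    have h6 : (J : ℝ) ^ (8 / 25 : ℝ) = (J : ℝ) ^ (3199 / 10000 : ℝ) * (J : ℝ) ^ (1 / 10000 : ℝ) := by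
      rw [← Real.rpow_add hJ0]; norm_num
    have h7 : 1 ≤ (J : ℝ) ^ (3199 / 10000 : ℝ) := Real.one_le_rpow hJ1 (by norm_num)
    rw [h6] at h5
    nlinarith
  have hR1 : (1 : ℝ) ≤ Rc J := (Real.one_le_rpow hJ1 (by norm_num)).trans hRge
  have hR1' : 1 ≤ Rc J := by exact_mod_cast hR1
  have hlR : Real.log (Rc J) ≤ 8 / 25 * L := by
    rw [hLdef, ← Real.log_rpow hJ0]
    exact Real.log_le_log (by linarith) hRle
  have hlR2 : 3199 / 10000 * L ≤ Real.log (Rc J) := by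
    rw [hLdef, ← Real.log_rpow hJ0]
    exact Real.log_le_log (by positivity) hRge
  constructor
  · -- lower bound
    have h5 := gw_GS hcls hgt e (Rc J)
    have h6 := htl (Rc J) e hR1' he1
    have hz := gw_zc J hJ9
    have hz0 : (0 : ℝ) < (J : ℝ) ^ (1 / 8 : ℝ) := by positivity
    have h7 := gw_inv e (zc J) (hz0.trans_le hz) he1 hrough
    have h8 : Real.log e ≤ 2 * L := by
      have h9 := Real.log_le_log (by linarith) he
      rw [Real.log_mul (by norm_num) (by positivity), Real.log_rpow hJ0, ← hLdef] at h9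
      have h10 : Real.log 27 ≤ 26 := by
        have := Real.log_le_sub_one_of_pos (show (0 : ℝ) < 27 by norm_num)
        linarith
      linarith
    have h9 : ∑ p ∈ e.primeFactors, 1 / (p : ℝ) ≤ 1 / 8000 := by
      refine h7.trans ?_
      rw [div_le_iff₀ (hz0.trans_le hz)]
      linarith
    have h10 : (1 + Real.log (Rc J)) ^ 2 ≤ (2 / 5 * L) ^ 2 := by
      apply pow_le_pow_left₀
      · linarith
      · linarith
    have h11 : (3199 / 10000 * L) ^ 2 ≤ Real.log (Rc J) ^ 2 :=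
      pow_le_pow_left₀ (by linarith) hlR2 2
    have h12 : (∑ p ∈ e.primeFactors, 1 / (p : ℝ)) * 2 * (1 + Real.log (Rc J)) ^ 2 ≤
        1 / 8000 * 2 * (2 / 5 * L) ^ 2 := by
      apply mul_le_mul _ h10 (by positivity) (by norm_num)
      linarith
    have h13 : 0 ≤ L ^ 2 := by positivity
    nlinarith
  · -- upper bound
    obtain ⟨h5, h6⟩ := gw_WS hcls e (Rc J)
    have h7 : (1 + Real.log (Rc J)) ^ 3 ≤ L ^ 3 := pow_le_pow_left₀ (by linarith) (by linarith) 3
    have h8 : WS (cl e) (De e (Rc J)) ≤ 2 * ((J : ℝ) ^ (8 / 25 : ℝ) * L ^ 3) := by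
      refine h6.trans (mul_le_mul_of_nonneg_left ?_ (by norm_num))
      exact mul_le_mul hRle h7 (by positivity) (by positivity)
    have h9 : (3 * L) ^ 6 ≤ (J : ℝ) ^ (1 / 200 : ℝ) := by
      calc (3 * L) ^ 6 ≤ ((J : ℝ) ^ (1 / 1200 : ℝ)) ^ 6 := pow_le_pow_left₀ (by linarith) h4 6
        _ = _ := by
          rw [← Real.rpow_natCast, ← Real.rpow_mul hJ0.le]; norm_num
    calc WS (cl e) (De e (Rc J)) ^ 2 ≤ (2 * ((J : ℝ) ^ (8 / 25 : ℝ) * L ^ 3)) ^ 2 :=
          pow_le_pow_left₀ h5 h8 2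
      _ = (J : ℝ) ^ (16 / 25 : ℝ) * (4 * L ^ 6) := by
          have : ((J : ℝ) ^ (8 / 25 : ℝ)) ^ 2 = (J : ℝ) ^ (16 / 25 : ℝ) := by
            rw [← Real.rpow_natCast, ← Real.rpow_mul hJ0.le]; norm_num
          rw [← this]; ring
      _ ≤ (J : ℝ) ^ (16 / 25 : ℝ) * (J : ℝ) ^ (1 / 200 : ℝ) := by
          apply mul_le_mul_of_nonneg_left _ (by positivity)
          have h10 : 0 ≤ L ^ 6 := by positivity
          nlinarith
      _ = _ := by rw [← Real.rpow_add hJ0]; norm_num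

end Pool.Agent.CA.SV
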