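import Pool.Agent.Lib.MP_d610d0_nt.CA.SV.Stm

set_option autoImplicit false

/-!
Piece num of section SV: the numerics of the cells, by the transposed recursion.
-/

namespace Pool.Agent.CA.SV

open Finset

/-! ### The transposed recursion -/

/-- the operator `Us` is symmetric for the form `∑ s < K, f s * g (K - 1 - s)` -/
private lemma num_symm (K : ℕ) (a f g : ℕ → ℝ) (hf : ∀ i, K ≤ i → f i = 0)
    (hg : ∀ i, K ≤ i → g i = 0) :
    ∑ s ∈ range K, Us K a f s * g (K - 1 - s) = ∑ t ∈ range K, f t * Us K a g (K - 1 - t) := by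
  have h1 : ∑ s ∈ range K, Us K a f s * g (K - 1 - s) =
      ∑ i ∈ range K, a i * ∑ s ∈ range K, f (s + i) * g (K - 1 - s) := by
    unfold Us
    calc ∑ s ∈ range K, (∑ i ∈ range K, a i * f (s + i)) * g (K - 1 - s)
        = ∑ s ∈ range K, ∑ i ∈ range K, a i * (f (s + i) * g (K - 1 - s)) := by
          apply sum_congr rfl
          intro s _
          rw [sum_mul]
          apply sum_congr rfl
          intro i _
          ring
      _ = _ := by
          rw [sum_comm]
          apply sum_congr rfl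
          intro i _
          rw [mul_sum]
  have h2 : ∑ t ∈ range K, f t * Us K a g (K - 1 - t) =
      ∑ i ∈ range K, a i * ∑ t ∈ range K, f t * g (K - 1 - t + i) := by
    unfold Us
    calc ∑ t ∈ range K, f t * ∑ i ∈ range K, a i * g (K - 1 - t + i)
        = ∑ t ∈ range K, ∑ i ∈ range K, a i * (f t * g (K - 1 - t + i)) := by
          apply sum_congr rfl
          intro t _
          rw [mul_sum]
          apply sum_congr rfl
          intro i _
          ring
      _ = _ := by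
          rw [sum_comm]
          apply sum_congr rfl
          intro i _
          rw [mul_sum]
  rw [h1, h2]
  apply sum_congr rfl
  intro i hi
  rw [mem_range] at hi
  congr 1
  -- both sums are over `t = s + i`
  have h3 : ∑ s ∈ range K, f (s + i) * g (K - 1 - s) =
      ∑ s ∈ range (K - i), f (s + i) * g (K - 1 - s) := by
    symm
    apply sum_subset
    · intro s hs
      rw [mem_range] at hs ⊢
      omega
    · intro s _ hs
      rw [mem_range, not_lt] at hs
      rw [hf (s + i) (by omega), zero_mul]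
  have h4 : ∑ t ∈ range K, f t * g (K - 1 - t + i) =
      ∑ t ∈ Ico i K, f t * g (K - 1 - t + i) := by
    symm
    apply sum_subset
    · intro t ht
      rw [mem_Ico] at ht
      rw [mem_range]
      omega
    · intro t ht hti
      rw [mem_range] at ht
      rw [mem_Ico] at hti
      rw [hg (K - 1 - t + i) (by omega), mul_zero]
  rw [h3, h4, sum_Ico_eq_sum_range]
  apply sum_congr rfl
  intro s hs
  rw [mem_range] at hs
  have e1 : K - 1 - (i + s) + i = K - 1 - s := by omega
  rw [e1, Nat.add_comm i s]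

private lemma num_supp (K : ℕ) (a f : ℕ → ℝ) (hf : ∀ i, K ≤ i → f i = 0) :
    ∀ r : ℕ, ∀ i, K ≤ i → ((Us K a)^[r] f) i = 0
  | 0 => hf
  | r + 1 => by
      intro i hi
      rw [Function.iterate_succ_apply']
      change ∑ k ∈ range K, a k * ((Us K a)^[r] f) (i + k) = 0
      apply sum_eq_zero
      intro k _
      rw [num_supp K a f hf r (i + k) (by omega), mul_zero]

private lemma num_symm_iter (K : ℕ) (a f g : ℕ → ℝ) (hf : ∀ i, K ≤ i → f i = 0)
    (hg : ∀ i, K ≤ i → g i = 0) :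
    ∀ r : ℕ, ∑ s ∈ range K, ((Us K a)^[r] f) s * g (K - 1 - s) =
      ∑ t ∈ range K, f t * ((Us K a)^[r] g) (K - 1 - t)
  | 0 => rfl
  | r + 1 => by
      rw [Function.iterate_succ_apply', num_symm K a _ g (num_supp K a f hf r) hg]
      have hg' : ∀ i, K ≤ i → Us K a g i = 0 := num_supp K a g hg 1
      have := num_symm_iter K a f (Us K a g) hf hg' r
      rw [this]
      apply sum_congr rfl
      intro t _
      rw [← Function.iterate_succ_apply]

/-- the value at zero -/
private lemma num_val (K : ℕ) (hK : 1 ≤ K) (a g : ℕ → ℝ) (hg : ∀ i, K ≤ i → g i = 0) (r : ℕ) :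
    ((Us K a)^[r] g) 0 =
      ∑ s ∈ range K, ((Us K a)^[r] (fun s => if s = K - 1 then 1 else 0)) s * g (K - 1 - s) := by
  rw [num_symm_iter K a _ g (fun i hi => if_neg (by omega)) hg r, sum_eq_single (K - 1)]
  · simp
  · intro t _ ht
    rw [if_neg ht, zero_mul]
  · intro h
    exact absurd (mem_range.2 (by omega)) h

/-! ### Lists -/

private def num_dot : List ℕ → List ℕ → ℕ
  | a :: as, b :: bs => a * b + num_dot as bs
  | _, _ => 0

private def num_UL (a : List ℕ) : List ℕ → List ℕ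
  | [] => []
  | x :: l => num_dot a (x :: l) :: num_UL a l

private lemma num_dot_nil (a : List ℕ) : num_dot a [] = 0 := by
  cases a <;> simp [num_dot]

private lemma num_dot_sum : ∀ (n : ℕ) (a l : List ℕ), a.length ≤ n →
    num_dot a l = ∑ i ∈ range n, a.getD i 0 * l.getD i 0
  | n, [], l, _ => by simp [num_dot]
  | n, x :: a, [], _ => by simp [num_dot]
  | 0, x :: a, y :: l, h => by simp at h
  | n + 1, x :: a, y :: l, h => by
      rw [Finset.sum_range_succ', num_dot, num_dot_sum n a l (by simpa using h)]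
      simp [add_comm]

private lemma num_UL_getD (a : List ℕ) : ∀ (l : List ℕ) (s : ℕ),
    (num_UL a l).getD s 0 = num_dot a (l.drop s)
  | [], s => by simp [num_UL, num_dot_nil]
  | x :: l, 0 => by simp [num_UL]
  | x :: l, s + 1 => by
      have := num_UL_getD a l s
      simpa [num_UL] using this

private lemma num_UL_sum (K : ℕ) (a l : List ℕ) (ha : a.length = K) (s : ℕ) :
    (num_UL a l).getD s 0 = ∑ i ∈ range K, a.getD i 0 * l.getD (s + i) 0 := by
  rw [num_UL_getD, num_dot_sum K a _ ha.le]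
  refine Finset.sum_congr rfl fun i _ => ?_
  congr 1
  simp [List.getD_eq_getElem?_getD, List.getElem?_drop]

private lemma num_UL_len (a : List ℕ) : ∀ l : List ℕ, (num_UL a l).length = l.length
  | [] => rfl
  | x :: l => by
      show (num_dot a (x :: l) :: num_UL a l).length = _
      rw [List.length_cons, List.length_cons, num_UL_len a l]

private lemma num_UL_len_iter (a : List ℕ) (l : List ℕ) :
    ∀ r : ℕ, ((num_UL a)^[r] l).length = l.length
  | 0 => rfl
  | r + 1 => by
      rw [Function.iterate_succ_apply', num_UL_len, num_UL_len_iter a l r]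

private lemma num_step (K : ℕ) (a Φ : ℕ → ℝ) (al l : List ℕ) (c d : ℝ) (hc : 0 ≤ c)
    (hal : al.length = K) (ha0 : ∀ i, 0 ≤ a i) (hΦ0 : ∀ s, 0 ≤ Φ s)
    (ha : ∀ i, i < K → d * a i ≤ (al.getD i 0 : ℝ)) (hΦ : ∀ s, c * Φ s ≤ (l.getD s 0 : ℝ)) :
    (∀ s, 0 ≤ Us K a Φ s) ∧ ∀ s, (d * c) * Us K a Φ s ≤ ((num_UL al l).getD s 0 : ℝ) := by
  refine ⟨fun s => Finset.sum_nonneg fun i _ => mul_nonneg (ha0 i) (hΦ0 _), fun s => ?_⟩
  rw [num_UL_sum K al l hal, Us, Finset.mul_sum]
  push_cast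
  refine Finset.sum_le_sum fun i hi => ?_
  have h1 := ha i (Finset.mem_range.1 hi)
  have h2 := hΦ (s + i)
  calc d * c * (a i * Φ (s + i)) = (d * a i) * (c * Φ (s + i)) := by ring
    _ ≤ _ := mul_le_mul h1 h2 (mul_nonneg hc (hΦ0 _)) (by positivity)

private lemma num_iter (K : ℕ) (a Φ : ℕ → ℝ) (al l : List ℕ) (c d : ℝ) (hd : 0 ≤ d) (hc : 0 ≤ c)
    (hal : al.length = K) (ha0 : ∀ i, 0 ≤ a i) (hΦ0 : ∀ s, 0 ≤ Φ s)
    (ha : ∀ i, i < K → d * a i ≤ (al.getD i 0 : ℝ)) (hΦ : ∀ s, c * Φ s ≤ (l.getD s 0 : ℝ)) :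
    ∀ r : ℕ, (∀ s, 0 ≤ ((Us K a)^[r] Φ) s) ∧
      ∀ s, (d ^ r * c) * ((Us K a)^[r] Φ) s ≤ (((num_UL al)^[r] l).getD s 0 : ℝ)
  | 0 => by simpa using ⟨hΦ0, hΦ⟩
  | r + 1 => by
      obtain ⟨h0, h1⟩ := num_iter K a Φ al l c d hd hc hal ha0 hΦ0 ha hΦ r
      have := num_step K a ((Us K a)^[r] Φ) al ((num_UL al)^[r] l) (d ^ r * c) d
        (by positivity) hal ha0 h0 ha h1
      rw [Function.iterate_succ_apply', Function.iterate_succ_apply']
      refine ⟨this.1, fun s => ?_⟩
      have h2 := this.2 s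
      have h3 : d ^ (r + 1) * c = d * (d ^ r * c) := by ring
      rw [h3]
      exact h2

private lemma num_map_getD (f : ℕ → ℕ) (n s : ℕ) :
    ((List.range n).map f).getD s 0 = if s < n then f s else 0 := by
  split_ifs with h
  · simp [List.getD_eq_getElem?_getD, h]
  · simp [List.getD_eq_getElem?_getD, h]

private lemma num_div (x y : ℕ) (hy : 0 < y) : (x : ℝ) / y ≤ ((x / y + 1 : ℕ) : ℝ) := by
  have h1 : x < y * (x / y + 1) := by
    have := Nat.div_add_mod x y
    have h2 := Nat.mod_lt x hy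
    calc x = y * (x / y) + x % y := this.symm
      _ < y * (x / y) + y := by omega
      _ = _ := by ring
  have hy' : (0 : ℝ) < y := by exact_mod_cast hy
  rw [div_le_iff₀ hy']
  have h3 : (x : ℝ) < (y : ℝ) * ((x / y + 1 : ℕ) : ℝ) := by exact_mod_cast h1
  linarith [h3, mul_comm (y : ℝ) ((x / y + 1 : ℕ) : ℝ)]

/-- the list of the upper bounds for `10 ^ 6 * a8` -/
private def num_aN (K : ℕ) : List ℕ :=
  (List.range K).map fun i => if 8 ≤ i then 505000 * (2 * i + 1) / (i * (i + 1)) + 1 else 0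

/-- the start -/
private def num_l0 (K : ℕ) : List ℕ := (List.range K).map fun s => if s = K - 1 then 1 else 0

private lemma num_a8_nonneg (i : ℕ) : 0 ≤ a8 i := by
  unfold a8
  split_ifs with h
  · positivity
  · exact le_rfl

private lemma num_a8_le (K i : ℕ) (hi : i < K) :
    (10 ^ 6 : ℝ) * a8 i ≤ ((num_aN K).getD i 0 : ℝ) := by
  unfold num_aN
  rw [num_map_getD, if_pos hi]
  unfold a8
  split_ifs with h
  · have hi0 : 0 < i := by omega
    have h1 := num_div (505000 * (2 * i + 1)) (i * (i + 1)) (by positivity)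
    refine le_trans (le_of_eq ?_) h1
    have : (i : ℝ) ≠ 0 := by exact_mod_cast hi0.ne'
    push_cast
    field_simp
    ring
  · simp

/-- the value at zero, in terms of lists -/
private lemma num_key (K : ℕ) (hK : 1 ≤ K) (g : ℕ → ℝ) (hg0 : ∀ i, 0 ≤ g i)
    (hg : ∀ i, K ≤ i → g i = 0) (pl : List ℕ)
    (hpl : ∀ s, s < K → (10 ^ 6 : ℝ) * g (K - 1 - s) ≤ (pl.getD s 0 : ℝ)) (r : ℕ) :
    ((10 : ℝ) ^ 6) ^ (r + 1) * ((Us K a8)^[r] g) 0 ≤
      (num_dot ((num_UL (num_aN K))^[r] (num_l0 K)) pl : ℝ) := by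
  have hE0 : ∀ s, (0 : ℝ) ≤ (if s = K - 1 then 1 else 0) := by
    intro s; split_ifs <;> norm_num
  have hE : ∀ s, (1 : ℝ) * (if s = K - 1 then 1 else 0) ≤ ((num_l0 K).getD s 0 : ℝ) := by
    intro s
    unfold num_l0
    rw [num_map_getD]
    by_cases h1 : s = K - 1
    · rw [if_pos h1, if_pos (by omega), if_pos h1]; norm_num
    · rw [if_neg h1, mul_zero]
      exact Nat.cast_nonneg _
  obtain ⟨k0, k1⟩ := num_iter K a8 (fun s => if s = K - 1 then 1 else 0) (num_aN K) (num_l0 K)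
    1 (10 ^ 6) (by positivity) (by norm_num) (by simp [num_aN]) num_a8_nonneg hE0
    (num_a8_le K) hE r
  rw [num_val K hK a8 g hg r, num_dot_sum K _ _ (by rw [num_UL_len_iter]; simp [num_l0]), mul_sum]
  push_cast
  apply sum_le_sum
  intro s hs
  rw [mem_range] at hs
  have h1 := k1 s
  have h2 := hpl s hs
  calc ((10 : ℝ) ^ 6) ^ (r + 1) *
        (((Us K a8)^[r] (fun s => if s = K - 1 then 1 else 0)) s * g (K - 1 - s))
      = (((10 : ℝ) ^ 6) ^ r * 1 * ((Us K a8)^[r] (fun s => if s = K - 1 then 1 else 0)) s) *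
        ((10 : ℝ) ^ 6 * g (K - 1 - s)) := by rw [pow_succ]; ring
    _ ≤ _ := mul_le_mul h1 h2 (mul_nonneg (by positivity) (hg0 _)) (Nat.cast_nonneg _)

/-- a loop over `r`: `n` steps, starting from the list `l` for the index `r` -/
private def num_loop (a : List ℕ) (pl : ℕ → List ℕ) (w : ℕ → ℕ) : ℕ → ℕ → List ℕ → ℕ → ℕ
  | 0, _, _, acc => acc
  | n + 1, r, l, acc =>
      num_loop a pl w n (r + 1) (num_UL a l) (acc * 1000000 + w r * num_dot l (pl r))

private lemma num_loop_eq (a : List ℕ) (pl : ℕ → List ℕ) (w : ℕ → ℕ) :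
    ∀ (n r : ℕ) (l : List ℕ) (acc : ℕ), num_loop a pl w n r l acc =
      acc * 1000000 ^ n + ∑ i ∈ range n, w (r + i) * num_dot ((num_UL a)^[i] l) (pl (r + i)) *
        1000000 ^ (n - 1 - i)
  | 0, r, l, acc => by simp [num_loop]
  | n + 1, r, l, acc => by
      rw [num_loop, num_loop_eq a pl w n (r + 1), Finset.sum_range_succ']
      have h1 : ∀ i ∈ range n, w (r + 1 + i) * num_dot ((num_UL a)^[i] (num_UL a l))
          (pl (r + 1 + i)) * 1000000 ^ (n - 1 - i) =
          w (r + (i + 1)) * num_dot ((num_UL a)^[i + 1] l) (pl (r + (i + 1))) *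
            1000000 ^ (n + 1 - 1 - (i + 1)) := by
        intro i hi
        rw [mem_range] at hi
        rw [Function.iterate_succ_apply, show r + 1 + i = r + (i + 1) by ring,
          show n - 1 - i = n + 1 - 1 - (i + 1) by omega]
      rw [sum_congr rfl h1]
      simp only [Function.iterate_zero, id_eq, Nat.add_zero, Nat.add_sub_cancel, Nat.sub_zero]
      ring

/-- the reversed list of the values of `Ph` -/
private def num_pl (r : ℕ) : List ℕ :=
  (List.range 120).map fun s => 8000000 / max 8 (128 - (119 - s) - r) + 1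

/-- the reversed list of the values of `P58` -/
private def num_ql (_ : ℕ) : List ℕ := (List.range 58).map fun _ => 1000000

private lemma num_Ph_nonneg (r M : ℕ) : 0 ≤ Ph r M := by
  unfold Ph
  split_ifs with h
  · positivity
  · exact le_rfl

private lemma num_Ph_le (r s : ℕ) (hs : s < 120) :
    (10 ^ 6 : ℝ) * Ph r (120 - 1 - s) ≤ ((num_pl r).getD s 0 : ℝ) := by
  unfold num_pl
  rw [num_map_getD, if_pos hs]
  unfold Ph
  rw [if_pos (by omega), show 120 - 1 - s = 119 - s by omega]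
  have h1 := num_div 8000000 (max 8 (128 - (119 - s) - r)) (by positivity)
  refine le_trans (le_of_eq ?_) h1
  push_cast
  ring

/-- the weights `15! / (r + 1)!` -/
private def num_w : ℕ → ℕ
  | 5 => 1816214400 | 6 => 259459200 | 7 => 32432400 | 8 => 3603600 | 9 => 360360
  | 10 => 32760 | 11 => 2730 | 12 => 210 | 13 => 15 | 14 => 1 | _ => 0

private lemma num_decA : num_loop (num_aN 120) num_pl num_w 10 5
    ((num_UL (num_aN 120))^[5] (num_l0 120)) 0 ≤ 15896313 * 10 ^ 93 := by
  decide +kernel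

private def num_v : ℕ → ℕ
  | 5 => 42 | 6 => 7 | 7 => 1 | _ => 0

private lemma num_decB : num_loop (num_aN 58) num_ql num_v 3 5
    ((num_UL (num_aN 58))^[5] (num_l0 58)) 0 ≤ 7560 * 10 ^ 45 := by
  decide +kernel

private lemma num_A : ∑ r ∈ Icc 5 14, 16 / ((r + 1).factorial : ℝ) * ((Us 120 a8)^[r] (Ph r)) 0 ≤
    0.1945 := by
  have key := fun r : ℕ => num_key 120 (by norm_num) (Ph r) (num_Ph_nonneg r)
    (fun i hi => by unfold Ph; rw [if_neg (by omega)]) (num_pl r) (num_Ph_le r) r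
  have hd := num_decA
  rw [num_loop_eq, Nat.zero_mul, Nat.zero_add] at hd
  have hd' : ((∑ i ∈ range 10, num_w (5 + i) *
      num_dot ((num_UL (num_aN 120))^[i] ((num_UL (num_aN 120))^[5] (num_l0 120)))
        (num_pl (5 + i)) * 1000000 ^ (10 - 1 - i) : ℕ) : ℝ) ≤ ((15896313 * 10 ^ 93 : ℕ) : ℝ) := by
    exact_mod_cast hd
  have e : ∀ i, (num_UL (num_aN 120))^[i] ((num_UL (num_aN 120))^[5] (num_l0 120)) =
      (num_UL (num_aN 120))^[5 + i] (num_l0 120) := by
    intro i
    rw [← Function.iterate_add_apply, Nat.add_comm]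
  push_cast at hd'
  simp only [e] at hd'
  have h1 : ∑ i ∈ range 10, (num_w (5 + i) : ℝ) * (((10 : ℝ) ^ 6) ^ (5 + i + 1) *
      ((Us 120 a8)^[5 + i] (Ph (5 + i))) 0) * 1000000 ^ (9 - i) ≤
      15896313 * 10 ^ 93 := by
    refine le_trans (sum_le_sum fun i _ => ?_) (hd'.trans (le_of_eq (by norm_num)))
    apply mul_le_mul_of_nonneg_right _ (by positivity)
    exact mul_le_mul_of_nonneg_left (key (5 + i)) (Nat.cast_nonneg _)
  have h2 : ∑ r ∈ Icc 5 14, 16 / ((r + 1).factorial : ℝ) * ((Us 120 a8)^[r] (Ph r)) 0 =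
      16 / (1307674368000 * (10 : ℝ) ^ 90) * ∑ i ∈ range 10, (num_w (5 + i) : ℝ) *
        (((10 : ℝ) ^ 6) ^ (5 + i + 1) * ((Us 120 a8)^[5 + i] (Ph (5 + i))) 0) *
          1000000 ^ (9 - i) := by
    have e1 : Icc 5 14 = (range 10).image (fun i => 5 + i) := by decide
    rw [e1, sum_image (fun x _ y _ h => by simpa using h), mul_sum]
    apply sum_congr rfl
    intro i hi
    generalize ((Us 120 a8)^[5 + i] (Ph (5 + i))) 0 = x
    rw [mem_range] at hi
    interval_cases i <;> norm_num [num_w, Nat.factorial] <;> ring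
  rw [h2]
  calc 16 / (1307674368000 * (10 : ℝ) ^ 90) * _ ≤
      16 / (1307674368000 * (10 : ℝ) ^ 90) * (15896313 * 10 ^ 93) :=
        mul_le_mul_of_nonneg_left h1 (by positivity)
    _ ≤ 0.1945 := by norm_num

private lemma num_P58_nonneg (M : ℕ) : 0 ≤ P58 M := by
  unfold P58
  split_ifs <;> norm_num

private lemma num_P58_le (s : ℕ) (hs : s < 58) :
    (10 ^ 6 : ℝ) * P58 (58 - 1 - s) ≤ ((num_ql 0).getD s 0 : ℝ) := by
  unfold num_ql
  rw [num_map_getD, if_pos hs]
  unfold P58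
  rw [if_pos (by omega)]
  norm_num

private lemma num_B : ∑ k ∈ Icc 5 7, 1 / (k.factorial : ℝ) * ((Us 58 a8)^[k] P58) 0 ≤ 0.0015 := by
  have key := fun r : ℕ => num_key 58 (by norm_num) P58 num_P58_nonneg
    (fun i hi => by unfold P58; rw [if_neg (by omega)]) (num_ql 0) num_P58_le r
  have hd := num_decB
  rw [num_loop_eq, Nat.zero_mul, Nat.zero_add] at hd
  have hd' : ((∑ i ∈ range 3, num_v (5 + i) *
      num_dot ((num_UL (num_aN 58))^[i] ((num_UL (num_aN 58))^[5] (num_l0 58)))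
        (num_ql 0) * 1000000 ^ (3 - 1 - i) : ℕ) : ℝ) ≤ ((7560 * 10 ^ 45 : ℕ) : ℝ) := by
    exact_mod_cast hd
  have e : ∀ i, (num_UL (num_aN 58))^[i] ((num_UL (num_aN 58))^[5] (num_l0 58)) =
      (num_UL (num_aN 58))^[5 + i] (num_l0 58) := by
    intro i
    rw [← Function.iterate_add_apply, Nat.add_comm]
  push_cast at hd'
  simp only [e] at hd'
  have h1 : ∑ i ∈ range 3, (num_v (5 + i) : ℝ) * (((10 : ℝ) ^ 6) ^ (5 + i + 1) *
      ((Us 58 a8)^[5 + i] P58) 0) * 1000000 ^ (2 - i) ≤ 7560 * 10 ^ 45 := by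
    refine le_trans (sum_le_sum fun i _ => ?_) (hd'.trans (le_of_eq (by norm_num)))
    apply mul_le_mul_of_nonneg_right _ (by positivity)
    exact mul_le_mul_of_nonneg_left (key (5 + i)) (Nat.cast_nonneg _)
  have h2 : ∑ k ∈ Icc 5 7, 1 / (k.factorial : ℝ) * ((Us 58 a8)^[k] P58) 0 =
      1 / (5040 * (10 : ℝ) ^ 48) * ∑ i ∈ range 3, (num_v (5 + i) : ℝ) *
        (((10 : ℝ) ^ 6) ^ (5 + i + 1) * ((Us 58 a8)^[5 + i] P58) 0) *
          1000000 ^ (2 - i) := by
    have e1 : Icc 5 7 = (range 3).image (fun i => 5 + i) := by decide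
    rw [e1, sum_image (fun x _ y _ h => by simpa using h), mul_sum]
    apply sum_congr rfl
    intro i hi
    generalize ((Us 58 a8)^[5 + i] P58) 0 = x
    rw [mem_range] at hi
    interval_cases i <;> norm_num [num_v, Nat.factorial] <;> ring
  rw [h2]
  calc 1 / (5040 * (10 : ℝ) ^ 48) * _ ≤ 1 / (5040 * (10 : ℝ) ^ 48) * (7560 * 10 ^ 45) :=
        mul_le_mul_of_nonneg_left h1 (by positivity)
    _ ≤ 0.0015 := by norm_num

theorem p_num : S_num := ⟨num_A, num_B⟩

end Pool.Agent.CA.SV
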