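import Pool.Agent.Lib.MP_d610d0_nt.CA.SV.Stm

set_option autoImplicit false

/-!
Piece red of section SV: from characters to residue classes, in every window.
-/

namespace Pool.Agent.CA.SV

open Finset Filter
open Pool.Agent.MP89da58 (tri primChars)
open Pool.Agent.CH (zJ wJ wL Rough VV Wt dsum thP EE)
open Pool.Agent.CH.D (FL FT Sf R_grp R_cfs)

private lemma red_mem {R : ℕ} {p : Σ q, DirichletCharacter ℂ q} :
    p ∈ primChars R ↔ (2 ≤ p.1 ∧ p.1 ≤ R) ∧ p.2.IsPrimitive := by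
  classical
  rw [primChars, mem_sigma, mem_filter, mem_Icc]
  simp only [mem_univ, true_and]

private lemma red_step {R R' : ℕ} (h : R ≤ R') (g : (Σ q, DirichletCharacter ℂ q) → ℝ) :
    ∑ p ∈ primChars R', g p - ∑ p ∈ primChars R, g p =
      ∑ p ∈ primChars R', (if R < p.1 then g p else 0) := by
  classical
  have h1 : primChars R = (primChars R').filter (fun p => ¬ R < p.1) := by
    ext p
    rw [mem_filter, red_mem, red_mem]
    constructor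
    · rintro ⟨⟨h2, h3⟩, h4⟩
      exact ⟨⟨⟨h2, h3.trans h⟩, h4⟩, by omega⟩
    · rintro ⟨⟨⟨h2, _⟩, h4⟩, h5⟩
      exact ⟨⟨h2, by omega⟩, h4⟩
  rw [h1, sum_filter, ← sum_sub_distrib]
  apply sum_congr rfl
  intro p _
  by_cases hp : R < p.1
  · simp [hp]
  · simp [hp]

/-- the core estimate -/
private lemma red_core (S : (Σ q, DirichletCharacter ℂ q) → ℝ)
    (C : (Σ q, DirichletCharacter ℂ q) → ℝ) (K X1 X2 : ℝ) (R : ℕ → ℕ) (I : ℕ)
    (hK : 0 < K) (hX1 : 0 ≤ X1) (hX2 : 0 ≤ X2) (hS0 : ∀ p, 0 ≤ S p)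
    (hRm : ∀ i, R i ≤ R (i + 1)) (hR2 : ∀ i, R (i + 1) ≤ 2 * R i)
    (hC : ∀ p : (Σ q, DirichletCharacter ℂ q), 1 ≤ p.1 → C p ≤ K / p.1)
    (hS : ∀ p ∈ primChars (R 0), S p ≤ X1)
    (hL : ∀ i < I, ∑ p ∈ primChars (R (i + 1)), S p ≤ (R (i + 1) : ℝ) * X2) :
    ∑ p ∈ primChars (R I), C p * S p ≤ (R 0 : ℝ) ^ 2 * K * X1 + 2 * (I : ℝ) * K * X2 := by
  classical
  induction I with
  | zero =>
    have hcard : ((primChars (R 0)).card : ℝ) ≤ (R 0 : ℝ) ^ 2 := by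
      exact_mod_cast Pool.Agent.MP89da58.card_primChars (R 0)
    have h1 : ∑ p ∈ primChars (R 0), C p * S p ≤ ∑ p ∈ primChars (R 0), K * X1 := by
      apply sum_le_sum
      intro p hp
      have h2 : 2 ≤ p.1 := (red_mem.1 hp).1.1
      have h3 : (1 : ℝ) ≤ (p.1 : ℝ) := by exact_mod_cast (by omega : 1 ≤ p.1)
      have h4 : C p ≤ K := (hC p (by omega)).trans (div_le_self hK.le h3)
      calc C p * S p ≤ K * S p := mul_le_mul_of_nonneg_right h4 (hS0 p)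
        _ ≤ K * X1 := mul_le_mul_of_nonneg_left (hS p hp) hK.le
    rw [sum_const, nsmul_eq_mul] at h1
    have h2 : ((primChars (R 0)).card : ℝ) * (K * X1) ≤ (R 0 : ℝ) ^ 2 * (K * X1) :=
      mul_le_mul_of_nonneg_right hcard (by positivity)
    push_cast
    linarith
  | succ I ih =>
    have ih' := ih (fun i hi => hL i (by omega))
    have h1 := red_step (hRm I) (fun p => C p * S p)
    have h2 : ∑ p ∈ primChars (R (I + 1)), (if R I < p.1 then C p * S p else 0) ≤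
        2 * K * X2 := by
      rcases Nat.eq_zero_or_pos (R (I + 1)) with hR0 | hR0
      · have h3 : ∑ p ∈ primChars (R (I + 1)), (if R I < p.1 then C p * S p else 0) = 0 := by
          apply sum_eq_zero
          intro p hp
          have := (red_mem.1 hp).1
          omega
        rw [h3]
        positivity
      · have hR0' : (0 : ℝ) < (R (I + 1) : ℝ) := by exact_mod_cast hR0
        have h3 : ∀ p ∈ primChars (R (I + 1)), (if R I < p.1 then C p * S p else 0) ≤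
            2 * K / (R (I + 1) : ℝ) * S p := by
          intro p hp
          by_cases hp1 : R I < p.1
          · rw [if_pos hp1]
            apply mul_le_mul_of_nonneg_right _ (hS0 p)
            have hp0 : (0 : ℝ) < (p.1 : ℝ) := by exact_mod_cast (by omega : 0 < p.1)
            have h5 : (R (I + 1) : ℝ) ≤ 2 * (p.1 : ℝ) := by
              have h6 := hR2 I
              exact_mod_cast (by omega : R (I + 1) ≤ 2 * p.1)
            refine (hC p (by omega)).trans ?_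
            rw [div_le_div_iff₀ hp0 hR0']
            nlinarith
          · rw [if_neg hp1]
            have := hS0 p
            positivity
        calc ∑ p ∈ primChars (R (I + 1)), (if R I < p.1 then C p * S p else 0)
            ≤ ∑ p ∈ primChars (R (I + 1)), 2 * K / (R (I + 1) : ℝ) * S p := sum_le_sum h3
          _ = 2 * K / (R (I + 1) : ℝ) * ∑ p ∈ primChars (R (I + 1)), S p := by rw [mul_sum]
          _ ≤ 2 * K / (R (I + 1) : ℝ) * ((R (I + 1) : ℝ) * X2) :=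
              mul_le_mul_of_nonneg_left (hL I (by omega)) (by positivity)
          _ = 2 * K * X2 := by field_simp
    rw [← h1] at h2
    push_cast
    linarith

/-- the elementary estimate -/
private lemma red_num (A B : ℕ) (L K r I Z : ℝ) (hL : 10 ≤ L) (hZ : 0 ≤ Z) (hK0 : 0 ≤ K)
    (hK : K ≤ 800 * L ^ 3) (hr0 : 0 ≤ r) (hr : r ≤ 2 * L ^ B) (_ : 0 ≤ I) (hI : I ≤ 3 * L) :
    r ^ 2 * K * (Z / L ^ (A + 2 * B + 30)) + 2 * I * K * (Z / L ^ (A + 20)) ≤ Z / L ^ A := by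
  have hL0 : 0 < L := by linarith
  have h1 : r ^ 2 ≤ 4 * L ^ (2 * B) := by
    calc r ^ 2 ≤ (2 * L ^ B) ^ 2 := pow_le_pow_left₀ hr0 hr 2
      _ = 4 * L ^ (2 * B) := by rw [mul_pow, ← pow_mul, mul_comm B 2]; norm_num
  have h4 : (10 : ℝ) ^ 12 ≤ L ^ 12 := pow_le_pow_left₀ (by norm_num) hL 12
  have h5 : (10 : ℝ) ^ 24 ≤ L ^ 24 := pow_le_pow_left₀ (by norm_num) hL 24
  have e1 : r ^ 2 * K * (Z / L ^ (A + 2 * B + 30)) ≤
      4 * L ^ (2 * B) * (800 * L ^ 3) * (Z / L ^ (A + 2 * B + 30)) := by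
    gcongr
  have e2 : 2 * I * K * (Z / L ^ (A + 20)) ≤
      2 * (3 * L) * (800 * L ^ 3) * (Z / L ^ (A + 20)) := by
    gcongr
  have e3 : 4 * L ^ (2 * B) * (800 * L ^ 3) * (Z / L ^ (A + 2 * B + 30)) =
      3200 / L ^ 27 * (Z / L ^ A) := by
    have : L ^ (A + 2 * B + 30) = L ^ A * L ^ (2 * B) * L ^ 3 * L ^ 27 := by
      rw [← pow_add, ← pow_add, ← pow_add]
    rw [this]
    field_simp
    ring
  have e4 : 2 * (3 * L) * (800 * L ^ 3) * (Z / L ^ (A + 20)) =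
      4800 / L ^ 16 * (Z / L ^ A) := by
    have : L ^ (A + 20) = L ^ A * L * L ^ 3 * L ^ 16 := by
      rw [← pow_succ, ← pow_add, ← pow_add]
    rw [this]
    field_simp
    ring
  have h6 : L ^ 12 ≤ L ^ 16 := pow_le_pow_right₀ (by linarith) (by norm_num)
  have h7 : L ^ 24 ≤ L ^ 27 := pow_le_pow_right₀ (by linarith) (by norm_num)
  have e5 : 3200 / L ^ 27 ≤ 1 / 2 := by
    rw [div_le_iff₀ (by positivity)]
    nlinarith only [h5, h7]
  have e6 : 4800 / L ^ 16 ≤ 1 / 2 := by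
    rw [div_le_iff₀ (by positivity)]
    nlinarith only [h4, h6]
  have hZA : 0 ≤ Z / L ^ A := by positivity
  have e7 := mul_le_mul_of_nonneg_right e5 hZA
  have e8 := mul_le_mul_of_nonneg_right e6 hZA
  linarith

/-- the characters -/
private lemma red_C (hcfs : R_cfs) {z Q : ℝ} {c : ℕ → ℝ} {J : ℕ} (hW : Wt z Q c) (hJ : 2 ≤ J)
    (a : ℤ) (p : Σ q, DirichletCharacter ℂ q) :
    (1 ≤ p.1 → ‖p.2⁻¹ (a : ZMod p.1) *
      ((∑ q ∈ (Icc 1 J).filter (fun q => p.1 ∣ q), c q / Nat.totient q : ℝ) : ℂ)‖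
        ≤ 100 * (Real.log J + 1) ^ 3 / p.1) ∧
    (Q < p.1 → 1 ≤ p.1 → p.2⁻¹ (a : ZMod p.1) *
      ((∑ q ∈ (Icc 1 J).filter (fun q => p.1 ∣ q), c q / Nat.totient q : ℝ) : ℂ) = 0) := by
  constructor
  · intro hp
    rw [norm_mul, Complex.norm_real, Real.norm_eq_abs]
    have h1 := (hcfs z Q c J p.1 hW hJ hp).1
    have h2 : ‖p.2⁻¹ (a : ZMod p.1)‖ ≤ 1 := DirichletCharacter.norm_le_one _ _
    calc ‖p.2⁻¹ (a : ZMod p.1)‖ *
          |∑ q ∈ (Icc 1 J).filter (fun q => p.1 ∣ q), c q / Nat.totient q|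
        ≤ 1 * (100 * (Real.log J + 1) ^ 3 / p.1) :=
          mul_le_mul h2 h1 (abs_nonneg _) zero_le_one
      _ = _ := one_mul _
  · intro hQ hp
    rw [(hcfs z Q c J p.1 hW hJ hp).2 hQ, Complex.ofReal_zero, mul_zero]

/-- coprimality -/
private lemma red_cop {z Q : ℝ} {c : ℕ → ℝ} (hW : Wt z Q c) {a : ℤ} (ha : a = 2 ∨ a = -2)
    {q : ℕ} (hq : c q ≠ 0) : IsCoprime a (q : ℤ) ∧ ∀ n, Rough z n → n.Coprime q := by
  constructor
  · obtain ⟨k, hk⟩ := hW.odd q hq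
    rw [hk]
    rcases ha with rfl | rfl
    · exact ⟨-(k : ℤ), 1, by push_cast; ring⟩
    · exact ⟨(k : ℤ), 1, by push_cast; ring⟩
  · intro n hn
    by_contra hc
    obtain ⟨p, hp, hpn, hpq⟩ := Nat.Prime.not_coprime_iff_dvd.1 hc
    exact absurd (hW.small q hq p hp hpq) (not_lt.2 (hn p hp hpn))

/-- `s ^ (999/1000) ≤ J ^ (4998/10000)` for `s = ⌊√J⌋` -/
private lemma red_level {J : ℕ} (hJ : 1 ≤ J) :
    (Nat.sqrt J : ℝ) ^ (999 / 1000 : ℝ) ≤ (J : ℝ) ^ (4998 / 10000 : ℝ) := by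
  have hJ1 : (1 : ℝ) ≤ (J : ℝ) := by exact_mod_cast hJ
  have h1 : (Nat.sqrt J : ℝ) ≤ (J : ℝ) ^ (1 / 2 : ℝ) := by
    rw [← Real.sqrt_eq_rpow]
    exact Real.nat_sqrt_le_real_sqrt
  calc (Nat.sqrt J : ℝ) ^ (999 / 1000 : ℝ) ≤ ((J : ℝ) ^ (1 / 2 : ℝ)) ^ (999 / 1000 : ℝ) :=
        Real.rpow_le_rpow (Nat.cast_nonneg _) h1 (by norm_num)
    _ = (J : ℝ) ^ (1 / 2 * (999 / 1000) : ℝ) := (Real.rpow_mul (by linarith) _ _).symm
    _ ≤ (J : ℝ) ^ (4998 / 10000 : ℝ) :=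
        Real.rpow_le_rpow_of_exponent_le hJ1 (by norm_num)

/-- lower bound for the level -/
private lemma red_lower (B : ℕ) : ∀ᶠ J : ℕ in atTop,
    (Real.log J) ^ B + 1 ≤ (Nat.sqrt J : ℝ) ^ (999 / 1000 : ℝ) := by
  have h1 : Tendsto (fun x : ℝ => x ^ (3 / 10 : ℝ)) atTop atTop :=
    tendsto_rpow_atTop (by norm_num)
  have h2 : ∀ᶠ x : ℝ in atTop, Real.log x ^ (B : ℝ) ≤ 1 / 2 * x ^ (3 / 10 : ℝ) := by
    have h3 := (isLittleO_log_rpow_rpow_atTop (B : ℝ)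
      (by norm_num : (0 : ℝ) < 3 / 10)).bound (by norm_num : (0 : ℝ) < 1 / 2)
    filter_upwards [h3, eventually_ge_atTop 1] with x hx hx1
    have h4 : 0 ≤ Real.log x ^ (B : ℝ) := Real.rpow_nonneg (Real.log_nonneg hx1) _
    have h5 : 0 ≤ x ^ (3 / 10 : ℝ) := Real.rpow_nonneg (by linarith) _
    rwa [Real.norm_of_nonneg h4, Real.norm_of_nonneg h5] at hx
  have h6 : ∀ᶠ x : ℝ in atTop, Real.log x ^ B + 1 ≤ x ^ (3 / 10 : ℝ) := by
    filter_upwards [h2, h1.eventually_ge_atTop 2] with x hx hx2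
    rw [Real.rpow_natCast] at hx
    linarith
  have h7 : ∀ᶠ J : ℕ in atTop, (4 : ℝ) ≤ (J : ℝ) ^ (1 / 6 : ℝ) := by
    have : Tendsto (fun x : ℝ => x ^ (1 / 6 : ℝ)) atTop atTop :=
      tendsto_rpow_atTop (by norm_num)
    exact tendsto_natCast_atTop_atTop.eventually (this.eventually_ge_atTop 4)
  filter_upwards [tendsto_natCast_atTop_atTop.eventually h6, h7, eventually_ge_atTop 4]
    with J hJ h7 hJ4
  refine hJ.trans ?_
  have hJ0 : (0 : ℝ) < (J : ℝ) := by exact_mod_cast (by omega : 0 < J)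
  have h8 : J < (Nat.sqrt J + 1) * (Nat.sqrt J + 1) := Nat.lt_succ_sqrt J
  have h9 : 2 ≤ Nat.sqrt J := Nat.le_sqrt.2 (by omega)
  have h10 : J ≤ (2 * Nat.sqrt J) ^ 2 := by nlinarith
  have h11 : (J : ℝ) ≤ (2 * (Nat.sqrt J : ℝ)) ^ 2 := by exact_mod_cast h10
  have h12 : (0 : ℝ) ≤ 2 * (Nat.sqrt J : ℝ) := by positivity
  have h13 : (J : ℝ) ^ (1 / 2 : ℝ) ≤ 2 * (Nat.sqrt J : ℝ) := by
    calc (J : ℝ) ^ (1 / 2 : ℝ) ≤ ((2 * (Nat.sqrt J : ℝ)) ^ 2) ^ (1 / 2 : ℝ) :=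
          Real.rpow_le_rpow hJ0.le h11 (by norm_num)
      _ = 2 * (Nat.sqrt J : ℝ) := by
          rw [← Real.rpow_natCast, ← Real.rpow_mul h12]; norm_num
  have h14 : (J : ℝ) ^ (1 / 3 : ℝ) ≤ (Nat.sqrt J : ℝ) := by
    have h15 : (J : ℝ) ^ (1 / 2 : ℝ) = (J : ℝ) ^ (1 / 3 : ℝ) * (J : ℝ) ^ (1 / 6 : ℝ) := by
      rw [← Real.rpow_add hJ0]; norm_num
    have h16 : 0 ≤ (J : ℝ) ^ (1 / 3 : ℝ) := by positivity
    nlinarith
  have hJ1 : (1 : ℝ) ≤ (J : ℝ) := by exact_mod_cast (by omega : 1 ≤ J)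
  calc (J : ℝ) ^ (3 / 10 : ℝ) ≤ (J : ℝ) ^ (1 / 3 * (999 / 1000) : ℝ) :=
        Real.rpow_le_rpow_of_exponent_le hJ1 (by norm_num)
    _ = ((J : ℝ) ^ (1 / 3 : ℝ)) ^ (999 / 1000 : ℝ) := Real.rpow_mul hJ0.le _ _
    _ ≤ (Nat.sqrt J : ℝ) ^ (999 / 1000 : ℝ) :=
        Real.rpow_le_rpow (by positivity) h14 (by norm_num)

theorem p_red : S_red := by
  classical
  intro hgrp hcfs F hLC hSC hrough a ha A
  obtain ⟨B, hB⟩ := hLC (A + 20)
  have hS1 := hSC (A + 2 * B + 30) (B + 1)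
  have hlog : Tendsto (fun J : ℕ => Real.log (J : ℝ)) atTop atTop :=
    Real.tendsto_log_atTop.comp tendsto_natCast_atTop_atTop
  filter_upwards [hB, hS1, hrough, red_lower B, hlog.eventually_ge_atTop 10,
    eventually_ge_atTop 4] with J hBJ hSJ hrJ hYJ hL hJ4 c hW j hj
  obtain ⟨L, hLdef⟩ : ∃ L : ℝ, L = Real.log J := ⟨_, rfl⟩
  obtain ⟨s, hsdef⟩ : ∃ s : ℕ, s = Nat.sqrt J := ⟨_, rfl⟩
  have hs2 : 2 ≤ s := by rw [hsdef]; exact Nat.le_sqrt.2 (by omega)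
  have hsJ : s ≤ J := by rw [hsdef]; exact Nat.sqrt_le_self J
  rw [← hsdef] at hYJ hW ⊢
  obtain ⟨Y, hYdef⟩ : ∃ Y : ℝ, Y = (s : ℝ) ^ (999 / 1000 : ℝ) := ⟨_, rfl⟩
  have hYlev : Y ≤ (J : ℝ) ^ (4998 / 10000 : ℝ) := by
    rw [hYdef, hsdef]
    exact red_level (by omega)
  rw [← hLdef] at hBJ hYJ
  rw [← hLdef] at hSJ hL ⊢
  rw [← hYdef] at hW hYJ
  have hJ0 : (0 : ℝ) < (J : ℝ) := by exact_mod_cast (by omega : 0 < J)
  have hs1 : (1 : ℝ) ≤ (s : ℝ) := by exact_mod_cast (by omega : 1 ≤ s)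
  have hY0 : 0 ≤ Y := by rw [hYdef]; positivity
  have hYs : Y ≤ s := by
    rw [hYdef]
    calc (s : ℝ) ^ (999 / 1000 : ℝ) ≤ (s : ℝ) ^ (1 : ℝ) :=
          Real.rpow_le_rpow_of_exponent_le hs1 (by norm_num)
      _ = s := Real.rpow_one _
  obtain ⟨Y0, hY0def⟩ : ∃ Y0 : ℕ, Y0 = ⌊Y⌋₊ := ⟨_, rfl⟩
  have hY0le : (Y0 : ℝ) ≤ Y := by rw [hY0def]; exact Nat.floor_le hY0
  have hY0lt : Y < Y0 + 1 := by rw [hY0def]; exact Nat.lt_floor_add_one Y
  have hY0s : Y0 ≤ s := by exact_mod_cast hY0le.trans hYs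
  obtain ⟨R0, hR0def⟩ : ∃ R0 : ℕ, R0 = ⌈L ^ B⌉₊ := ⟨_, rfl⟩
  have hLB1 : 1 ≤ L ^ B := one_le_pow₀ (by linarith)
  have hR0ge : L ^ B ≤ R0 := by rw [hR0def]; exact Nat.le_ceil _
  have hR0lt : (R0 : ℝ) < L ^ B + 1 := by rw [hR0def]; exact Nat.ceil_lt_add_one (by positivity)
  have hR0pos : 0 < R0 := by
    have : (0 : ℝ) < R0 := by linarith
    exact_mod_cast this
  have hY0B : L ^ B ≤ Y0 := by linarith
  obtain ⟨R, hRdef⟩ : ∃ R : ℕ → ℕ, R = fun i => min (2 ^ i * R0) Y0 := ⟨_, rfl⟩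
  have hR : ∀ i, R i = min (2 ^ i * R0) Y0 := fun i => by rw [hRdef]
  obtain ⟨I, hIdef⟩ : ∃ I : ℕ, I = ⌈2 * L⌉₊ := ⟨_, rfl⟩
  have hIle : (I : ℝ) ≤ 3 * L := by
    have : (I : ℝ) < 2 * L + 1 := by rw [hIdef]; exact Nat.ceil_lt_add_one (by linarith)
    linarith
  have hRI : R I = Y0 := by
    rw [hR]
    apply min_eq_right
    have h1 : 2 * L ≤ I := by rw [hIdef]; exact Nat.le_ceil _
    have h2 : (J : ℝ) ≤ 2 ^ I := by
      have h3 : Real.log J ≤ Real.log (2 ^ I) := by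
        rw [Real.log_pow, ← hLdef]
        have h4 : (0.5 : ℝ) < Real.log 2 := by linarith [Real.log_two_gt_d9]
        nlinarith
      exact (Real.log_le_log_iff hJ0 (by positivity)).1 h3
    have h5 : J ≤ 2 ^ I := by exact_mod_cast h2
    calc Y0 ≤ s := hY0s
      _ ≤ J := hsJ
      _ ≤ 2 ^ I := h5
      _ = 2 ^ I * 1 := (mul_one _).symm
      _ ≤ 2 ^ I * R0 := Nat.mul_le_mul_left _ hR0pos
  have hRB : ∀ i, L ^ B ≤ (R i : ℝ) := by
    intro i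
    rw [hR]
    push_cast
    apply le_min
    · calc L ^ B ≤ R0 := hR0ge
        _ = 1 * (R0 : ℝ) := (one_mul _).symm
        _ ≤ 2 ^ i * (R0 : ℝ) := mul_le_mul_of_nonneg_right (one_le_pow₀ (by norm_num))
            (Nat.cast_nonneg _)
    · exact hY0B
  have hRY : ∀ i, (R i : ℝ) ≤ Y := by
    intro i
    refine le_trans ?_ hY0le
    rw [hR]
    exact_mod_cast min_le_right _ _
  have hR0' : (R 0 : ℝ) ≤ 2 * L ^ B := by
    have h1 : (R 0 : ℝ) ≤ R0 := by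
      rw [hR, pow_zero, one_mul]
      exact_mod_cast min_le_left _ _
    linarith
  obtain ⟨K, hKdef⟩ : ∃ K : ℝ, K = 100 * (L + 1) ^ 3 := ⟨_, rfl⟩
  have hK0 : 0 < K := by rw [hKdef]; positivity
  have hK8 : K ≤ 800 * L ^ 3 := by
    rw [hKdef]
    have : (L + 1) ^ 3 ≤ (2 * L) ^ 3 := pow_le_pow_left₀ (by linarith) (by linarith) 3
    calc 100 * (L + 1) ^ 3 ≤ 100 * (2 * L) ^ 3 := by linarith
      _ = 800 * L ^ 3 := by ring
  obtain ⟨C, hCdef⟩ : ∃ C : (Σ q, DirichletCharacter ℂ q) → ℂ, C = fun p =>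
      p.2⁻¹ (a : ZMod p.1) *
      ((∑ q ∈ (Icc 1 s).filter (fun q => p.1 ∣ q), c q / Nat.totient q : ℝ) : ℂ) := ⟨_, rfl⟩
  have hCv : ∀ p, C p = p.2⁻¹ (a : ZMod p.1) *
      ((∑ q ∈ (Icc 1 s).filter (fun q => p.1 ∣ q), c q / Nat.totient q : ℝ) : ℂ) := fun p => by
    rw [hCdef]
  have hC : ∀ p : (Σ q, DirichletCharacter ℂ q), 1 ≤ p.1 → ‖C p‖ ≤ K / p.1 := by
    intro p hp
    rw [hCv]
    refine ((red_C hcfs hW hs2 a p).1 hp).trans ?_
    rw [hKdef, hLdef]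
    apply div_le_div_of_nonneg_right _ (Nat.cast_nonneg _)
    have h1 : Real.log s ≤ Real.log J :=
      Real.log_le_log (by linarith) (by exact_mod_cast hsJ)
    have h2 : 0 ≤ Real.log s := Real.log_nonneg hs1
    have := pow_le_pow_left₀ (show 0 ≤ Real.log s + 1 by linarith)
      (show Real.log s + 1 ≤ Real.log J + 1 by linarith) 3
    linarith
  have hC0 : ∀ p : (Σ q, DirichletCharacter ℂ q), Y0 < p.1 → C p = 0 := by
    intro p hp
    rw [hCv]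
    refine (red_C hcfs hW hs2 a p).2 ?_ (by omega)
    have : ((Y0 : ℝ) + 1) ≤ p.1 := by exact_mod_cast hp
    linarith
  have hcore := red_core (fun p => ‖Sf (F J) J j p.2‖) (fun p => ‖C p‖) K
    ((J : ℝ) ^ 2 / L ^ (A + 2 * B + 30)) ((J : ℝ) ^ 2 / L ^ (A + 20)) R I hK0 (by positivity)
    (by positivity) (fun p => norm_nonneg _)
    (by
      intro i
      rw [hR, hR]
      apply min_le_min _ le_rfl
      exact Nat.mul_le_mul_right _ (Nat.pow_le_pow_right (by norm_num) (Nat.le_succ i)))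
    (by
      intro i
      rw [hR, hR]
      have : 2 ^ (i + 1) * R0 = 2 * (2 ^ i * R0) := by ring
      rw [this]
      omega)
    hC
    (by
      intro p hp
      obtain ⟨⟨h1, h2⟩, h3⟩ := red_mem.1 hp
      refine hSJ p.1 p.2 h1 ?_ h3 j hj
      have h4 : (p.1 : ℝ) ≤ R 0 := by exact_mod_cast h2
      have h5 : L ^ (B + 1) = L * L ^ B := by ring
      have h6 : 2 * L ^ B ≤ L * L ^ B :=
        mul_le_mul_of_nonneg_right (by linarith) (by positivity)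
      linarith)
    (by
      intro i _
      have h1 := hBJ (R (i + 1)) (hRB _) ((hRY _).trans hYlev) j hj
      rw [mul_div_assoc] at h1
      exact h1)
  have hnum := red_num A B L K (R 0 : ℝ) (I : ℝ) ((J : ℝ) ^ 2) hL (by positivity) hK0.le hK8
    (Nat.cast_nonneg _) hR0' (Nat.cast_nonneg _) hIle
  refine le_trans ?_ (hcore.trans hnum)
  have hcop : ∀ q ∈ Icc 1 s, c q ≠ 0 → IsCoprime a (q : ℤ) ∧
      ∀ n, 1 ≤ n → F J n ≠ 0 → wJ J j n ≠ 0 → n.Coprime q := by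
    intro q _ hq
    obtain ⟨h1, h2⟩ := red_cop hW ha hq
    exact ⟨h1, fun n hn hFn hwn => h2 n (hrJ j hj n hn hFn hwn)⟩
  have h1 := hgrp J j s (F J) c a hcop
  have h2 : |∑ q ∈ Icc 1 s, c q * EE J (F J) a j q| =
      ‖((∑ q ∈ Icc 1 s, c q * EE J (F J) a j q : ℝ) : ℂ)‖ := by
    rw [Complex.norm_real, Real.norm_eq_abs]
  rw [h2, h1, hRI]
  have h3 : ∀ p ∈ primChars s, ‖p.2⁻¹ (a : ZMod p.1) *
      ((∑ q ∈ (Icc 1 s).filter (fun q => p.1 ∣ q), c q / Nat.totient q : ℝ) : ℂ) *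
        Sf (F J) J j p.2‖ = ‖C p‖ * ‖Sf (F J) J j p.2‖ := by
    intro p _
    rw [norm_mul, hCv]
  refine (norm_sum_le _ _).trans ?_
  rw [sum_congr rfl h3]
  have h4 := red_step hY0s (fun p => ‖C p‖ * ‖Sf (F J) J j p.2‖)
  have h5 : ∑ p ∈ primChars s, (if Y0 < p.1 then ‖C p‖ * ‖Sf (F J) J j p.2‖ else 0) = 0 := by
    apply sum_eq_zero
    intro p _
    by_cases hp : Y0 < p.1
    · rw [if_pos hp, hC0 p hp, norm_zero, zero_mul]
    · rw [if_neg hp]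
  rw [h5, sub_eq_zero] at h4
  exact h4.le

end Pool.Agent.CA.SV
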