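import Pool.Agent.Lib.MP_d610d0_nt.CA.SV.Stm

set_option autoImplicit false

/-!
Project CA, section SV, piece rr: pointwise properties of the switched sequence.
-/

namespace Pool.Agent.CA.SV

open Finset Filter
open scoped ArithmeticFunction.Omega
open Pool.Agent.CH (zJ wJ wL Rough VV Wt dsum thP EE)
open Pool.Agent.CH.F (mu SW)

private theorem rr_nonneg (k J n : ℕ) : 0 ≤ Bk k J n / (k.factorial : ℝ) := by
  unfold Bk bx
  positivity

private theorem rr_rough (k J n : ℕ) (h : Bk k J n / (k.factorial : ℝ) ≠ 0) : Rough (zc J) n := by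
  classical
  have h0 : Bk k J n ≠ 0 := by
    intro h1
    rw [h1, zero_div] at h
    exact h rfl
  unfold Bk bx at h0
  rw [Nat.cast_ne_zero, Finset.card_ne_zero] at h0
  obtain ⟨q, hq⟩ := h0
  rw [Finset.mem_filter, Fintype.mem_piFinset] at hq
  obtain ⟨hq1, hq2⟩ := hq
  intro p hp hpn
  rw [← hq2] at hpn
  obtain ⟨i, -, hi⟩ := (Prime.dvd_finsetProd_iff hp.prime _).1 hpn
  have h3 := hq1 i
  rw [Finset.mem_filter] at h3
  have he : p = q i := (Nat.prime_dvd_prime_iff_eq hp h3.2.1).1 hi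
  rw [he]
  exact h3.2.2.1

private theorem rr_get (l : List ℕ) : ∏ i : Fin l.length, l.get i = l.prod :=
  Fin.prod_univ_getElem l

private theorem rr_perm (J n : ℕ) (hn : n ≠ 0) (hs : Squarefree n) (hr : Rough (zc J) n)
    (hY : ∀ m : ℕ, m.Prime → m ∣ n → (m : ℝ) ≤ Yc J) :
    1 ≤ Bk (n.primeFactorsList.length) J n / (n.primeFactorsList.length.factorial : ℝ) := by
  classical
  have hnd : n.primeFactorsList.Nodup := (Nat.squarefree_iff_nodup_primeFactorsList hn).1 hs
  rw [le_div_iff₀ (by positivity), one_mul]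
  unfold Bk bx
  rw [Nat.cast_le]
  have h1 : (Finset.univ : Finset (Equiv.Perm (Fin n.primeFactorsList.length))).card
      = (n.primeFactorsList.length).factorial := by
    rw [Finset.card_univ, Fintype.card_perm, Fintype.card_fin]
  rw [← h1]
  apply Finset.card_le_card_of_injOn (fun σ => fun i => n.primeFactorsList.get (σ i))
  · intro σ _
    rw [Finset.mem_coe, Finset.mem_filter, Fintype.mem_piFinset]
    refine ⟨fun i => ?_, ?_⟩
    · rw [Finset.mem_filter, Finset.mem_range]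
      have hm : n.primeFactorsList.get (σ i) ∈ n.primeFactorsList := List.get_mem _ _
      have hp := Nat.prime_of_mem_primeFactorsList hm
      have hd := Nat.dvd_of_mem_primeFactorsList hm
      exact ⟨Nat.lt_succ_of_le (Nat.le_of_dvd (Nat.pos_of_ne_zero hn) hd), hp, hr _ hp hd,
        hY _ hp hd⟩
    · show ∏ i, n.primeFactorsList.get (σ i) = n
      rw [Equiv.prod_comp σ (fun i => n.primeFactorsList.get i), rr_get,
        Nat.prod_primeFactorsList hn]
  · intro σ _ τ _ hst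
    apply Equiv.ext
    intro i
    have h2 := congrFun hst i
    exact (List.nodup_iff_injective_get.1 hnd) h2

private theorem rr_len (z : ℝ) (n : ℕ) (hz : 1 ≤ z) (hn : n ≠ 0) (hr : Rough z n)
    (hlt : (n : ℝ) < z ^ 16) : n.primeFactorsList.length ≤ 15 := by
  by_contra hcon
  push Not at hcon
  have h1 : z ^ (n.primeFactorsList.length) ≤ (n : ℝ) := by
    have h2 : (n : ℝ) = ∏ i : Fin n.primeFactorsList.length, ((n.primeFactorsList.get i : ℕ) : ℝ) := by
      rw [← Nat.cast_prod, rr_get, Nat.prod_primeFactorsList hn]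
    have h3 : ∏ _i : Fin n.primeFactorsList.length, z
        ≤ ∏ i : Fin n.primeFactorsList.length, ((n.primeFactorsList.get i : ℕ) : ℝ) := by
      apply Finset.prod_le_prod
      · intro i _
        linarith
      · intro i _
        have hm : n.primeFactorsList.get i ∈ n.primeFactorsList := List.get_mem _ _
        exact hr _ (Nat.prime_of_mem_primeFactorsList hm) (Nat.dvd_of_mem_primeFactorsList hm)
    rw [Finset.prod_const, Finset.card_univ, Fintype.card_fin] at h3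
    rw [← h2] at h3
    exact h3
  have h4 : z ^ 16 ≤ z ^ (n.primeFactorsList.length) :=
    pow_le_pow_right₀ hz (by omega)
  linarith

private theorem rr_z (J : ℕ) (hJ : 16 ≤ J) : 1 ≤ zc J ∧ 27 * (J : ℝ) ^ 3 < (zc J) ^ 16 := by
  have hs1 : Nat.sqrt J * Nat.sqrt J ≤ J := Nat.sqrt_le J
  have hs2 : J < (Nat.sqrt J + 1) * (Nat.sqrt J + 1) := Nat.lt_succ_sqrt J
  set s := Nat.sqrt J with hs
  have hs4 : 4 ≤ s := by
    rw [hs, Nat.le_sqrt]; omega
  have hs3 : (J : ℝ) ≤ 2 * (s : ℝ) ^ 2 := by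
    have h1 : J ≤ 2 * s ^ 2 := by nlinarith
    exact_mod_cast h1
  have hsr : (4 : ℝ) ≤ s := by exact_mod_cast hs4
  have hbase : (1 : ℝ) ≤ 3 * (s : ℝ) := by linarith
  have hJr : (16 : ℝ) ≤ J := by exact_mod_cast hJ
  refine ⟨?_, ?_⟩
  · show 1 ≤ (3 * (s : ℝ)) ^ (3 / 8 : ℝ)
    exact Real.one_le_rpow hbase (by norm_num)
  · show 27 * (J : ℝ) ^ 3 < ((3 * (s : ℝ)) ^ (3 / 8 : ℝ)) ^ 16
    rw [← Real.rpow_natCast ((3 * (s : ℝ)) ^ (3 / 8 : ℝ)), ← Real.rpow_mul (by positivity)]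
    have e1 : (3 / 8 : ℝ) * ((16 : ℕ) : ℝ) = ((6 : ℕ) : ℝ) := by norm_num
    rw [e1, Real.rpow_natCast]
    have e2 : (3 * (s : ℝ)) ^ 6 = 729 * ((s : ℝ) ^ 2) ^ 3 := by ring
    rw [e2]
    have e3 : (J : ℝ) ^ 3 ≤ (2 * (s : ℝ) ^ 2) ^ 3 := pow_le_pow_left₀ (by positivity) hs3 3
    have e4 : (2 * (s : ℝ) ^ 2) ^ 3 = 8 * ((s : ℝ) ^ 2) ^ 3 := by ring
    rw [e4] at e3
    have e5 : (0 : ℝ) < ((s : ℝ) ^ 2) ^ 3 := by positivity
    linarith

theorem p_rr : S_rr := by
  filter_upwards [eventually_ge_atTop 16] with J hJ n hn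
  have hn0 : n ≠ 0 := by omega
  obtain ⟨hz1, hz2⟩ := rr_z J hJ
  refine ⟨?_, ?_, ?_⟩
  · exact Finset.sum_nonneg (fun k _ => rr_nonneg k J n)
  · intro h
    obtain ⟨k, -, hk⟩ := Finset.exists_ne_zero_of_sum_ne_zero h
    exact rr_rough k J n hk
  · intro hs hr hle ho hY
    rw [ArithmeticFunction.cardFactors_apply] at ho
    have hle' : (n : ℝ) ≤ 27 * (J : ℝ) ^ 3 := by exact_mod_cast hle
    have h7 := rr_len (zc J) n hz1 hn0 hr (lt_of_le_of_lt hle' hz2)
    have h1 := rr_perm J n hn0 hs hr hY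
    refine h1.trans ?_
    exact Finset.single_le_sum (f := fun k => Bk k J n / (k.factorial : ℝ))
      (fun k _ => rr_nonneg k J n) (Finset.mem_Icc.2 ⟨ho, h7⟩)

end Pool.Agent.CA.SV
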