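import Pool.Agent.Lib.MP_d610d0_nt.CA.SV.Stm
import Pool.Agent.Lib.MP_d610d0_nt.CH.F.P.rr

set_option autoImplicit false

/-!
Project CA, section SV, piece se: the sum over the cofactors.
-/

namespace Pool.Agent.CA.SV

open Finset Filter
open scoped ArithmeticFunction.Omega
open Pool.Agent.CH (zJ Rough Rk)
open Pool.Agent.CH.M2 (Sp TS S_tup1)
open Pool.Agent.CH.F (cf_rr_nonneg cf_rr_perm cf_rr_len)

/-- the size of `z` -/
lemma se_log {J : ℕ} (hs : 1 ≤ Nat.sqrt J) (hJ : 1 ≤ J) :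
    3 * Real.log J ≤ 16 * Real.log (zc J) := by
  have hs' : (1 : ℝ) ≤ (Nat.sqrt J : ℝ) := by exact_mod_cast hs
  have hJ' : (1 : ℝ) ≤ (J : ℝ) := by exact_mod_cast hJ
  have h1 : (J : ℝ) ≤ (3 * (Nat.sqrt J : ℝ)) ^ 2 := by
    have h2 : J < (Nat.sqrt J + 1) * (Nat.sqrt J + 1) := Nat.lt_succ_sqrt J
    have h3 : (J : ℝ) < ((Nat.sqrt J : ℝ) + 1) * ((Nat.sqrt J : ℝ) + 1) := by exact_mod_cast h2
    nlinarith
  have h4 : Real.log J ≤ 2 * Real.log (3 * (Nat.sqrt J : ℝ)) := by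
    have h5 := Real.log_le_log (by linarith) h1
    rw [Real.log_pow] at h5
    exact_mod_cast h5
  have h6 : Real.log (zc J) = 3 / 8 * Real.log (3 * (Nat.sqrt J : ℝ)) := by
    unfold zc zJ
    rw [Real.log_rpow (by positivity)]
  rw [h6]
  linarith

lemma se_facts : ∀ᶠ J : ℕ in atTop, 1 ≤ J ∧ 1000 ≤ Real.log J ∧
    3 * Real.log J ≤ 16 * Real.log (zc J) ∧ 0 < zc J := by
  filter_upwards [eventually_ge_atTop (⌈Real.exp 1000⌉₊ + 1)] with J hJ
  have hJ1 : 1 ≤ J := by omega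
  have hs : 1 ≤ Nat.sqrt J := Nat.le_sqrt.2 (by omega)
  have hJe : Real.exp 1000 ≤ J := by
    refine (Nat.le_ceil _).trans ?_
    exact_mod_cast (show ⌈Real.exp 1000⌉₊ ≤ J by omega)
  have hJ0 : (0 : ℝ) < J := lt_of_lt_of_le (Real.exp_pos _) hJe
  refine ⟨hJ1, (Real.le_log_iff_exp_le hJ0).mpr hJe, se_log hs hJ1, ?_⟩
  unfold zc zJ
  have : (1 : ℝ) ≤ (Nat.sqrt J : ℝ) := by exact_mod_cast hs
  positivity

/-- the sum over the tuples -/
lemma se_tuple {z X : ℝ} (hz : 0 < z) (hlz : 0 < Real.log z)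
    (hX2 : 8 * Real.log X < 58 * Real.log z) {N k : ℕ} (q : Fin k → ℕ)
    (hq : ∀ i, q i ∈ Sp z N) :
    (if ((∏ i, q i : ℕ) : ℝ) ≤ X then 1 / ((∏ i, q i : ℕ) : ℝ) else 0) ≤
      (∏ i, 1 / (q i : ℝ)) * P58 (∑ i, m8 z (q i)) := by
  have hp : ∀ i, (q i).Prime ∧ z ≤ (q i : ℝ) := fun i => by
    have h1 := hq i
    unfold Sp at h1
    exact (Finset.mem_filter.1 h1).2
  have hpos : ∀ i, (0 : ℝ) < (q i : ℝ) := fun i => by exact_mod_cast (hp i).1.pos
  split_ifs with h
  · have hprod : (0 : ℝ) < ((∏ i, q i : ℕ) : ℝ) := by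
      rw [Nat.cast_prod]
      exact Finset.prod_pos fun i _ => hpos i
    have h1 : ((∑ i, m8 z (q i) : ℕ) : ℝ) * Real.log z ≤ 8 * Real.log ((∏ i, q i : ℕ) : ℝ) := by
      rw [Nat.cast_prod, Real.log_prod (fun i _ => (hpos i).ne'), Nat.cast_sum, Finset.sum_mul,
        Finset.mul_sum]
      refine Finset.sum_le_sum fun i _ => ?_
      have h2 : 0 ≤ 8 * Real.log (q i) / Real.log z := by
        have h3 : Real.log z ≤ Real.log (q i) := Real.log_le_log hz (hp i).2
        have h4 : 0 ≤ Real.log (q i) := by linarith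
        positivity
      have h5 := Nat.floor_le h2
      rw [le_div_iff₀ hlz] at h5
      exact h5
    have h2 : Real.log ((∏ i, q i : ℕ) : ℝ) ≤ Real.log X := Real.log_le_log hprod h
    have h3 : ((∑ i, m8 z (q i) : ℕ) : ℝ) * Real.log z < 58 * Real.log z := by linarith
    have h4 : ((∑ i, m8 z (q i) : ℕ) : ℝ) < 58 := lt_of_mul_lt_mul_right h3 hlz.le
    have h5 : ∑ i, m8 z (q i) < 58 := by exact_mod_cast h4
    unfold P58
    rw [if_pos h5, mul_one, Nat.cast_prod, Finset.prod_div_distrib, Finset.prod_const_one]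
  · unfold P58
    have : 0 ≤ ∏ i, 1 / (q i : ℝ) := Finset.prod_nonneg fun i _ => by
      have := hpos i
      positivity
    split_ifs
    · linarith
    · simp

theorem p_se : S_se := by
  classical
  intro htup1 htup hcell hnum
  filter_upwards [se_facts, hcell] with J ⟨hJ1, hL, hz1, hz0⟩ hc
  have hJ0 : (0 : ℝ) < J := by exact_mod_cast hJ1
  set z : ℝ := zc J with hz
  set X : ℝ := 27 * (J : ℝ) ^ (27 / 20 : ℝ) with hX
  have hX0 : 0 < X := by positivity
  set N : ℕ := ⌊X⌋₊ with hN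
  have hlz : 0 < Real.log z := by linarith
  have h27 : Real.log 27 ≤ 4 := by
    rw [Real.log_le_iff_le_exp (by norm_num)]
    have h1 : (2.7 : ℝ) ≤ Real.exp 1 := by linarith [Real.exp_one_gt_d9]
    have h2 : (2.7 : ℝ) ^ 4 ≤ Real.exp 1 ^ 4 := pow_le_pow_left₀ (by norm_num) h1 4
    rw [← Real.exp_nat_mul] at h2
    have h3 : ((4 : ℕ) : ℝ) * 1 = 4 := by norm_num
    rw [h3] at h2
    refine le_trans ?_ h2
    norm_num
  have hlX : Real.log X = Real.log 27 + 27 / 20 * Real.log J := by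
    rw [hX, Real.log_mul (by norm_num) (by positivity), Real.log_rpow hJ0]
  have hX2 : 8 * Real.log X < 58 * Real.log z := by
    rw [hlX]
    linarith
  have hX3 : X < z ^ 8 := by
    rw [← Real.log_lt_log_iff hX0 (by positivity), Real.log_pow, hlX]
    push_cast
    linarith
  have hz2 : 2 < z := by
    have h1 : Real.log 2 < Real.log z := by
      have := Real.log_two_lt_d9
      linarith
    exact (Real.log_lt_log_iff (by norm_num) hz0).1 h1
  set h : ℕ → ℝ := fun n => if (n : ℝ) ≤ X then 1 / (n : ℝ) else 0 with hh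
  have hh0 : ∀ n, 0 ≤ h n := fun n => by
    simp only [hh]
    split_ifs
    · positivity
    · exact le_rfl
  -- the cofactors
  have h1 : ∀ e ∈ ES J, 1 / (e : ℝ) ≤ ∑ k ∈ Icc 5 7, Rk z k e * h e := by
    intro e he
    unfold ES at he
    rw [Finset.mem_filter, Finset.mem_Icc] at he
    obtain ⟨⟨he1, he2⟩, hsq, hr, ho⟩ := he
    have heX : (e : ℝ) ≤ X := (Nat.le_floor_iff hX0.le).1 he2
    have he0 : e ≠ 0 := by omega
    rw [ArithmeticFunction.cardFactors_apply] at ho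
    have h7 := cf_rr_len z e hz2 he0 hr (lt_of_le_of_lt heX hX3)
    have hp := cf_rr_perm z e he0 hsq hr
    have hhe : h e = 1 / (e : ℝ) := by
      simp only [hh]
      rw [if_pos heX]
    have h8 : Rk z (e.primeFactorsList.length) e * h e ≤ ∑ k ∈ Icc 5 7, Rk z k e * h e :=
      Finset.single_le_sum (f := fun k => Rk z k e * h e)
        (fun k _ => mul_nonneg (cf_rr_nonneg z k e) (hh0 e)) (Finset.mem_Icc.2 ⟨ho, h7⟩)
    refine le_trans ?_ h8
    rw [← hhe]
    exact le_mul_of_one_le_left (hh0 e) hp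
  have h2 : ∑ e ∈ ES J, 1 / (e : ℝ) ≤ ∑ k ∈ Icc 5 7, ∑ n ∈ Icc 1 N, Rk z k n * h n := by
    rw [Finset.sum_comm]
    refine (Finset.sum_le_sum h1).trans ?_
    refine Finset.sum_le_sum_of_subset_of_nonneg ?_ fun n _ _ =>
      Finset.sum_nonneg fun k _ => mul_nonneg (cf_rr_nonneg z k n) (hh0 n)
    intro e he
    unfold ES at he
    exact (Finset.mem_filter.1 he).1
  refine h2.trans ?_
  have h3 : ∀ k ∈ Icc 5 7, ∑ n ∈ Icc 1 N, Rk z k n * h n ≤
      1 / (k.factorial : ℝ) * ((Us 58 a8)^[k] P58) 0 := by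
    intro k _
    refine (htup1 z N k h hh0).trans ?_
    rw [div_eq_mul_one_div, mul_comm]
    refine mul_le_mul_of_nonneg_left ?_ (by positivity)
    have h4 : TS (Sp z N) k h ≤ ∑ q ∈ Fintype.piFinset (fun _ : Fin k => Sp z N),
        (∏ i, (fun p : ℕ => 1 / (p : ℝ)) (q i)) * P58 (∑ i, m8 z (q i)) := by
      unfold TS
      refine Finset.sum_le_sum fun q hq => ?_
      exact se_tuple hz0 hlz hX2 q (Fintype.mem_piFinset.1 hq)
    refine h4.trans ?_
    refine htup 58 (Sp z N) (m8 z) (fun p => 1 / (p : ℝ)) a8 P58 k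
      (fun p _ => by positivity) (fun i => ?_) (fun i hi => ?_) (fun i hi => ?_)
    · unfold P58
      split_ifs
      · exact zero_le_one
      · exact le_rfl
    · unfold P58
      rw [if_neg (by omega)]
    · exact hc N i (by omega)
  exact (Finset.sum_le_sum h3).trans hnum.2

end Pool.Agent.CA.SV
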