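import Pool.Agent.Lib.MP_d610d0_nt.CA.SV.Stm
import Pool.Agent.Lib.MP_d610d0_nt.Avg

set_option autoImplicit false

/-!
Piece sel: Selberg's sieve in orthogonal form for arbitrary residue classes.
-/

namespace Pool.Agent.CA.SV

open Finset Filter
open Pool.Agent.Lib.MP_d610d0_nt (APW Per avg ind)

/-- `psi p t` is `-1` on the forbidden classes and `g p` otherwise. -/
noncomputable def sel_psi (C : ℕ → Finset ℕ) (p t : ℕ) : ℝ := if t % p ∈ C p then -1 else gs C p

/-- The product over the primes of `r`. -/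
noncomputable def sel_psiR (C : ℕ → Finset ℕ) (r t : ℕ) : ℝ := ∏ p ∈ r.primeFactors, sel_psi C p t

theorem sel_ind_sum (S : Finset ℕ) (p t : ℕ) :
    ∑ a ∈ S, ind p a t = if t % p ∈ S then 1 else 0 := by
  unfold Pool.Agent.Lib.MP_d610d0_nt.ind
  rw [Finset.sum_ite_eq]

theorem sel_psi_eq (C : ℕ → Finset ℕ) (p t : ℕ) :
    sel_psi C p t = gs C p - (1 + gs C p) * ∑ a ∈ C p, ind p a t := by
  rw [sel_ind_sum]
  unfold sel_psi
  split_ifs <;> ring

theorem sel_psi_per (C : ℕ → Finset ℕ) (p : ℕ) : Per p (sel_psi C p) := by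
  intro t
  unfold sel_psi
  rw [Nat.add_mod_right]

theorem sel_sum_range {p : ℕ} {S : Finset ℕ} (hS : ∀ a ∈ S, a < p) :
    ∑ t ∈ range p, ∑ a ∈ S, ind p a t = (S.card : ℝ) := by
  have h1 : ∑ t ∈ range p, ∑ a ∈ S, ind p a t = ∑ t ∈ range p, if t ∈ S then (1 : ℝ) else 0 := by
    refine Finset.sum_congr rfl fun t ht => ?_
    rw [sel_ind_sum, Nat.mod_eq_of_lt (Finset.mem_range.1 ht)]
  rw [h1, ← Finset.sum_filter, Finset.sum_const, nsmul_eq_mul, mul_one]
  congr 2
  ext t
  rw [Finset.mem_filter, Finset.mem_range]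
  exact ⟨fun h => h.2, fun h => ⟨hS t h, h⟩⟩

theorem sel_gs_nonneg {C : ℕ → Finset ℕ} {p : ℕ} (hc : (C p).card < p) : 0 ≤ gs C p := by
  unfold gs
  have h1 : ((C p).card : ℝ) < p := by exact_mod_cast hc
  exact div_nonneg (Nat.cast_nonneg _) (by linarith)

theorem sel_psi_APW {C : ℕ → Finset ℕ} {p : ℕ} (ha : ∀ a ∈ C p, a < p) (hc : (C p).card < p) :
    APW (sel_psi C p) (gs C p * ((p : ℝ) + 1)) := by
  have h1 := APW.const (gs C p)
  have h2 := (APW.sum (C p) (fun a t => ind p a t) (fun _ => 1)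
    (fun a h => APW.indicator (ha a h))).smul (-(1 + gs C p))
  have h3 := (h1.add h2).congr (g := sel_psi C p) (fun t => by rw [sel_psi_eq]; ring)
  refine h3.mono (le_of_eq ?_)
  have h4 := sel_gs_nonneg hc
  rw [abs_of_nonneg h4, abs_neg, abs_of_nonneg (by linarith), Finset.sum_const, nsmul_eq_mul,
    mul_one]
  have h1 : ((C p).card : ℝ) < p := by exact_mod_cast hc
  have h6 : (p : ℝ) - (C p).card ≠ 0 := by linarith
  unfold gs
  field_simp
  ring

theorem sel_avg_psi {C : ℕ → Finset ℕ} {p : ℕ} (ha : ∀ a ∈ C p, a < p) (hc : (C p).card < p) :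
    avg p (sel_psi C p) = 0 := by
  have h1 : ((C p).card : ℝ) < p := by exact_mod_cast hc
  have h6 : (p : ℝ) - (C p).card ≠ 0 := by linarith
  have h2 : ∑ t ∈ range p, sel_psi C p t = 0 := by
    simp_rw [sel_psi_eq]
    rw [Finset.sum_sub_distrib, ← Finset.mul_sum, sel_sum_range ha]
    rw [Finset.sum_const, Finset.card_range, nsmul_eq_mul]
    unfold gs
    field_simp
    ring
  unfold Pool.Agent.Lib.MP_d610d0_nt.avg
  rw [h2, zero_div]

theorem sel_avg_psi_sq {C : ℕ → Finset ℕ} {p : ℕ} (ha : ∀ a ∈ C p, a < p)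
    (hc : (C p).card < p) :
    avg p (fun t => sel_psi C p t * sel_psi C p t) = gs C p := by
  have h1 : ((C p).card : ℝ) < p := by exact_mod_cast hc
  have h6 : (p : ℝ) - (C p).card ≠ 0 := by linarith
  have h7 : (p : ℝ) ≠ 0 := by
    have : (0 : ℝ) ≤ ((C p).card : ℝ) := Nat.cast_nonneg _
    linarith
  have e : ∀ t, sel_psi C p t * sel_psi C p t =
      gs C p ^ 2 + (1 - gs C p ^ 2) * ∑ a ∈ C p, ind p a t := by
    intro t
    rw [sel_ind_sum]
    unfold sel_psi
    split_ifs <;> ring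
  unfold Pool.Agent.Lib.MP_d610d0_nt.avg
  simp_rw [e]
  rw [Finset.sum_add_distrib, ← Finset.mul_sum, sel_sum_range ha, Finset.sum_const,
    Finset.card_range, nsmul_eq_mul]
  unfold gs
  field_simp
  ring

theorem sel_avg_prod (H : ℕ → ℕ → ℝ) (P : Finset ℕ) :
    (∀ p ∈ P, p.Prime) → (∀ p ∈ P, Per p (H p)) →
    Per (∏ p ∈ P, p) (fun t => ∏ p ∈ P, H p t) ∧
      avg (∏ p ∈ P, p) (fun t => ∏ p ∈ P, H p t) = ∏ p ∈ P, avg p (H p) := by
  induction P using Finset.induction_on with
  | empty =>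
    intro _ _
    refine ⟨fun t => rfl, ?_⟩
    unfold Pool.Agent.Lib.MP_d610d0_nt.avg
    simp
  | insert q P hq ih =>
    intro hP hH
    obtain ⟨h1, h2⟩ := ih (fun p hp => hP p (Finset.mem_insert_of_mem hp))
      (fun p hp => hH p (Finset.mem_insert_of_mem hp))
    have hqp : q.Prime := hP q (Finset.mem_insert_self _ _)
    have hqH : Per q (H q) := hH q (Finset.mem_insert_self _ _)
    have e1 : (fun t => ∏ p ∈ insert q P, H p t) = fun t => H q t * ∏ p ∈ P, H p t := by
      funext t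
      exact Finset.prod_insert hq
    have e2 : ∏ p ∈ insert q P, p = q * ∏ p ∈ P, p := Finset.prod_insert hq
    have hpos : 0 < ∏ p ∈ P, p :=
      Finset.prod_pos fun p hp => (hP p (Finset.mem_insert_of_mem hp)).pos
    have hcop : Nat.Coprime q (∏ p ∈ P, p) := by
      refine Nat.Coprime.prod_right fun p hp => ?_
      rw [Nat.coprime_primes hqp (hP p (Finset.mem_insert_of_mem hp))]
      intro h
      exact hq (h ▸ hp)
    rw [e1, e2]
    constructor
    · exact Per.mul (hqH.of_dvd ⟨∏ p ∈ P, p, rfl⟩) (h1.of_dvd ⟨q, by ring⟩)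
    · have h3 := Pool.Agent.Lib.MP_d610d0_nt.avg_mul_coprime hqp.pos hpos hcop hqH h1
      rw [h3, h2, Finset.prod_insert hq]

theorem sel_pair {C : ℕ → Finset ℕ} {r u : ℕ}
    (hr : Squarefree r ∧ ∀ p ∈ r.primeFactors, (∀ a ∈ C p, a < p) ∧ (C p).card < p)
    (hu : Squarefree u ∧ ∀ p ∈ u.primeFactors, (∀ a ∈ C p, a < p) ∧ (C p).card < p)
    (s N : ℕ) :
    |(∑ t ∈ Ico s (s + N), sel_psiR C r t * sel_psiR C u t) -
      N * (if r = u then ∏ p ∈ r.primeFactors, gs C p else 0)| ≤
    (∏ p ∈ r.primeFactors, (gs C p * ((p : ℝ) + 1))) *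
      (∏ p ∈ u.primeFactors, (gs C p * ((p : ℝ) + 1))) := by
  classical
  set P : Finset ℕ := r.primeFactors ∪ u.primeFactors with hPdef
  have hPp : ∀ p ∈ P, p.Prime := by
    intro p hp
    rcases Finset.mem_union.1 hp with h | h
    · exact Nat.prime_of_mem_primeFactors h
    · exact Nat.prime_of_mem_primeFactors h
  have hPC : ∀ p ∈ P, (∀ a ∈ C p, a < p) ∧ (C p).card < p := by
    intro p hp
    rcases Finset.mem_union.1 hp with h | h
    · exact hr.2 p h
    · exact hu.2 p h
  let H : ℕ → ℕ → ℝ := fun p t =>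
    (if p ∈ r.primeFactors then sel_psi C p t else 1) *
      (if p ∈ u.primeFactors then sel_psi C p t else 1)
  have hH : ∀ p ∈ P, Per p (H p) := by
    intro p _ t
    show (if p ∈ r.primeFactors then sel_psi C p (t + p) else 1) *
      (if p ∈ u.primeFactors then sel_psi C p (t + p) else 1) = _
    rw [sel_psi_per C p t]
  have e1 : ∀ t, sel_psiR C r t * sel_psiR C u t = ∏ p ∈ P, H p t := by
    intro t
    show sel_psiR C r t * sel_psiR C u t = ∏ p ∈ P,
      ((if p ∈ r.primeFactors then sel_psi C p t else 1) *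
      (if p ∈ u.primeFactors then sel_psi C p t else 1))
    rw [Finset.prod_mul_distrib]
    unfold sel_psiR
    congr 1
    · rw [Finset.prod_ite_mem, hPdef, Finset.union_inter_cancel_left]
    · rw [Finset.prod_ite_mem, hPdef, Finset.union_inter_cancel_right]
  obtain ⟨h1, h2⟩ := sel_avg_prod H P hPp hH
  have hQ : 0 < ∏ p ∈ P, p := Finset.prod_pos fun p hp => (hPp p hp).pos
  have hA : APW (fun t => ∏ p ∈ P, H p t)
      ((∏ p ∈ r.primeFactors, (gs C p * ((p : ℝ) + 1))) *
      (∏ p ∈ u.primeFactors, (gs C p * ((p : ℝ) + 1)))) := by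
    have hr' : APW (sel_psiR C r) (∏ p ∈ r.primeFactors, (gs C p * ((p : ℝ) + 1))) :=
      APW.prod _ _ _ (fun p hp => sel_psi_APW (hr.2 p hp).1 (hr.2 p hp).2)
    have hu' : APW (sel_psiR C u) (∏ p ∈ u.primeFactors, (gs C p * ((p : ℝ) + 1))) :=
      APW.prod _ _ _ (fun p hp => sel_psi_APW (hu.2 p hp).1 (hu.2 p hp).2)
    exact (hr'.mul hu').congr e1
  have hd := hA.disc_avg hQ h1 s N
  have havg : ∏ p ∈ P, avg p (H p) = if r = u then ∏ p ∈ r.primeFactors, gs C p else 0 := by
    split_ifs with hru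
    · subst hru
      have hP' : P = r.primeFactors := by rw [hPdef, Finset.union_self]
      rw [hP']
      refine Finset.prod_congr rfl fun p hp => ?_
      have : H p = fun t => sel_psi C p t * sel_psi C p t := by
        funext t
        show (if p ∈ r.primeFactors then sel_psi C p t else 1) *
          (if p ∈ r.primeFactors then sel_psi C p t else 1) = _
        rw [if_pos hp]
      rw [this]
      exact sel_avg_psi_sq (hr.2 p hp).1 (hr.2 p hp).2
    · have hne : r.primeFactors ≠ u.primeFactors := by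
        intro h
        apply hru
        rw [← Nat.prod_primeFactors_of_squarefree hr.1,
          ← Nat.prod_primeFactors_of_squarefree hu.1, h]
      have hex : ∃ p ∈ P, H p = sel_psi C p := by
        by_contra hcon
        push Not at hcon
        apply hne
        apply Finset.Subset.antisymm
        · intro p hp
          by_contra hpu
          apply hcon p (Finset.mem_union_left _ hp)
          funext t
          show (if p ∈ r.primeFactors then sel_psi C p t else 1) *
            (if p ∈ u.primeFactors then sel_psi C p t else 1) = _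
          rw [if_pos hp, if_neg hpu, mul_one]
        · intro p hp
          by_contra hpr
          apply hcon p (Finset.mem_union_right _ hp)
          funext t
          show (if p ∈ r.primeFactors then sel_psi C p t else 1) *
            (if p ∈ u.primeFactors then sel_psi C p t else 1) = _
          rw [if_pos hp, if_neg hpr, one_mul]
      obtain ⟨p, hp, hHp⟩ := hex
      refine Finset.prod_eq_zero hp ?_
      rw [hHp]
      exact sel_avg_psi (hPC p hp).1 (hPC p hp).2
  rw [h2, havg] at hd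
  have e3 : ∑ t ∈ Ico s (s + N), sel_psiR C r t * sel_psiR C u t =
      ∑ t ∈ Ico s (s + N), ∏ p ∈ P, H p t := Finset.sum_congr rfl fun t _ => e1 t
  rw [e3]
  exact hd

theorem p_sel : S_sel := by
  intro C D hD T s N hT hTC
  have hW : ∀ r ∈ D, ∀ u ∈ D, ∑ t ∈ Ico s (s + N), sel_psiR C r t * sel_psiR C u t ≤
      N * (if r = u then ∏ p ∈ r.primeFactors, gs C p else 0) +
      (∏ p ∈ r.primeFactors, (gs C p * ((p : ℝ) + 1))) *
      (∏ p ∈ u.primeFactors, (gs C p * ((p : ℝ) + 1))) := by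
    intro r hr u hu
    have h := (abs_le.1 (sel_pair (hD r hr) (hD u hu) s N)).2
    linarith
  have e1 : ∑ t ∈ Ico s (s + N), (∑ r ∈ D, sel_psiR C r t) ^ 2 =
      ∑ r ∈ D, ∑ u ∈ D, ∑ t ∈ Ico s (s + N), sel_psiR C r t * sel_psiR C u t := by
    simp_rw [sq, Finset.sum_mul_sum]
    rw [Finset.sum_comm]
    refine Finset.sum_congr rfl (fun r _ => ?_)
    rw [Finset.sum_comm]
  have h1 : ∑ t ∈ Ico s (s + N), (∑ r ∈ D, sel_psiR C r t) ^ 2 ≤
      N * GS C D + WS C D ^ 2 := by
    rw [e1]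
    refine (Finset.sum_le_sum fun r hr => Finset.sum_le_sum fun u hu => hW r hr u hu).trans
      (le_of_eq ?_)
    simp_rw [Finset.sum_add_distrib]
    congr 1
    · unfold GS
      rw [Finset.mul_sum]
      refine Finset.sum_congr rfl fun r hr => ?_
      rw [← Finset.mul_sum, Finset.sum_ite_eq, if_pos hr]
    · unfold WS
      rw [sq, Finset.sum_mul_sum]
  have h2 : ∑ t ∈ T, (∑ r ∈ D, sel_psiR C r t) ^ 2 ≤
      ∑ t ∈ Ico s (s + N), (∑ r ∈ D, sel_psiR C r t) ^ 2 :=
    Finset.sum_le_sum_of_subset_of_nonneg hT fun _ _ _ => sq_nonneg _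
  have h3 : ∑ t ∈ T, (∑ r ∈ D, sel_psiR C r t) ^ 2 = (T.card : ℝ) * GS C D ^ 2 := by
    rw [← nsmul_eq_mul, ← Finset.sum_const]
    refine Finset.sum_congr rfl fun t ht => ?_
    congr 1
    unfold GS
    refine Finset.sum_congr rfl fun r hr => ?_
    unfold sel_psiR
    refine Finset.prod_congr rfl fun p hp => ?_
    unfold sel_psi
    rw [if_neg (hTC t ht r hr p hp)]
  linarith

end Pool.Agent.CA.SV
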