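import Pool.Agent.Lib.MP_d610d0_nt.CA.SV.Stm

set_option autoImplicit false

/-!
Project CA, section SV: piece tl (lower bound for the sum of `f2 n / n`).
-/

namespace Pool.Agent.CA.SV

open Finset Filter

theorem tl_f2_one : f2 1 = 1 := by
  unfold f2
  simp

theorem tl_f2_mul {p n : ℕ} (hp : p.Prime) (hn : n ≠ 0) : f2 (p * n) = c2 p * f2 n := by
  unfold f2
  rw [Nat.factorization_mul hp.ne_zero hn,
    Finsupp.prod_add_index' (fun _ => pow_zero _) (fun _ _ _ => pow_add _ _ _),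
    hp.factorization]
  have h1 : (Finsupp.single p 1).prod (fun p k => c2 p ^ k) = c2 p := by
    simp [Finsupp.prod_single_index]
  exact congrArg (· * _) h1

theorem tl_c2 (p : ℕ) : 0 ≤ c2 p ∧ c2 p ≤ 2 := by
  unfold c2
  split_ifs <;> norm_num

/-- The number of the odd divisors. -/
noncomputable def tl_od (n : ℕ) : ℝ := ((n.divisors.filter Odd).card : ℝ)

theorem tl_od_nonneg (n : ℕ) : 0 ≤ tl_od n := Nat.cast_nonneg _

theorem tl_od_mul {p n : ℕ} (hp : p.Prime) (hn : n ≠ 0) :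
    tl_od (p * n) ≤ c2 p * tl_od n := by
  unfold tl_od c2
  split_ifs with h2
  · subst h2
    rw [one_mul]
    have h : ((2 * n).divisors.filter Odd) ⊆ (n.divisors.filter Odd) := by
      intro d hd
      rw [mem_filter, Nat.mem_divisors] at hd ⊢
      refine ⟨⟨?_, hn⟩, hd.2⟩
      exact (Nat.Coprime.dvd_of_dvd_mul_left ((Nat.coprime_two_right).2 hd.2) hd.1.1)
    exact_mod_cast card_le_card h
  · have h : ((p * n).divisors.filter Odd) ⊆
        (n.divisors.filter Odd) ∪ (n.divisors.filter Odd).image (fun d => p * d) := by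
      intro d hd
      rw [mem_filter, Nat.mem_divisors] at hd
      rw [mem_union, mem_filter, Nat.mem_divisors, mem_image]
      by_cases hpd : p ∣ d
      · right
        obtain ⟨d', rfl⟩ := hpd
        refine ⟨d', ?_, rfl⟩
        rw [mem_filter, Nat.mem_divisors]
        refine ⟨⟨Nat.dvd_of_mul_dvd_mul_left hp.pos hd.1.1, hn⟩, ?_⟩
        exact (Nat.odd_mul.1 hd.2).2
      · left
        refine ⟨⟨?_, hn⟩, hd.2⟩
        exact Nat.Coprime.dvd_of_dvd_mul_left ((hp.coprime_iff_not_dvd.2 hpd).symm) hd.1.1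
    have h1 := (card_le_card h).trans ((card_union_le _ _).trans
      (Nat.add_le_add_left card_image_le _))
    have h2' : (((p * n).divisors.filter Odd).card : ℝ) ≤
        ((n.divisors.filter Odd).card : ℝ) + ((n.divisors.filter Odd).card : ℝ) := by
      exact_mod_cast h1
    linarith

theorem tl_od_le (n : ℕ) : n ≠ 0 → tl_od n ≤ f2 n := by
  induction n using induction_on_primes with
  | zero => intro h; exact absurd rfl h
  | one =>
    intro _
    rw [tl_f2_one]
    unfold tl_od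
    have : ((1 : ℕ).divisors.filter Odd).card ≤ (1 : ℕ).divisors.card := card_le_card (filter_subset _ _)
    have h1 : (1 : ℕ).divisors.card = 1 := by simp
    rw [h1] at this
    exact_mod_cast this
  | prime_mul p a hp ih =>
    intro h
    have ha : a ≠ 0 := fun h0 => h (by rw [h0, mul_zero])
    rw [tl_f2_mul hp ha]
    exact (tl_od_mul hp ha).trans (mul_le_mul_of_nonneg_left (ih ha) (tl_c2 p).1)

theorem tl_image (g : ℕ → ℝ) (N a : ℕ) (ha : 1 ≤ a) :
    ∑ n ∈ (Icc 1 N).filter (fun n => a ∣ n), g n = ∑ b ∈ Icc 1 (N / a), g (a * b) := by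
  symm
  apply sum_bij (fun b _ => a * b)
  · intro b hb
    rw [mem_Icc] at hb
    rw [mem_filter, mem_Icc]
    refine ⟨⟨Nat.mul_pos ha hb.1, ?_⟩, dvd_mul_right _ _⟩
    rw [mul_comm]
    exact (Nat.le_div_iff_mul_le ha).1 hb.2
  · intro b _ b' _ h
    exact Nat.eq_of_mul_eq_mul_left ha h
  · intro n hn
    rw [mem_filter, mem_Icc] at hn
    obtain ⟨⟨h1, h2⟩, b, rfl⟩ := hn
    refine ⟨b, ?_, rfl⟩
    rw [mem_Icc]
    refine ⟨Nat.pos_of_ne_zero fun h => by rw [h, mul_zero] at h1; omega, ?_⟩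
    rw [Nat.le_div_iff_mul_le ha, mul_comm]
    exact h2
  · intro b _
    rfl

/-- The harmonic sum. -/
theorem tl_H (k : ℕ) : Real.log (k + 1) ≤ ∑ b ∈ Icc 1 k, 1 / (b : ℝ) ∧
    ∑ b ∈ Icc 1 k, 1 / (b : ℝ) ≤ 1 + Real.log k := by
  have h0 : ∑ b ∈ Icc 1 k, 1 / (b : ℝ) = ((harmonic k : ℚ) : ℝ) := by
    rw [harmonic_eq_sum_Icc]
    push_cast
    apply sum_congr rfl
    intro b _
    rw [one_div]
  rw [h0]
  refine ⟨?_, harmonic_le_one_add_log k⟩
  have := log_add_one_le_harmonic k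
  push_cast at this
  exact this

theorem tl_H_nonneg (k : ℕ) : 0 ≤ ∑ b ∈ Icc 1 k, 1 / (b : ℝ) :=
  sum_nonneg fun _ _ => by positivity

/-- The sum of `od n / n`. -/
theorem tl_sum (N : ℕ) : ∑ n ∈ Icc 1 N, tl_od n / n =
    ∑ a ∈ (Icc 1 N).filter Odd, 1 / (a : ℝ) * ∑ b ∈ Icc 1 (N / a), 1 / (b : ℝ) := by
  have h1 : ∀ n ∈ Icc 1 N, tl_od n / n =
      ∑ a ∈ (Icc 1 N).filter Odd, if a ∣ n then 1 / (n : ℝ) else 0 := by
    intro n hn
    rw [mem_Icc] at hn
    have h2 : n.divisors.filter Odd = ((Icc 1 N).filter Odd).filter (fun a => a ∣ n) := by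
      ext a
      rw [mem_filter, Nat.mem_divisors, mem_filter, mem_filter, mem_Icc]
      constructor
      · rintro ⟨⟨h3, h4⟩, h5⟩
        have h6 := Nat.le_of_dvd hn.1 h3
        have h7 := Nat.pos_of_dvd_of_pos h3 hn.1
        exact ⟨⟨⟨h7, h6.trans hn.2⟩, h5⟩, h3⟩
      · rintro ⟨⟨_, h5⟩, h3⟩
        exact ⟨⟨h3, by omega⟩, h5⟩
    rw [← sum_filter, sum_const, nsmul_eq_mul, ← h2]
    unfold tl_od
    ring
  rw [sum_congr rfl h1, sum_comm]
  apply sum_congr rfl
  intro a ha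
  rw [mem_filter, mem_Icc] at ha
  rw [← sum_filter, tl_image (fun n => 1 / (n : ℝ)) N a ha.1.1, mul_sum]
  apply sum_congr rfl
  intro b _
  push_cast
  rw [one_div_mul_one_div]

theorem tl_upper (N : ℕ) (hN : 1 ≤ N) :
    ∑ n ∈ Icc 1 N, tl_od n / n ≤ (1 + Real.log N) ^ 2 := by
  rw [tl_sum]
  have hNR : (1 : ℝ) ≤ N := by exact_mod_cast hN
  have hl : 0 ≤ Real.log N := Real.log_nonneg hNR
  calc ∑ a ∈ (Icc 1 N).filter Odd, 1 / (a : ℝ) * ∑ b ∈ Icc 1 (N / a), 1 / (b : ℝ) ≤
      ∑ a ∈ (Icc 1 N).filter Odd, 1 / (a : ℝ) * (1 + Real.log N) := by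
        apply sum_le_sum
        intro a _
        apply mul_le_mul_of_nonneg_left _ (by positivity)
        calc ∑ b ∈ Icc 1 (N / a), 1 / (b : ℝ) ≤ ∑ b ∈ Icc 1 N, 1 / (b : ℝ) := by
              apply sum_le_sum_of_subset_of_nonneg
              · exact Icc_subset_Icc_right (Nat.div_le_self _ _)
              · intro b _ _
                positivity
          _ ≤ 1 + Real.log N := (tl_H N).2
    _ = (∑ a ∈ (Icc 1 N).filter Odd, 1 / (a : ℝ)) * (1 + Real.log N) := by rw [sum_mul]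
    _ ≤ (∑ a ∈ Icc 1 N, 1 / (a : ℝ)) * (1 + Real.log N) := by
        apply mul_le_mul_of_nonneg_right _ (by linarith)
        apply sum_le_sum_of_subset_of_nonneg (filter_subset _ _)
        intro b _ _
        positivity
    _ ≤ (1 + Real.log N) * (1 + Real.log N) :=
        mul_le_mul_of_nonneg_right (tl_H N).2 (by linarith)
    _ = _ := by ring

/-- The telescoping step. -/
theorem tl_tel (N : ℝ) (hN : 0 < N) (i : ℕ) :
    1 / 4 * ((max 0 (Real.log (N / (2 * i + 1)))) ^ 2 -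
      (max 0 (Real.log (N / (2 * (i + 1 : ℕ) + 1)))) ^ 2) ≤
    1 / (2 * (i : ℝ) + 1) * max 0 (Real.log (N / (2 * i + 1))) := by
  set a : ℝ := 2 * i + 1 with ha
  have ha0 : 0 < a := by rw [ha]; positivity
  have ha2 : (2 * (i + 1 : ℕ) + 1 : ℝ) = a + 2 := by rw [ha]; push_cast; ring
  rw [ha2]
  set u : ℝ := max 0 (Real.log (N / a)) with hu
  set v : ℝ := max 0 (Real.log (N / (a + 2))) with hv
  have hu0 : 0 ≤ u := le_max_left _ _
  have hv0 : 0 ≤ v := le_max_left _ _
  have hle : Real.log (N / (a + 2)) ≤ Real.log (N / a) := by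
    apply Real.log_le_log (by positivity)
    exact div_le_div_of_nonneg_left hN.le ha0 (by linarith)
  have hvu : v ≤ u := max_le_max le_rfl hle
  have hd : u - v ≤ 2 / a := by
    have h1 : Real.log (N / a) - Real.log (N / (a + 2)) ≤ 2 / a := by
      rw [Real.log_div hN.ne' ha0.ne', Real.log_div hN.ne' (by positivity)]
      have h2 : Real.log (a + 2) - Real.log a = Real.log ((a + 2) / a) :=
        (Real.log_div (by positivity) ha0.ne').symm
      have h3 := Real.log_le_sub_one_of_pos (show 0 < (a + 2) / a by positivity)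
      have h4 : (a + 2) / a - 1 = 2 / a := by field_simp; ring
      linarith
    rcases le_total 0 (Real.log (N / a)) with h | h
    · have hu' : u = Real.log (N / a) := max_eq_right h
      have hv' : Real.log (N / (a + 2)) ≤ v := le_max_right _ _
      rw [hu']
      linarith
    · have hu' : u = 0 := max_eq_left h
      have : 0 < 2 / a := by positivity
      rw [hu']
      linarith
  have h5 : u ^ 2 - v ^ 2 ≤ 2 / a * (2 * u) := by
    calc u ^ 2 - v ^ 2 = (u - v) * (u + v) := by ring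
      _ ≤ 2 / a * (2 * u) := by
          apply mul_le_mul hd (by linarith) (by linarith) (by positivity)
  calc 1 / 4 * (u ^ 2 - v ^ 2) ≤ 1 / 4 * (2 / a * (2 * u)) :=
        mul_le_mul_of_nonneg_left h5 (by norm_num)
    _ = 1 / a * u := by ring

theorem tl_lower (N : ℕ) (hN : 1 ≤ N) :
    1 / 4 * Real.log N ^ 2 ≤ ∑ n ∈ Icc 1 N, tl_od n / n := by
  rw [tl_sum]
  have hNR : (1 : ℝ) ≤ N := by exact_mod_cast hN
  have hN0 : (0 : ℝ) < N := by linarith
  set f : ℕ → ℝ := fun i => (max 0 (Real.log (N / (2 * i + 1)))) ^ 2 with hf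
  have h1 : ∑ a ∈ (Icc 1 N).filter Odd, 1 / (a : ℝ) * ∑ b ∈ Icc 1 (N / a), 1 / (b : ℝ) =
      ∑ i ∈ range ((N + 1) / 2), 1 / ((2 * i + 1 : ℕ) : ℝ) *
        ∑ b ∈ Icc 1 (N / (2 * i + 1)), 1 / (b : ℝ) := by
    symm
    apply sum_bij (fun i _ => 2 * i + 1)
    · intro i hi
      rw [mem_range] at hi
      rw [mem_filter, mem_Icc]
      exact ⟨⟨by omega, by omega⟩, ⟨i, rfl⟩⟩
    · intro i _ i' _ h
      omega
    · intro a ha
      rw [mem_filter, mem_Icc] at ha
      obtain ⟨⟨_, h3⟩, i, hi⟩ := ha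
      exact ⟨i, by rw [mem_range]; omega, hi.symm⟩
    · intro i _
      rfl
  rw [h1]
  have h2 : ∀ i ∈ range ((N + 1) / 2), 1 / 4 * (f i - f (i + 1)) ≤
      1 / ((2 * i + 1 : ℕ) : ℝ) * ∑ b ∈ Icc 1 (N / (2 * i + 1)), 1 / (b : ℝ) := by
    intro i _
    refine (tl_tel N hN0 i).trans ?_
    have e1 : ((2 * i + 1 : ℕ) : ℝ) = 2 * (i : ℝ) + 1 := by push_cast; ring
    rw [e1]
    apply mul_le_mul_of_nonneg_left _ (by positivity)
    apply max_le (tl_H_nonneg _)
    refine le_trans ?_ (tl_H _).1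
    apply Real.log_le_log (by positivity)
    rw [div_le_iff₀ (by positivity), ← e1]
    have h3 := Nat.lt_mul_div_succ N (show 0 < 2 * i + 1 by omega)
    have h4 : (N : ℝ) < ((2 * i + 1 : ℕ) : ℝ) * (((N / (2 * i + 1) : ℕ) : ℝ) + 1) := by
      exact_mod_cast h3
    linarith
  refine le_trans ?_ (sum_le_sum h2)
  rw [← mul_sum, sum_range_sub']
  have e0 : f 0 = Real.log N ^ 2 := by
    rw [hf]
    simp only [Nat.cast_zero, mul_zero, zero_add, div_one]
    rw [max_eq_right (Real.log_nonneg hNR)]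
  have eK : f ((N + 1) / 2) = 0 := by
    have h5 : Real.log (N / (2 * (((N + 1) / 2 : ℕ) : ℝ) + 1)) ≤ 0 := by
      apply Real.log_nonpos (by positivity)
      rw [div_le_one (by positivity)]
      have h6 : N ≤ 2 * ((N + 1) / 2) + 1 := by omega
      exact_mod_cast h6
    rw [hf]
    simp only
    rw [max_eq_left h5]
    norm_num
  rw [e0, eK, sub_zero]

theorem tl_dvd (N p : ℕ) (hp : p.Prime) (hN : 1 ≤ N) :
    ∑ n ∈ (Icc 1 N).filter (fun n => p ∣ n), tl_od n / n ≤
      1 / (p : ℝ) * 2 * (1 + Real.log N) ^ 2 := by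
  rw [tl_image (fun n => tl_od n / n) N p hp.one_lt.le]
  have hp0 : (0 : ℝ) < p := by exact_mod_cast hp.pos
  calc ∑ b ∈ Icc 1 (N / p), tl_od (p * b) / ((p * b : ℕ) : ℝ) ≤
      ∑ b ∈ Icc 1 (N / p), 1 / (p : ℝ) * 2 * (tl_od b / b) := by
        apply sum_le_sum
        intro b hb
        rw [mem_Icc] at hb
        have hb0 : b ≠ 0 := by omega
        have hbR : (0 : ℝ) < b := by exact_mod_cast hb.1
        have h1 := tl_od_mul hp hb0
        have h2 : tl_od (p * b) ≤ 2 * tl_od b :=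
          h1.trans (mul_le_mul_of_nonneg_right (tl_c2 p).2 (tl_od_nonneg b))
        push_cast
        rw [div_le_iff₀ (by positivity)]
        have h3 : 1 / (p : ℝ) * 2 * (tl_od b / b) * (p * b) = 2 * tl_od b := by
          field_simp
        rw [h3]
        exact h2
    _ = 1 / (p : ℝ) * 2 * ∑ b ∈ Icc 1 (N / p), tl_od b / b := by rw [mul_sum]
    _ ≤ 1 / (p : ℝ) * 2 * ∑ b ∈ Icc 1 N, tl_od b / b := by
        apply mul_le_mul_of_nonneg_left _ (by positivity)
        apply sum_le_sum_of_subset_of_nonneg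
        · exact Icc_subset_Icc_right (Nat.div_le_self _ _)
        · intro b _ _
          exact div_nonneg (tl_od_nonneg b) (Nat.cast_nonneg _)
    _ ≤ _ := mul_le_mul_of_nonneg_left (tl_upper N hN) (by positivity)

theorem p_tl : S_tl := by
  intro N e hN he
  have hnn : ∀ n : ℕ, 0 ≤ tl_od n / n := fun n => div_nonneg (tl_od_nonneg n) (Nat.cast_nonneg _)
  have h1 : ∑ n ∈ (Icc 1 N).filter (fun n => Nat.Coprime n e), tl_od n / n ≤
      ∑ n ∈ (Icc 1 N).filter (fun n => Nat.Coprime n e), f2 n / n := by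
    apply sum_le_sum
    intro n hn
    rw [mem_filter, mem_Icc] at hn
    exact div_le_div_of_nonneg_right (tl_od_le n (by omega)) (Nat.cast_nonneg _)
  have h2 : ∑ n ∈ Icc 1 N, tl_od n / n =
      ∑ n ∈ (Icc 1 N).filter (fun n => Nat.Coprime n e), tl_od n / n +
        ∑ n ∈ (Icc 1 N).filter (fun n => ¬ Nat.Coprime n e), tl_od n / n :=
    (sum_filter_add_sum_filter_not _ _ _).symm
  have h3 : ∑ n ∈ (Icc 1 N).filter (fun n => ¬ Nat.Coprime n e), tl_od n / n ≤
      ∑ p ∈ e.primeFactors, ∑ n ∈ (Icc 1 N).filter (fun n => p ∣ n), tl_od n / n := by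
    have h4 : ∀ p ∈ e.primeFactors, ∑ n ∈ (Icc 1 N).filter (fun n => p ∣ n), tl_od n / n =
        ∑ n ∈ Icc 1 N, if p ∣ n then tl_od n / n else 0 := fun p _ => sum_filter _ _
    rw [sum_congr rfl h4, sum_comm, sum_filter]
    apply sum_le_sum
    intro n _
    have h0 : ∀ p ∈ e.primeFactors, (0 : ℝ) ≤ if p ∣ n then tl_od n / n else 0 := by
      intro p _
      split_ifs
      · exact hnn n
      · exact le_rfl
    by_cases hc : Nat.Coprime n e
    · rw [if_neg (not_not.2 hc)]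
      exact sum_nonneg h0
    · rw [if_pos hc]
      obtain ⟨p, hp, hpn, hpe⟩ := Nat.Prime.not_coprime_iff_dvd.1 hc
      have hpm : p ∈ e.primeFactors := Nat.mem_primeFactors.2 ⟨hp, hpe, by omega⟩
      refine le_trans ?_ (single_le_sum h0 hpm)
      rw [if_pos hpn]
  have h5 : ∑ p ∈ e.primeFactors, ∑ n ∈ (Icc 1 N).filter (fun n => p ∣ n), tl_od n / n ≤
      (∑ p ∈ e.primeFactors, 1 / (p : ℝ)) * 2 * (1 + Real.log N) ^ 2 := by
    rw [sum_mul, sum_mul]
    exact sum_le_sum fun p hp => tl_dvd N p (Nat.prime_of_mem_primeFactors hp) hN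
  have h6 := tl_lower N hN
  linarith

end Pool.Agent.CA.SV
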