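import Pool.Agent.Lib.MP_d610d0_nt.CA.SV.Stm

set_option autoImplicit false

/-!
Piece tt: from the von Mangoldt function to the primes, every window.
-/

namespace Pool.Agent.CA.SV

open Finset Filter
open ArithmeticFunction (vonMangoldt)
open Pool.Agent.MP89da58 (tri primChars)
open Pool.Agent.CH (zJ wJ wL Rough VV Wt dsum thP EE)
open Pool.Agent.CH.D (FL FT Sf R_pp)

private theorem tt_dnonneg (n : ℕ) : 0 ≤ vonMangoldt n - thP n := by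
  unfold thP
  split_ifs with h
  · rw [ArithmeticFunction.vonMangoldt_apply_prime h]
    linarith
  · rw [sub_zero]
    exact ArithmeticFunction.vonMangoldt_nonneg

private theorem tt_wJ0 (J j n : ℕ) : 0 ≤ wJ J j n := le_max_left _ _

private theorem tt_wL0 (lam : ℝ) (j n : ℕ) : 0 ≤ wL lam j n := le_max_left _ _

private theorem tt_wL1 (lam : ℝ) (j n : ℕ) : wL lam j n ≤ 1 :=
  max_le zero_le_one (by linarith [abs_nonneg (lam * Real.log (n / ((j : ℝ) + 1 / 2) ^ 3))])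

private theorem tt_ev (a b C : ℝ) (A : ℕ) (hab : a < b) (hC : 0 ≤ C) :
    ∀ᶠ J : ℕ in atTop, C * (J : ℝ) ^ a * (Real.log J) ^ A ≤ (J : ℝ) ^ b := by
  have h1 : (fun x : ℝ => Real.log x ^ (A : ℝ)) =o[atTop] fun x : ℝ => x ^ (b - a) :=
    isLittleO_log_rpow_rpow_atTop (A : ℝ) (by linarith)
  have h2 := h1.bound (show (0 : ℝ) < 1 / (C + 1) by positivity)
  have h3 := tendsto_natCast_atTop_atTop (R := ℝ) |>.eventually h2
  filter_upwards [h3, eventually_ge_atTop 1] with J hJ hJ1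
  have hJ0 : (0 : ℝ) < (J : ℝ) := by exact_mod_cast hJ1
  have hJ1' : (1 : ℝ) ≤ (J : ℝ) := by exact_mod_cast hJ1
  have hl : 0 ≤ Real.log (J : ℝ) := Real.log_nonneg hJ1'
  rw [Real.norm_of_nonneg (by positivity), Real.norm_of_nonneg (by positivity),
    Real.rpow_natCast] at hJ
  have hCC : C ≤ C + 1 := by linarith
  calc C * (J : ℝ) ^ a * (Real.log J) ^ A
      ≤ (C + 1) * (J : ℝ) ^ a * (1 / (C + 1) * (J : ℝ) ^ (b - a)) := by
        gcongr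
    _ = (J : ℝ) ^ a * (J : ℝ) ^ (b - a) := by
        field_simp
    _ = (J : ℝ) ^ b := by
        rw [← Real.rpow_add hJ0]
        congr 1
        ring

private theorem tt_Sf (J j r : ℕ) (χ : DirichletCharacter ℂ r) :
    Sf thP J j χ = Sf (fun n => vonMangoldt n) J j χ -
      Sf (fun n => vonMangoldt n - thP n) J j χ := by
  unfold Sf
  rw [← Finset.sum_sub_distrib]
  refine Finset.sum_congr rfl fun n _ => ?_
  push_cast
  ring

private theorem tt_SfD (J j r : ℕ) (χ : DirichletCharacter ℂ r) :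
    ‖Sf (fun n => vonMangoldt n - thP n) J j χ‖ ≤
      ∑ n ∈ Icc 1 (27 * J ^ 3), (vonMangoldt n - thP n) * wJ J j n := by
  unfold Sf
  refine (norm_sum_le _ _).trans (Finset.sum_le_sum fun n _ => ?_)
  rw [norm_mul, norm_mul, Complex.norm_real, Complex.norm_real,
    Real.norm_of_nonneg (tt_dnonneg n), Real.norm_of_nonneg (tt_wJ0 J j n)]
  have h1 : ‖χ (n : ZMod r)‖ ≤ 1 := DirichletCharacter.norm_le_one χ _
  have h2 := tt_dnonneg n
  have h3 := tt_wJ0 J j n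
  calc (vonMangoldt n - thP n) * ‖χ (n : ZMod r)‖ * wJ J j n
      ≤ (vonMangoldt n - thP n) * 1 * wJ J j n := by gcongr
    _ = _ := by ring

private theorem tt_le (J j r : ℕ) (χ : DirichletCharacter ℂ r)
    (h : ∑ n ∈ Icc 1 (27 * J ^ 3), (vonMangoldt n - thP n) * wJ J j n ≤ (J : ℝ) ^ (3 / 5 : ℝ)) :
    ‖Sf (FT J) J j χ‖ ≤ ‖Sf (FL J) J j χ‖ + (J : ℝ) ^ (3 / 5 : ℝ) := by
  have e1 : Sf (FT J) J j χ = Sf (FL J) J j χ - Sf (fun n => vonMangoldt n - thP n) J j χ :=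
    tt_Sf J j r χ
  rw [e1]
  refine (norm_sub_le _ _).trans ?_
  have := (tt_SfD J j r χ).trans h
  linarith

private theorem tt_logev (c : ℝ) : ∀ᶠ J : ℕ in atTop, c ≤ Real.log J :=
  (Real.tendsto_log_atTop.comp tendsto_natCast_atTop_atTop).eventually_ge_atTop c

private theorem tt_half {X L : ℝ} (A : ℕ) (hX : 0 ≤ X) (hL : 2 ≤ L) :
    X / L ^ (A + 1) ≤ X / L ^ A / 2 := by
  have hL0 : 0 < L := by linarith
  rw [pow_succ, ← div_div]
  exact div_le_div_of_nonneg_left (by positivity) (by norm_num) hL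

private theorem tt_LC (hpp : R_pp) (h : LCw FL) : LCw FT := by
  intro A
  obtain ⟨B, hB⟩ := h (A + 1)
  refine ⟨B, ?_⟩
  filter_upwards [hB, hpp, tt_logev 2, eventually_ge_atTop 1,
    tt_ev (10998 / 10000) 2 2 A (by norm_num) (by norm_num)] with J hJ hp hlog hJ1 hev
  intro R hR1 hR2 j hj
  have hJ0 : (0 : ℝ) < (J : ℝ) := by exact_mod_cast hJ1
  have hL : 0 < Real.log (J : ℝ) := by linarith
  have hR0 : (0 : ℝ) ≤ (R : ℝ) := Nat.cast_nonneg R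
  have h1 := hJ R hR1 hR2 j hj
  have h2 : ∑ p ∈ primChars R, ‖Sf (FT J) J j p.2‖ ≤
      ∑ p ∈ primChars R, ‖Sf (FL J) J j p.2‖ + (R : ℝ) ^ 2 * (J : ℝ) ^ (3 / 5 : ℝ) := by
    calc ∑ p ∈ primChars R, ‖Sf (FT J) J j p.2‖
        ≤ ∑ p ∈ primChars R, (‖Sf (FL J) J j p.2‖ + (J : ℝ) ^ (3 / 5 : ℝ)) :=
          Finset.sum_le_sum fun p _ => tt_le J j p.1 p.2 (hp.1 j hj)
      _ = ∑ p ∈ primChars R, ‖Sf (FL J) J j p.2‖ +
          ((primChars R).card : ℝ) * (J : ℝ) ^ (3 / 5 : ℝ) := by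
          rw [Finset.sum_add_distrib, Finset.sum_const, nsmul_eq_mul]
      _ ≤ _ := by
          have e5 : ((primChars R).card : ℝ) ≤ (R : ℝ) ^ 2 := by
            exact_mod_cast Pool.Agent.MP89da58.card_primChars R
          gcongr
  have h3 : (R : ℝ) * (J : ℝ) ^ 2 / (Real.log J) ^ (A + 1) ≤
      (R : ℝ) * (J : ℝ) ^ 2 / (Real.log J) ^ A / 2 := tt_half A (by positivity) hlog
  have h4 : (R : ℝ) ^ 2 * (J : ℝ) ^ (3 / 5 : ℝ) ≤
      (R : ℝ) * (J : ℝ) ^ 2 / (Real.log J) ^ A / 2 := by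
    have e1 : (J : ℝ) ^ (4998 / 10000 : ℝ) * (J : ℝ) ^ (3 / 5 : ℝ) =
        (J : ℝ) ^ (10998 / 10000 : ℝ) := by
      rw [← Real.rpow_add hJ0]
      norm_num
    have e2 : (R : ℝ) ^ 2 * (J : ℝ) ^ (3 / 5 : ℝ) ≤
        (R : ℝ) * (J : ℝ) ^ (10998 / 10000 : ℝ) := by
      rw [← e1, pow_two, mul_assoc]
      gcongr
    have e3 : (J : ℝ) ^ (2 : ℝ) = (J : ℝ) ^ 2 := by
      rw [← Real.rpow_natCast]
      norm_num
    rw [e3] at hev
    have e4 : 2 * (J : ℝ) ^ (10998 / 10000 : ℝ) ≤ (J : ℝ) ^ 2 / (Real.log J) ^ A := by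
      rw [le_div_iff₀ (by positivity)]
      exact hev
    have e5 : (R : ℝ) * (J : ℝ) ^ 2 / (Real.log J) ^ A / 2 =
        (R : ℝ) * ((J : ℝ) ^ 2 / (Real.log J) ^ A / 2) := by ring
    rw [e5]
    refine e2.trans (mul_le_mul_of_nonneg_left ?_ hR0)
    linarith
  linarith

private theorem tt_SC (hpp : R_pp) (h : SCw FL) : SCw FT := by
  intro A B
  filter_upwards [h (A + 1) B, hpp, tt_logev 2, eventually_ge_atTop 1,
    tt_ev (3 / 5) 2 2 A (by norm_num) (by norm_num)] with J hJ hp hlog hJ1 hev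
  intro r χ hr1 hr2 hχ j hj
  have hJ0 : (0 : ℝ) < (J : ℝ) := by exact_mod_cast hJ1
  have hL : 0 < Real.log (J : ℝ) := by linarith
  have h1 := hJ r χ hr1 hr2 hχ j hj
  have h2 := tt_le J j r χ (hp.1 j hj)
  have h3 : (J : ℝ) ^ 2 / (Real.log J) ^ (A + 1) ≤
      (J : ℝ) ^ 2 / (Real.log J) ^ A / 2 := tt_half A (by positivity) hlog
  have e3 : (J : ℝ) ^ (2 : ℝ) = (J : ℝ) ^ 2 := by
    rw [← Real.rpow_natCast]
    norm_num
  rw [e3] at hev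
  have e4 : 2 * (J : ℝ) ^ (3 / 5 : ℝ) ≤ (J : ℝ) ^ 2 / (Real.log J) ^ A := by
    rw [le_div_iff₀ (by positivity)]
    exact hev
  linarith

private theorem tt_CM (hpp : R_pp) (h : CMw FL) : CMw FT := by
  intro A
  obtain ⟨E0, hE0⟩ := h (A + 1)
  refine ⟨E0, fun E hE => ?_⟩
  filter_upwards [hE0 E hE, hpp, tt_logev 2, eventually_ge_atTop 1,
    tt_ev (8 / 5) 3 6 (E + A) (by norm_num) (by norm_num)] with J hJ hp hlog hJ1 hev
  intro j hj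
  have hJ0 : (0 : ℝ) < (J : ℝ) := by exact_mod_cast hJ1
  have hL : 0 < Real.log (J : ℝ) := by linarith
  have h1 := hJ j hj
  set L := Real.log (J : ℝ) with hLdef
  have e1 : (2 * (J : ℝ) * ∑ n ∈ Icc 1 (27 * J ^ 3), FL J n * wJ J j n
      - L ^ E * ∑ n ∈ Icc 1 (27 * J ^ 3), FL J n * wL (L ^ E) j n)
      - (2 * (J : ℝ) * ∑ n ∈ Icc 1 (27 * J ^ 3), FT J n * wJ J j n
      - L ^ E * ∑ n ∈ Icc 1 (27 * J ^ 3), FT J n * wL (L ^ E) j n)
      = 2 * (J : ℝ) * ∑ n ∈ Icc 1 (27 * J ^ 3), (vonMangoldt n - thP n) * wJ J j n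
      - L ^ E * ∑ n ∈ Icc 1 (27 * J ^ 3), (vonMangoldt n - thP n) * wL (L ^ E) j n := by
    have e2 : ∀ w : ℕ → ℝ, ∑ n ∈ Icc 1 (27 * J ^ 3), (vonMangoldt n - thP n) * w n
        = ∑ n ∈ Icc 1 (27 * J ^ 3), FL J n * w n
          - ∑ n ∈ Icc 1 (27 * J ^ 3), FT J n * w n := by
      intro w
      rw [← Finset.sum_sub_distrib]
      refine Finset.sum_congr rfl fun n _ => ?_
      show (vonMangoldt n - thP n) * w n = vonMangoldt n * w n - thP n * w n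
      ring
    rw [e2 (fun n => wJ J j n), e2 (fun n => wL (L ^ E) j n)]
    ring
  have f1 : 0 ≤ ∑ n ∈ Icc 1 (27 * J ^ 3), (vonMangoldt n - thP n) * wJ J j n :=
    Finset.sum_nonneg fun n _ => mul_nonneg (tt_dnonneg n) (tt_wJ0 J j n)
  have f2 := hp.1 j hj
  have f3 : 0 ≤ ∑ n ∈ Icc 1 (27 * J ^ 3), (vonMangoldt n - thP n) * wL (L ^ E) j n :=
    Finset.sum_nonneg fun n _ => mul_nonneg (tt_dnonneg n) (tt_wL0 _ j n)
  have f4 : ∑ n ∈ Icc 1 (27 * J ^ 3), (vonMangoldt n - thP n) * wL (L ^ E) j n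
      ≤ (J : ℝ) ^ (8 / 5 : ℝ) := by
    refine le_trans (Finset.sum_le_sum fun n _ => ?_) hp.2
    have f5 := tt_dnonneg n
    have f6 := tt_wL1 (L ^ E) j n
    nlinarith
  have f7 : 0 ≤ L ^ E := by positivity
  have g1 : 0 ≤ 2 * (J : ℝ) *
      ∑ n ∈ Icc 1 (27 * J ^ 3), (vonMangoldt n - thP n) * wJ J j n := by positivity
  have g2 : 2 * (J : ℝ) *
      ∑ n ∈ Icc 1 (27 * J ^ 3), (vonMangoldt n - thP n) * wJ J j n
      ≤ 2 * (J : ℝ) * (J : ℝ) ^ (3 / 5 : ℝ) := by gcongr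
  have g3 : 0 ≤ L ^ E *
      ∑ n ∈ Icc 1 (27 * J ^ 3), (vonMangoldt n - thP n) * wL (L ^ E) j n := by positivity
  have g4 : L ^ E * ∑ n ∈ Icc 1 (27 * J ^ 3), (vonMangoldt n - thP n) * wL (L ^ E) j n
      ≤ L ^ E * (J : ℝ) ^ (8 / 5 : ℝ) := by gcongr
  have e2 : (J : ℝ) * (J : ℝ) ^ (3 / 5 : ℝ) = (J : ℝ) ^ (8 / 5 : ℝ) := by
    nth_rewrite 1 [← Real.rpow_one (J : ℝ)]
    rw [← Real.rpow_add hJ0]
    norm_num
  have h3 : (J : ℝ) ^ 3 / L ^ (A + 1) ≤ (J : ℝ) ^ 3 / L ^ A / 2 :=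
    tt_half A (by positivity) hlog
  have hLE : 1 ≤ L ^ E := one_le_pow₀ (by linarith)
  have e3 : (J : ℝ) ^ (3 : ℝ) = (J : ℝ) ^ 3 := by
    rw [← Real.rpow_natCast]
    norm_num
  rw [e3, pow_add, ← mul_assoc] at hev
  have e4 : 6 * (J : ℝ) ^ (8 / 5 : ℝ) * L ^ E ≤ (J : ℝ) ^ 3 / L ^ A := by
    rw [le_div_iff₀ (by positivity)]
    exact hev
  have e5 : 2 * (J : ℝ) * (J : ℝ) ^ (3 / 5 : ℝ) = 2 * (J : ℝ) ^ (8 / 5 : ℝ) := by
    rw [mul_assoc, e2]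
  rw [e5] at g2
  have e6 : (J : ℝ) ^ (8 / 5 : ℝ) ≤ (J : ℝ) ^ (8 / 5 : ℝ) * L ^ E := by
    have : 0 ≤ (J : ℝ) ^ (8 / 5 : ℝ) := by positivity
    nlinarith
  have h5 := abs_le.1 h1
  rw [abs_le]
  constructor <;> linarith [h5.1, h5.2]

theorem p_tt : S_tt :=
  fun hpp h1 h2 h3 => ⟨tt_LC hpp h1, tt_SC hpp h2, tt_CM hpp h3⟩

end Pool.Agent.CA.SV
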