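import Pool.Agent.Lib.MP_d610d0_nt.CA.SV.Stm

set_option autoImplicit false

/-!
Piece [CA SV up] of MP_d610d0_nt: the upper bound for the weighted number of primes `p` in a window
such that `p + 2` is rough and has at least six prime factors (adapted from `CH/F/P/up.lean`).
-/

namespace Pool.Agent.CA.SV

open Finset Filter
open scoped ArithmeticFunction.Omega
open Pool.Agent.MP89da58 (tri primChars)
open Pool.Agent.CH (zJ wJ wL Rough VV Wt dsum thP EE)
open Pool.Agent.CH.F (mu SW)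

private lemma up_z8 (J : ℕ) : zJ J ^ 8 = 27 * (J : ℝ) ^ 3 := by
  unfold zJ
  have h0 : (0 : ℝ) ≤ 3 * (J : ℝ) := by positivity
  rw [← Real.rpow_natCast, ← Real.rpow_mul h0]
  rw [show ((3 / 8 : ℝ) * ((8 : ℕ) : ℝ)) = ((3 : ℕ) : ℝ) by norm_num, Real.rpow_natCast]
  ring

private lemma up_z0 (J : ℕ) : 0 ≤ zJ J := by
  unfold zJ
  positivity

private lemma up_z2 (J : ℕ) (hJ : 16 ≤ J) : 2 < zJ J := by
  by_contra h
  push Not at h
  have h1 : zJ J ^ 8 ≤ 2 ^ 8 := pow_le_pow_left₀ (up_z0 J) h 8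
  rw [up_z8] at h1
  have h2 : (16 : ℝ) ≤ (J : ℝ) := by exact_mod_cast hJ
  have h3 : (16 : ℝ) ^ 3 ≤ (J : ℝ) ^ 3 := pow_le_pow_left₀ (by norm_num) h2 3
  norm_num at h1 h3
  linarith

private lemma up_zJ3 (J : ℕ) (hJ : 16 ≤ J) : zJ J ≤ (J : ℝ) ^ 3 := by
  by_contra h
  push Not at h
  have h2 : (16 : ℝ) ≤ (J : ℝ) := by exact_mod_cast hJ
  have h0 : (0 : ℝ) ≤ (J : ℝ) ^ 3 := by positivity
  have h1 : ((J : ℝ) ^ 3) ^ 8 < zJ J ^ 8 := pow_lt_pow_left₀ h h0 (by norm_num)
  rw [up_z8] at h1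
  have h3 : (16 : ℝ) ^ 3 ≤ (J : ℝ) ^ 3 := pow_le_pow_left₀ (by norm_num) h2 3
  have h4 : (27 : ℝ) ≤ ((J : ℝ) ^ 3) ^ 7 := by
    have : ((16 : ℝ) ^ 3) ^ 7 ≤ ((J : ℝ) ^ 3) ^ 7 := pow_le_pow_left₀ (by norm_num) h3 7
    have h5 : (27 : ℝ) ≤ ((16 : ℝ) ^ 3) ^ 7 := by norm_num
    linarith
  have h6 : 27 * (J : ℝ) ^ 3 ≤ ((J : ℝ) ^ 3) ^ 8 := by
    calc 27 * (J : ℝ) ^ 3 ≤ ((J : ℝ) ^ 3) ^ 7 * (J : ℝ) ^ 3 := mul_le_mul_of_nonneg_right h4 h0
      _ = ((J : ℝ) ^ 3) ^ 8 := by ring
  linarith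

private lemma up_VV (z : ℝ) : 0 ≤ VV z := by
  unfold VV
  refine prod_nonneg fun p hp => ?_
  rw [mem_filter] at hp
  have h1 : (3 : ℝ) ≤ (p : ℝ) := by exact_mod_cast hp.2.2
  have h2 : 1 / ((p : ℝ) - 1) ≤ 1 := by
    rw [div_le_one (by linarith)]
    linarith
  linarith

private lemma up_th (J p : ℕ) (hJ : 16 ≤ J) (hp : p ∈ Icc 1 (27 * J ^ 3)) :
    0 ≤ thP p ∧ thP p ≤ 3 * Real.log J + 4 := by
  rw [mem_Icc] at hp
  have h2 : (16 : ℝ) ≤ (J : ℝ) := by exact_mod_cast hJ
  have hL : 0 ≤ Real.log J := Real.log_nonneg (by linarith)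
  have hp1 : (1 : ℝ) ≤ (p : ℝ) := by exact_mod_cast hp.1
  have hp2 : (p : ℝ) ≤ 27 * (J : ℝ) ^ 3 := by exact_mod_cast hp.2
  have h27 : Real.log 27 ≤ 4 := by
    rw [Real.log_le_iff_le_exp (by norm_num)]
    have h3 := Real.exp_one_gt_d9
    have h4 : Real.exp 4 = Real.exp 1 ^ 4 := by
      rw [← Real.exp_nat_mul]
      norm_num
    rw [h4]
    have h5 : (2.7 : ℝ) ^ 4 ≤ Real.exp 1 ^ 4 := pow_le_pow_left₀ (by norm_num) (by linarith) 4
    norm_num at h5
    linarith
  unfold thP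
  split_ifs with h
  · refine ⟨Real.log_nonneg hp1, ?_⟩
    have h3 : Real.log p ≤ Real.log (27 * (J : ℝ) ^ 3) := Real.log_le_log (by linarith) hp2
    rw [Real.log_mul (by norm_num) (by positivity), Real.log_pow] at h3
    push_cast at h3
    linarith
  · exact ⟨le_refl _, by linarith⟩

private lemma up_RB0 (J : ℕ) : RB J 0 = 0 := by
  unfold RB
  refine sum_eq_zero fun k hk => ?_
  rw [mem_Icc] at hk
  unfold Bk bx
  rw [div_eq_zero_iff]
  left
  rw [Nat.cast_eq_zero, card_eq_zero, filter_eq_empty_iff]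
  intro q hq
  rw [Fintype.mem_piFinset] at hq
  have h := hq ⟨0, by omega⟩
  simp only [zero_add, range_one, mem_filter, mem_singleton] at h
  exact absurd h.2.1 (by rw [h.1]; exact Nat.not_prime_zero)

theorem p_up : S_up := by
  classical
  intro hwin hsw hrrE
  filter_upwards [hrrE, eventually_ge_atTop 256] with J hrr hJ256 cp cm hSW j hj hG
  have hs16 : 16 ≤ Nat.sqrt J := by
    rw [Nat.le_sqrt]
    omega
  have hsJ : Nat.sqrt J ≤ J := Nat.sqrt_le_self J
  have hJ : 16 ≤ J := by omega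
  have hz2 : 2 < zc J := up_z2 _ hs16
  have hzJ3 : zc J ≤ (J : ℝ) ^ 3 := by
    refine le_trans (up_zJ3 _ hs16) ?_
    exact pow_le_pow_left₀ (by positivity) (by exact_mod_cast hsJ) 3
  have hV := up_VV (zc J)
  obtain ⟨hw01, hwsup, hwcard, hwlip⟩ := hwin J (by omega) j hj
  have hJR : (16 : ℝ) ≤ (J : ℝ) := by exact_mod_cast hJ
  have hL : 0 < Real.log J := Real.log_pos (by linarith)
  set z := zc J with hz
  set I := Icc 1 (27 * J ^ 3) with hI
  -- oddness from roughness
  have hodd : ∀ n : ℕ, Rough z n → Odd n := by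
    intro n hn
    by_contra h
    rw [Nat.not_odd_iff_even] at h
    have := hn 2 Nat.prime_two h.two_dvd
    norm_num at this
    linarith
  have hup : ∀ n : ℕ, Odd n → (if Rough z n then (1 : ℝ) else 0) ≤ dsum cp n := fun n hn =>
    hSW.up n hn
  -- nonnegativity of the comparison term
  have hgnn : ∀ p : ℕ, 0 ≤ RB J (p + 2) * wJ J j (p + 2) * dsum cp p := by
    intro p
    obtain ⟨r0, r1, -⟩ := hrr (p + 2) (by omega)
    by_cases hR : RB J (p + 2) = 0
    · rw [hR]; simp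
    · have ho : Odd p := by
        have := hodd _ (r1 hR)
        rw [Nat.odd_add] at this
        exact this.2 (by decide)
      have hd : 0 ≤ dsum cp p := by
        refine le_trans ?_ (hup p ho)
        split_ifs <;> norm_num
      exact mul_nonneg (mul_nonneg r0 (hw01 _).1) hd
  -- the predicates bad and big
  set bad : ℕ → Prop := fun p => wJ J j p ≠ 0 ∧ ∃ q : ℕ, q.Prime ∧ zc J ≤ q ∧ q ^ 2 ∣ p + 2 with hbad
  set big : ℕ → Prop := fun p => p.Prime ∧ wJ J j p ≠ 0 ∧ Squarefree (p + 2) ∧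
    Rough (zc J) (p + 2) ∧ 6 ≤ Ω (p + 2) ∧ ∃ m : ℕ, m.Prime ∧ m ∣ p + 2 ∧ Yc J < m with hbig
  have hterm : ∀ p ∈ I, thP p * wJ J j p * (if Rough (zc J) (p + 2) ∧ 6 ≤ Ω (p + 2) then 1 else 0)
      ≤ (3 * Real.log J + 4) * ((if bad p then 1 else 0) + (if big p then 1 else 0)
        + RB J (p + 2) * wJ J j (p + 2) * dsum cp p
        + (if wJ J j p ≠ 0 then 4 / (J : ℝ) ^ 2 else 0)) := by
    intro p hp
    obtain ⟨ht0, ht1⟩ := up_th J p hJ hp
    have hB0 : (0 : ℝ) ≤ (if bad p then 1 else 0) := by split_ifs <;> norm_num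
    have hG0 : (0 : ℝ) ≤ (if big p then 1 else 0) := by split_ifs <;> norm_num
    have hC0 : (0 : ℝ) ≤ (if wJ J j p ≠ 0 then 4 / (J : ℝ) ^ 2 else 0) := by
      split_ifs
      · positivity
      · exact le_refl _
    have hA := hgnn p
    have hRHS : 0 ≤ (3 * Real.log J + 4) * ((if bad p then 1 else 0) + (if big p then 1 else 0)
        + RB J (p + 2) * wJ J j (p + 2) * dsum cp p
        + (if wJ J j p ≠ 0 then 4 / (J : ℝ) ^ 2 else 0)) :=
      mul_nonneg (by linarith) (by linarith)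
    by_cases hc : Rough (zc J) (p + 2) ∧ 6 ≤ Ω (p + 2)
    swap
    · rw [if_neg hc, mul_zero]
      exact hRHS
    rw [if_pos hc, mul_one]
    by_cases hw : wJ J j p = 0
    · have h0 : thP p * wJ J j p = 0 := by rw [hw, mul_zero]
      exact h0.le.trans hRHS
    by_cases hpp : p.Prime
    swap
    · have : thP p = 0 := by unfold thP; rw [if_neg hpp]
      rw [this, zero_mul]
      exact hRHS
    have hp1 : 1 ≤ p := hpp.one_lt.le
    obtain ⟨w1, w2, w3, w4⟩ := hwsup p hp1 hw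
    have hkey : wJ J j p ≤ (if bad p then 1 else 0) + (if big p then 1 else 0)
        + RB J (p + 2) * wJ J j (p + 2) * dsum cp p
        + (if wJ J j p ≠ 0 then 4 / (J : ℝ) ^ 2 else 0) := by
      by_cases hsf : Squarefree (p + 2)
      · by_cases hbg : big p
        · rw [if_pos hbg]
          have := (hw01 p).2
          linarith
        have hsm : ∀ m : ℕ, m.Prime → m ∣ p + 2 → (m : ℝ) ≤ Yc J := by
          intro m hm hmd
          by_contra hlt
          exact hbg ⟨hpp, hw, hsf, hc.1, hc.2, m, hm, hmd, not_le.1 hlt⟩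
        have hR1 := (hrr (p + 2) (by omega)).2.2 hsf hc.1 w4.le hc.2 hsm
        have hpodd : Odd p := by
          have := hodd _ hc.1
          rw [Nat.odd_add] at this
          exact this.2 (by decide)
        have hprough : Rough z p := by
          intro q hq hqp
          have : q = p := (Nat.prime_dvd_prime_iff_eq hq hpp).1 hqp
          rw [this]
          have h3 : ((J ^ 3 : ℕ) : ℝ) ≤ (p : ℝ) := by exact_mod_cast w3.le
          push_cast at h3
          linarith
        have hd1 : 1 ≤ dsum cp p := by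
          have := hup p hpodd
          rwa [if_pos hprough] at this
        have hl := hwlip p w3.le
        have hw2 := (hw01 (p + 2)).1
        have h5 : wJ J j (p + 2) ≤ RB J (p + 2) * wJ J j (p + 2) * dsum cp p := by
          have h6 : (1 : ℝ) ≤ RB J (p + 2) * dsum cp p := by
            nlinarith
          nlinarith
        rw [if_pos hw]
        linarith
      · have hb : bad p := by
          refine ⟨hw, ?_⟩
          rw [Nat.squarefree_iff_prime_squarefree] at hsf
          push Not at hsf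
          obtain ⟨q, hq, hqd⟩ := hsf
          exact ⟨q, hq, hc.1 q hq (dvd_trans (Dvd.intro _ rfl) hqd), by rw [pow_two]; exact hqd⟩
        rw [if_pos hb]
        have := (hw01 p).2
        linarith
    calc thP p * wJ J j p ≤ (3 * Real.log J + 4) * wJ J j p :=
          mul_le_mul_of_nonneg_right ht1 (hw01 p).1
      _ ≤ _ := mul_le_mul_of_nonneg_left hkey (by linarith)
  have hsum : TT J j ≤ ∑ p ∈ I, (3 * Real.log J + 4) * ((if bad p then 1 else 0)
        + (if big p then 1 else 0)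
        + RB J (p + 2) * wJ J j (p + 2) * dsum cp p
        + (if wJ J j p ≠ 0 then 4 / (J : ℝ) ^ 2 else 0)) := by
    unfold TT
    exact sum_le_sum hterm
  rw [← mul_sum, sum_add_distrib, sum_add_distrib, sum_add_distrib] at hsum
  -- first sum
  have hS1 : ∑ p ∈ I, (if bad p then (1 : ℝ) else 0) ≤ (J : ℝ) ^ (15 / 8 : ℝ) := by
    refine le_trans ?_ hG.g5
    rw [← sum_filter, sum_const, nsmul_eq_mul, mul_one]
    unfold sqn
    have hinj : (I.filter bad).card ≤ ((Ioo (j ^ 3) ((j + 1) ^ 3)).filter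
        (fun n : ℕ => ∃ q : ℕ, q.Prime ∧ zc J ≤ q ∧ q ^ 2 ∣ n)).card := by
      refine card_le_card_of_injOn (fun p => p + 2) ?_ ?_
      · intro p hp
        simp only [coe_filter, Set.mem_ofPred_eq] at hp
        obtain ⟨hpI, hw, hq⟩ := hp
        rw [hI, mem_Icc] at hpI
        obtain ⟨w1, w2, w3, w4⟩ := hwsup p hpI.1 hw
        simp only [coe_filter, Set.mem_ofPred_eq, mem_Ioo]
        exact ⟨⟨by omega, w2⟩, hq⟩
      · intro a _ b _ hab
        simpa using hab
    exact_mod_cast hinj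
  -- big sum
  have hS4 : ∑ p ∈ I, (if big p then (1 : ℝ) else 0) ≤ 0.15 * mu J j / Real.log J ^ 2 := by
    refine le_trans ?_ hG.g6
    rw [← sum_filter, sum_const, nsmul_eq_mul, mul_one]
    unfold bgn
    exact le_of_eq (by congr)
  -- third sum
  have hS3 : ∑ p ∈ I, (if wJ J j p ≠ 0 then 4 / (J : ℝ) ^ 2 else 0) ≤ 72 := by
    rw [← sum_filter, sum_const, nsmul_eq_mul]
    have h1 : (((I.filter (fun n => wJ J j n ≠ 0)).card : ℕ) : ℝ) * (4 / (J : ℝ) ^ 2)
        ≤ 18 * (J : ℝ) ^ 2 * (4 / (J : ℝ) ^ 2) :=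
      mul_le_mul_of_nonneg_right hwcard (by positivity)
    have h2 : 18 * (J : ℝ) ^ 2 * (4 / (J : ℝ) ^ 2) = 72 := by
      have : (J : ℝ) ≠ 0 := by linarith
      field_simp
      norm_num
    linarith
  -- second sum
  have hzero : ∀ n, n < 3 → RB J n * wJ J j n = 0 := by
    intro n hn
    rcases Nat.eq_zero_or_pos n with h0 | h0
    · rw [h0, up_RB0, zero_mul]
    · by_cases hw : wJ J j n = 0
      · rw [hw, mul_zero]
      · obtain ⟨-, -, w3, -⟩ := hwsup n h0 hw
        have : 16 ^ 3 ≤ J ^ 3 := Nat.pow_le_pow_left hJ 3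
        norm_num at this
        omega
  have hS2 : ∑ p ∈ I, RB J (p + 2) * wJ J j (p + 2) * dsum cp p
      = ∑ n ∈ I, RB J n * wJ J j n * dsum cp (n - 2) := by
    refine sum_bij_ne_zero (fun p _ _ => p + 2) ?_ ?_ ?_ ?_
    · intro p hp hne
      have hw : wJ J j (p + 2) ≠ 0 := by
        intro h
        apply hne
        rw [h]; ring
      obtain ⟨-, -, -, w4⟩ := hwsup (p + 2) (by omega) hw
      rw [hI, mem_Icc]
      omega
    · intro a _ _ b _ _ hab
      simpa using hab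
    · intro n hn hne
      have hn3 : 3 ≤ n := by
        by_contra h
        push Not at h
        apply hne
        rw [hzero n h, zero_mul]
      rw [hI, mem_Icc] at hn
      refine ⟨n - 2, ?_, ?_, ?_⟩
      · rw [hI, mem_Icc]; omega
      · have : n - 2 + 2 = n := by omega
        rw [this]
        exact hne
      · show n - 2 + 2 = n
        omega
    · intro p _ _
      simp
  rw [hS2, (hsw J j (RB J) cp (by omega) hSW.wp).2 hzero] at hsum
  have hS2a : ∑ q ∈ Icc 1 (Nat.sqrt J), cp q * EE J (RB J) 2 j q ≤ (J : ℝ) ^ 2 / Real.log J ^ 3 :=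
    le_trans (le_abs_self _) hG.g2
  have hRn : 0 ≤ ∑ n ∈ Icc 1 (27 * J ^ 3), RB J n * wJ J j n := by
    refine sum_nonneg fun n hn => ?_
    rw [mem_Icc] at hn
    exact mul_nonneg (hrr n hn.1).1 (hw01 n).1
  have hmu : 0 ≤ mu J j := by
    unfold mu
    positivity
  have hS2b : (∑ q ∈ Icc 1 (Nat.sqrt J), cp q / (Nat.totient q : ℝ)) *
      ∑ n ∈ Icc 1 (27 * J ^ 3), RB J n * wJ J j n
      ≤ 0.292 * VV z * mu J j / (3 * Real.log J) := by
    have h0 : ∑ d ∈ Icc 1 (Nat.sqrt J), cp d / (Nat.totient d : ℝ) ≤ 1.39 * VV z := hSW.mp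
    have h1 := mul_le_mul_of_nonneg_right h0 hRn
    have h2 := mul_le_mul_of_nonneg_left hG.g4 (show 0 ≤ 1.39 * VV z by positivity)
    have h3 : 1.39 * VV z * (0.21 * mu J j / (3 * Real.log J))
        = 0.2919 * (VV z * mu J j / (3 * Real.log J)) := by
      ring
    have h4 : (0 : ℝ) ≤ VV z * mu J j / (3 * Real.log J) := by positivity
    have h5 : 0.292 * VV z * mu J j / (3 * Real.log J)
        = 0.292 * (VV z * mu J j / (3 * Real.log J)) := by
      ring
    rw [h3] at h2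
    rw [h5]
    refine le_trans h1 (le_trans h2 ?_)
    exact mul_le_mul_of_nonneg_right (by norm_num) h4
  refine le_trans hsum (mul_le_mul_of_nonneg_left ?_ (by linarith))
  rw [hI] at hS1 hS3 hS4
  rw [hI]
  linarith

end Pool.Agent.CA.SV
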