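import Pool.Agent.Lib.MP_d610d0_nt.CA.SV.Stm

/-!
Project CA, section SV, piece win: primes in a long window.
-/

set_option autoImplicit false

namespace Pool.Agent.CA.SV

open Finset Filter
open Pool.Agent.MP89da58 (tri)
open Pool.Agent.CH.M2 (S_sh)

private def win_c (i : ℕ) : ℕ := if i < 100 then i + 1 else 200 - i

private lemma win_csum : ∑ i ∈ range 200, (win_c i : ℝ) / 100 = 101 := by
  have h : ∑ i ∈ range 200, win_c i = 10100 := by decide +kernel
  rw [← Finset.sum_div, ← Nat.cast_sum, h]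
  norm_num

private lemma win_cell (lam y : ℝ) (hl : 0 < lam) (hy : 0 < y) (p : ℕ) (hp : 0 < p) :
    tri (lam * Real.log ((p : ℝ) / y)) ≤ ∑ i ∈ range 200,
      if y * Real.exp (((i : ℝ) - 100) / (100 * lam)) ≤ p ∧
        (p : ℝ) ≤ y * Real.exp (((i : ℝ) + 1 - 100) / (100 * lam)) then (win_c i : ℝ) / 100
      else 0 := by
  generalize hu : Real.log ((p : ℝ) / y) = u
  have hp0 : (0 : ℝ) < p := by exact_mod_cast hp
  have hpu : (p : ℝ) = y * Real.exp u := by
    rw [← hu, Real.exp_log (by positivity)]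
    field_simp
  by_cases h : 1 ≤ |lam * u|
  · have : tri (lam * u) = 0 := by
      unfold tri
      exact max_eq_left (by linarith)
    rw [this]
    exact Finset.sum_nonneg (fun i _ => by split_ifs <;> positivity)
  · push Not at h
    obtain ⟨h1, h2⟩ := abs_lt.mp h
    have f1 : ((⌊100 * (lam * u)⌋ : ℤ) : ℝ) ≤ 100 * (lam * u) := Int.floor_le _
    have f2 : 100 * (lam * u) < (⌊100 * (lam * u)⌋ : ℤ) + 1 := Int.lt_floor_add_one _
    have g1 : -100 ≤ ⌊100 * (lam * u)⌋ := Int.le_floor.mpr (by push_cast; linarith)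
    have g2 : ⌊100 * (lam * u)⌋ < 100 := Int.floor_lt.mpr (by push_cast; linarith)
    generalize ⌊100 * (lam * u)⌋ = i0 at f1 f2 g1 g2
    obtain ⟨i, hi⟩ : ∃ i : ℕ, (i : ℤ) = i0 + 100 :=
      ⟨(i0 + 100).toNat, Int.toNat_of_nonneg (by omega)⟩
    have hi' : (i : ℝ) = i0 + 100 := by exact_mod_cast hi
    have hi200 : i < 200 := by omega
    have e1 : y * Real.exp (((i : ℝ) - 100) / (100 * lam)) ≤ p := by
      rw [hpu]
      refine mul_le_mul_of_nonneg_left (Real.exp_le_exp.mpr ?_) hy.le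
      rw [div_le_iff₀ (by positivity)]
      linarith
    have e2 : (p : ℝ) ≤ y * Real.exp (((i : ℝ) + 1 - 100) / (100 * lam)) := by
      rw [hpu]
      refine mul_le_mul_of_nonneg_left (Real.exp_le_exp.mpr ?_) hy.le
      rw [le_div_iff₀ (by positivity)]
      linarith
    have hc : tri (lam * u) ≤ (win_c i : ℝ) / 100 := by
      unfold tri win_c
      refine max_le (by positivity) ?_
      split_ifs with h100
      · have hneg : i0 < 0 := by omega
        have hneg' : (i0 : ℝ) + 1 ≤ 0 := by exact_mod_cast hneg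
        rw [abs_of_neg (by linarith)]
        push_cast
        linarith
      · have hnn : 0 ≤ i0 := by omega
        have hnn' : (0 : ℝ) ≤ i0 := by exact_mod_cast hnn
        rw [abs_of_nonneg (by linarith), Nat.cast_sub (by omega)]
        push_cast
        linarith
    calc tri (lam * u) ≤ (win_c i : ℝ) / 100 := hc
      _ = (if y * Real.exp (((i : ℝ) - 100) / (100 * lam)) ≤ p ∧
        (p : ℝ) ≤ y * Real.exp (((i : ℝ) + 1 - 100) / (100 * lam)) then (win_c i : ℝ) / 100
        else 0) := (if_pos ⟨e1, e2⟩).symm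
      _ ≤ _ := Finset.single_le_sum (f := fun i : ℕ =>
        if y * Real.exp (((i : ℝ) - 100) / (100 * lam)) ≤ p ∧
        (p : ℝ) ≤ y * Real.exp (((i : ℝ) + 1 - 100) / (100 * lam)) then (win_c i : ℝ) / 100
        else 0) (fun i _ => by split_ifs <;> positivity) (mem_range.mpr hi200)

private lemma win_exp (x : ℝ) (hx0 : 0 ≤ x) (hx : x ≤ 1 / 2000) :
    Real.exp x ≤ 1 + 1.001 * x := by
  have h1 : 1 - x ≤ Real.exp (-x) := Real.one_sub_le_exp_neg x
  have h2 : Real.exp x * Real.exp (-x) = 1 := by rw [← Real.exp_add]; simp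
  have h3 := Real.exp_pos x
  have h4 : Real.exp x * (1 - x) ≤ 1 := (mul_le_mul_of_nonneg_left h1 h3.le).trans h2.le
  have h5 : 1 ≤ (1 + 1.001 * x) * (1 - x) := by nlinarith
  have h6 : 0 < 1 - x := by linarith
  exact le_of_mul_le_mul_right (h4.trans h5) h6

private lemma win_count (C : ℝ) (hC : 0 ≤ C) (E : ℕ)
    (hsh : ∀ (S : Finset ℕ) (a b : ℝ), 2 ≤ a → a ≤ b →
      (∀ p ∈ S, p.Prime ∧ a ≤ p ∧ (p : ℝ) ≤ b) →
      ∑ p ∈ S, Real.log p ≤ b - a + C * b / Real.log a ^ (E + 1))
    (lam y : ℝ) (hl : 2000 ≤ lam) (hly : 100 ≤ Real.log y) (hy : 0 < y) (S : Finset ℕ) (i : ℕ)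
    (hi : i < 200) (hS : ∀ p ∈ S, p.Prime ∧ y * Real.exp (((i : ℝ) - 100) / (100 * lam)) ≤ p ∧
        (p : ℝ) ≤ y * Real.exp (((i : ℝ) + 1 - 100) / (100 * lam))) :
    (S.card : ℝ) ≤ (1.001 / 0.999) * (y / Real.log y) *
      (1.001 / (100 * lam) + C / (Real.log y / 2) ^ (E + 1)) := by
  have hl0 : 0 < lam := by linarith
  have hi0 : (0 : ℝ) ≤ i := Nat.cast_nonneg i
  have hi1 : (i : ℝ) ≤ 199 := by exact_mod_cast (show i ≤ 199 by omega)
  have hL0 : 0 < Real.log y := by linarith
  have hil : 1 / lam ≤ 1 / 2000 := one_div_le_one_div_of_le (by norm_num) hl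
  have hil0 : 0 < 1 / lam := by positivity
  have hcexp : ((i : ℝ) - 100) / (100 * lam) = ((i : ℝ) - 100) / 100 * (1 / lam) := by
    field_simp
  have hcexp' : ((i : ℝ) + 1 - 100) / (100 * lam) = ((i : ℝ) - 99) / 100 * (1 / lam) := by
    field_simp
    ring
  -- t = lower end
  obtain ⟨t, ht⟩ : ∃ t, t = y * Real.exp (((i : ℝ) - 100) / (100 * lam)) := ⟨_, rfl⟩
  have ht0 : 0 < t := by rw [ht]; positivity
  have htn : y * Real.exp (((i : ℝ) + 1 - 100) / (100 * lam)) = t * Real.exp (1 / (100 * lam)) := by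
    rw [ht, mul_assoc, ← Real.exp_add]
    congr 2
    field_simp
    ring
  have hlt : Real.log t = Real.log y + ((i : ℝ) - 100) / (100 * lam) := by
    rw [ht, Real.log_mul hy.ne' (Real.exp_pos _).ne', Real.log_exp]
  have hlt1 : 0.999 * Real.log y ≤ Real.log t := by
    rw [hlt, hcexp]
    have : -1 * (1 / lam) ≤ ((i : ℝ) - 100) / 100 * (1 / lam) :=
      mul_le_mul_of_nonneg_right (by linarith) hil0.le
    nlinarith
  have hty : t ≤ 1.001 * y := by
    rw [ht]
    have h1 : Real.exp (((i : ℝ) - 100) / (100 * lam)) ≤ 1.001 := by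
      refine (Real.exp_le_exp.mpr (?_ : _ ≤ 1 / lam)).trans ?_
      · rw [hcexp]
        calc ((i : ℝ) - 100) / 100 * (1 / lam) ≤ 1 * (1 / lam) :=
              mul_le_mul_of_nonneg_right (by linarith) hil0.le
          _ = 1 / lam := one_mul _
      · have := win_exp (1 / lam) hil0.le hil
        linarith
    nlinarith
  have htny : t * Real.exp (1 / (100 * lam)) ≤ 1.001 * y := by
    rw [← htn]
    have h1 : Real.exp (((i : ℝ) + 1 - 100) / (100 * lam)) ≤ 1.001 := by
      refine (Real.exp_le_exp.mpr (?_ : _ ≤ 1 / lam)).trans ?_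
      · rw [hcexp']
        calc ((i : ℝ) - 99) / 100 * (1 / lam) ≤ 1 * (1 / lam) :=
              mul_le_mul_of_nonneg_right (by linarith) hil0.le
          _ = 1 / lam := one_mul _
      · have := win_exp (1 / lam) hil0.le hil
        linarith
    nlinarith
  have hh0 : 0 < 1 / (100 * lam) := by positivity
  have hh : 1 / (100 * lam) ≤ 1 / 2000 := by
    refine one_div_le_one_div_of_le (by norm_num) ?_
    linarith
  have hdiff : t * Real.exp (1 / (100 * lam)) - t ≤ 1.001 * y * (1.001 / (100 * lam)) := by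
    have h1 := win_exp (1 / (100 * lam)) hh0.le hh
    have h2 : t * Real.exp (1 / (100 * lam)) - t ≤ t * (1.001 * (1 / (100 * lam))) := by
      have := mul_le_mul_of_nonneg_left h1 ht0.le
      nlinarith
    have h3 : 1.001 * (1 / (100 * lam)) = 1.001 / (100 * lam) := by ring
    rw [h3] at h2
    have h4 : (0 : ℝ) ≤ 1.001 / (100 * lam) := by positivity
    exact h2.trans (mul_le_mul_of_nonneg_right hty h4)
  have hlt0 : 0 < Real.log t := by nlinarith
  have ht2 : 2 ≤ t := by
    by_contra hcon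
    push Not at hcon
    have : Real.log t < Real.log 2 := Real.log_lt_log ht0 hcon
    have h2 := Real.log_two_lt_d9
    nlinarith
  have hexp1 : 1 ≤ Real.exp (1 / (100 * lam)) := Real.one_le_exp hh0.le
  have hmain := hsh S t (t * Real.exp (1 / (100 * lam))) ht2 (by nlinarith) (by
    intro p hp
    obtain ⟨k1, k2, k3⟩ := hS p hp
    rw [htn] at k3
    rw [← ht] at k2
    exact ⟨k1, k2, k3⟩)
  have hcard : (S.card : ℝ) * Real.log t ≤ ∑ p ∈ S, Real.log p := by
    rw [← nsmul_eq_mul]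
    refine Finset.card_nsmul_le_sum _ _ _ fun p hp => ?_
    have := (hS p hp).2.1
    rw [← ht] at this
    exact Real.log_le_log ht0 this
  have hden : (Real.log y / 2) ^ (E + 1) ≤ Real.log t ^ (E + 1) :=
    pow_le_pow_left₀ (by positivity) (by linarith) _
  have hden0 : 0 < (Real.log y / 2) ^ (E + 1) := by positivity
  have h2 : C * (t * Real.exp (1 / (100 * lam))) / Real.log t ^ (E + 1) ≤
      1.001 * y * (C / (Real.log y / 2) ^ (E + 1)) := by
    calc C * (t * Real.exp (1 / (100 * lam))) / Real.log t ^ (E + 1)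
        ≤ C * (1.001 * y) / (Real.log y / 2) ^ (E + 1) :=
          div_le_div₀ (by positivity) (mul_le_mul_of_nonneg_left htny hC) hden0 hden
      _ = 1.001 * y * (C / (Real.log y / 2) ^ (E + 1)) := by ring
  have h3 : (S.card : ℝ) * Real.log t ≤
      1.001 * y * (1.001 / (100 * lam) + C / (Real.log y / 2) ^ (E + 1)) := by
    rw [mul_add]
    linarith
  have h4 : (S.card : ℝ) * (0.999 * Real.log y) ≤
      1.001 * y * (1.001 / (100 * lam) + C / (Real.log y / 2) ^ (E + 1)) :=
    (mul_le_mul_of_nonneg_left hlt1 (Nat.cast_nonneg _)).trans h3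
  rw [← le_div_iff₀ (by positivity)] at h4
  refine h4.trans (le_of_eq ?_)
  field_simp

private lemma win_core (C : ℝ) (hC : 0 ≤ C) (E : ℕ)
    (hsh : ∀ (S : Finset ℕ) (a b : ℝ), 2 ≤ a → a ≤ b →
      (∀ p ∈ S, p.Prime ∧ a ≤ p ∧ (p : ℝ) ≤ b) →
      ∑ p ∈ S, Real.log p ≤ b - a + C * b / Real.log a ^ (E + 1))
    (lam y : ℝ) (hl : 2000 ≤ lam) (hly : 100 ≤ Real.log y) (hy : 0 < y) (S : Finset ℕ)
    (hS : ∀ p ∈ S, p.Prime) (hlamy : lam ≤ (8 * Real.log y) ^ E)
    (hlast : 2 * 16 ^ E * C / Real.log y ≤ 1 / 100000) :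
    lam * ∑ p ∈ S, tri (lam * Real.log ((p : ℝ) / y)) ≤ 1.02 * y / Real.log y := by
  have hl0 : 0 < lam := by linarith
  have hL0 : 0 < Real.log y := by linarith
  obtain ⟨X, hX⟩ : ∃ X, X = (1.001 / 0.999) * (y / Real.log y) *
      (1.001 / (100 * lam) + C / (Real.log y / 2) ^ (E + 1)) := ⟨_, rfl⟩
  have h1 : ∑ p ∈ S, tri (lam * Real.log ((p : ℝ) / y)) ≤ 101 * X := by
    calc ∑ p ∈ S, tri (lam * Real.log ((p : ℝ) / y))
        ≤ ∑ p ∈ S, ∑ i ∈ range 200,
          (if y * Real.exp (((i : ℝ) - 100) / (100 * lam)) ≤ p ∧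
            (p : ℝ) ≤ y * Real.exp (((i : ℝ) + 1 - 100) / (100 * lam)) then (win_c i : ℝ) / 100
          else 0) := Finset.sum_le_sum fun p hp => win_cell lam y hl0 hy p (hS p hp).pos
      _ = ∑ i ∈ range 200, ∑ p ∈ S,
          (if y * Real.exp (((i : ℝ) - 100) / (100 * lam)) ≤ p ∧
            (p : ℝ) ≤ y * Real.exp (((i : ℝ) + 1 - 100) / (100 * lam)) then (win_c i : ℝ) / 100
          else 0) := Finset.sum_comm
      _ ≤ ∑ i ∈ range 200, (win_c i : ℝ) / 100 * X := by
          refine Finset.sum_le_sum fun i hi => ?_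
          rw [← Finset.sum_filter, Finset.sum_const, nsmul_eq_mul, mul_comm]
          refine mul_le_mul_of_nonneg_left ?_ (by positivity)
          rw [hX]
          refine win_count C hC E hsh lam y hl hly hy _ i (mem_range.mp hi) fun p hp => ?_
          obtain ⟨k1, k2⟩ := mem_filter.mp hp
          exact ⟨hS p k1, k2⟩
      _ = 101 * X := by rw [← Finset.sum_mul, win_csum]
  have h2 : lam * (101 * X) ≤ 1.02 * y / Real.log y := by
    have hpow : (8 * Real.log y) ^ E / (Real.log y / 2) ^ (E + 1) = 2 * 16 ^ E / Real.log y := by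
      rw [mul_pow, div_pow, pow_succ, pow_succ, show (16 : ℝ) = 8 * 2 by norm_num, mul_pow]
      field_simp
    have h3 : lam * (C / (Real.log y / 2) ^ (E + 1)) ≤ 1 / 100000 := by
      calc lam * (C / (Real.log y / 2) ^ (E + 1))
          ≤ (8 * Real.log y) ^ E * (C / (Real.log y / 2) ^ (E + 1)) :=
            mul_le_mul_of_nonneg_right hlamy (by positivity)
        _ = C * ((8 * Real.log y) ^ E / (Real.log y / 2) ^ (E + 1)) := by ring
        _ = 2 * 16 ^ E * C / Real.log y := by rw [hpow]; ring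
        _ ≤ 1 / 100000 := hlast
    have h4 : lam * (1.001 / (100 * lam) + C / (Real.log y / 2) ^ (E + 1)) ≤ 0.01002 := by
      rw [mul_add]
      have : lam * (1.001 / (100 * lam)) = 0.01001 := by
        field_simp
        norm_num
      rw [this]
      linarith
    have hyl : 0 < y / Real.log y := by positivity
    calc lam * (101 * X) = 101 * (1.001 / 0.999) * (y / Real.log y) *
          (lam * (1.001 / (100 * lam) + C / (Real.log y / 2) ^ (E + 1))) := by rw [hX]; ring
      _ ≤ 101 * (1.001 / 0.999) * (y / Real.log y) * 0.01002 :=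
          mul_le_mul_of_nonneg_left h4 (by positivity)
      _ ≤ 1.02 * (y / Real.log y) := by nlinarith
      _ = 1.02 * y / Real.log y := by ring
  exact (mul_le_mul_of_nonneg_left h1 hl0.le).trans h2

theorem p_win : S_win := by
  intro h E hE
  obtain ⟨C, hC, hsh⟩ := h (E + 1)
  filter_upwards [eventually_ge_atTop (⌈Real.exp (2000 + 16 * 16 ^ E * C * 100000)⌉₊ + 1)]
    with J hJ y hy S hS
  have hJ1 : Real.exp (2000 + 16 * 16 ^ E * C * 100000) ≤ J := by
    refine (Nat.le_ceil _).trans ?_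
    exact_mod_cast (show ⌈Real.exp (2000 + 16 * 16 ^ E * C * 100000)⌉₊ ≤ J by omega)
  have hJ0 : (0 : ℝ) < J := lt_of_lt_of_le (Real.exp_pos _) hJ1
  have hL : 2000 + 16 * 16 ^ E * C * 100000 ≤ Real.log J := (Real.le_log_iff_exp_le hJ0).mpr hJ1
  have hCC : 0 ≤ 16 * 16 ^ E * C * 100000 := by positivity
  have hL1 : 2000 ≤ Real.log J := by linarith
  have hy0 : 0 < y := lt_of_lt_of_le (Real.rpow_pos_of_pos hJ0 _) hy
  have hly : Real.log J / 8 ≤ Real.log y := by
    have := Real.log_le_log (Real.rpow_pos_of_pos hJ0 _) hy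
    rw [Real.log_rpow hJ0] at this
    linarith
  have hlam : 2000 ≤ Real.log J ^ E := by
    calc (2000 : ℝ) ≤ Real.log J := hL1
      _ = Real.log J ^ 1 := (pow_one _).symm
      _ ≤ Real.log J ^ E := pow_le_pow_right₀ (by linarith) hE
  refine win_core C hC E hsh _ y hlam (by linarith) hy0 S hS ?_ ?_
  · exact pow_le_pow_left₀ (by linarith) (by linarith) E
  · rw [div_le_iff₀ (by linarith)]
    linarith

end Pool.Agent.CA.SV
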