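import Pool.Agent.Lib.MP_d610d0_nt.CA.SV.Asm
import Pool.Agent.Lib.MP_d610d0_nt.CA.SV.p_red
import Pool.Agent.Lib.MP_d610d0_nt.CA.SV.p_tt
import Pool.Agent.Lib.MP_d610d0_nt.CA.SV.p_m1
import Pool.Agent.Lib.MP_d610d0_nt.CA.SV.p_tup
import Pool.Agent.Lib.MP_d610d0_nt.CA.SV.p_cell
import Pool.Agent.Lib.MP_d610d0_nt.CA.SV.p_win
import Pool.Agent.Lib.MP_d610d0_nt.CA.SV.p_ptw
import Pool.Agent.Lib.MP_d610d0_nt.CA.SV.p_num
import Pool.Agent.Lib.MP_d610d0_nt.CA.SV.p_lw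
import Pool.Agent.Lib.MP_d610d0_nt.CA.SV.p_ms
import Pool.Agent.Lib.MP_d610d0_nt.CA.SV.p_sel
import Pool.Agent.Lib.MP_d610d0_nt.CA.SV.p_cls
import Pool.Agent.Lib.MP_d610d0_nt.CA.SV.p_gt
import Pool.Agent.Lib.MP_d610d0_nt.CA.SV.p_tl
import Pool.Agent.Lib.MP_d610d0_nt.CA.SV.p_gw
import Pool.Agent.Lib.MP_d610d0_nt.CA.SV.p_se
import Pool.Agent.Lib.MP_d610d0_nt.CA.SV.p_bg
import Pool.Agent.Lib.MP_d610d0_nt.CA.SV.p_V
import Pool.Agent.Lib.MP_d610d0_nt.CA.SV.p_sq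
import Pool.Agent.Lib.MP_d610d0_nt.CA.SV.p_rr
import Pool.Agent.Lib.MP_d610d0_nt.CA.SV.p_sw
import Pool.Agent.Lib.MP_d610d0_nt.CA.SV.p_lo
import Pool.Agent.Lib.MP_d610d0_nt.CA.SV.p_up
import Pool.Agent.Lib.MP_d610d0_nt.CA.SV.p_one
import Pool.Agent.Lib.MP_d610d0_nt.CA.SV.p_fin

set_option autoImplicit false

/-!
Project CA, section SV: the final statement from the six interfaces.
-/

namespace Pool.Agent.CA.SV

/-- From the interfaces to the final statement. -/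
theorem main : I_LL → I_SL → I_CL → I_LB → I_SB → I_CB → I_final :=
  fun iLL iSL iCL iLB iSB iCB => of_pieces iLL iSL iCL iLB iSB iCB
    p_red p_tt p_m1 p_tup p_cell p_win p_ptw p_num p_lw p_ms p_sel p_cls p_gt p_tl p_gw p_se p_bg p_V p_sq p_rr p_sw p_lo p_up p_one p_fin

end Pool.Agent.CA.SV
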