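import Pool.Agent.Lib.MP_d610d0_nt.CA.SV.Defs

set_option autoImplicit false

/-!
Project CA, section SV: statements of the pieces with complete proofs in words. `R_x` is a conclusion, `S_x` the
statement to be proved. Each piece is proved in its own file `CA/SV/p_x.lean` as `theorem p_x : S_x`
(`S_x` may be an implication).

Many pieces are adaptations of pieces of the project CH; the file to copy from is named. Notation: `s = ⌊√J⌋ = Nat.sqrt J`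
(`s^2 ≤ J < (s+1)^2`), `z = zc J = (3 s)^(3/8)`, `z^16 = 729 s^6 = 27 * 27 s^6`, so `27 J^3 * 20 ≤ z^16 ≤ 729 J^3` for
large `J`; `log z = (3/8)(log 3 + log s)`, so `3 L ≤ 16 log z ≤ 3 L + 6 log 3` for large `J` (`L = log J`).
-/

namespace Pool.Agent.CA.SV

open Finset Filter
open scoped ArithmeticFunction.Omega
open Pool.Agent.MP89da58 (tri primChars)
open Pool.Agent.CH (zJ wJ wL Rough VV Wt dsum thP EE Rk)
open Pool.Agent.CH.F (mu SW)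
open Pool.Agent.CH.M2 (Sp TS I_pnt S_tup1 S_tup2 S_log2 S_mer S_sh)
open Pool.Agent.CH.D (FL FT Sf R_grp R_cfs R_pp R_m1a)

/-! ### A. From characters to residue classes -/

/-- [SV red] (adapt `CH/D/p_red.lean`; there is one window instead of a sum over the windows, and no squares)
Proof. `c q ≠ 0` implies `q` odd with all prime factors `< zc J`, so `q` is coprime to `a = ±2` and to all `n ≥ 1` with
`F J n ≠ 0`, `wJ J j n ≠ 0` (rough). R_grp with `Q = s = Nat.sqrt J`; put `C_p = p.2⁻¹(a) ∑_q c q/φ(q)`. By R_cfs (applied with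
`s` in the place of `J`) `‖C_p‖ ≤ 100 (log s + 1)^3/r ≤ K/r`, `K = 100 (L+1)^3`, and `C_p = 0` if `r = p.1 > Y = s^(999/1000)`
(`Y ≤ J^(4995/10000)`). `B` from LCw for `A + 20`, `R0 = ⌈L^B⌉`, `Y0 = ⌊Y⌋`. Characters with `r ≤ R0`: at most `R0^2`
(`Pool.Agent.MP89da58.card_primChars`), each `‖C_p Sf‖ ≤ K J^2/L^(A')` with SCw for `A' = A + 2B + 30` and `B + 1`
(`R0 ≤ 2 L^B ≤ L^(B+1)`). The rest: blocks `R_i < r ≤ R_(i+1)`, `R_i = min (2^i R0) Y0`, `i < I = ⌈2L⌉`: `‖C_p‖ ≤ K/r ≤ 2K/R_(i+1)`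
(`R_(i+1) ≤ 2 R_i < 2 r`), LCw at `R_(i+1)` (`≤ Y ≤ J^(4998/10000)`): a block contributes at most `2 K J^2/L^(A+20)`. -/
def S_red : Prop := R_grp → R_cfs → ∀ F : ℕ → ℕ → ℝ, LCw F → SCw F →
  (∀ᶠ J : ℕ in atTop, ∀ j ∈ Ioc J (2 * J), ∀ n, 1 ≤ n → F J n ≠ 0 → wJ J j n ≠ 0 →
    Rough (zc J) n) → ∀ a : ℤ, a = 2 ∨ a = -2 → Fin1 F a

/-- [SV tt] From `Λ` to the primes (adapt `CH/D/p_TT.lean`).
Proof. Let `Δ n = Λ n - thP n ≥ 0`. For `1 ≤ J`, a window `j` and any character `‖Sf (FL) - Sf (FT)‖ ≤ ∑ Δ wJ ≤ J^(3/5)` (R_pp).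
Large conductors: the sum over the at most `R^2` characters changes by at most `R^2 J^(3/5) ≤ R J^(1/2) J^(3/5) ≤ R J^2/(2 L^A)`, so use LCw FL with
`A + 1`. Small conductors: clear. Comparison: `2 J J^(3/5)` and `L^E J^(8/5)` (`0 ≤ wL ≤ 1`) are `≤ J^3/(4 L^A)`. -/
def S_tt : Prop := R_pp → LCw FL → SCw FL → CMw FL → LCw FT ∧ SCw FT ∧ CMw FT

/-- The mass of the primes. -/
def R_m1 : Prop := ∀ᶠ J : ℕ in atTop, ∀ j ∈ Ioc J (2 * J),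
  0.999 * mu J j ≤ ∑ n ∈ Icc 1 (27 * J ^ 3), thP n * wJ J j n

/-- [SV m1] (adapt `CH/D/p_m1.lean`) Proof: `E = E0 + 1` in `CMw FT` for `A = 1`. `2 J ∑ thP wJ ≥ L^E ∑ thP wL - J^3/L
≥ L^E ∑ Λ wL - L^E J^(8/5) - J^3/L ≥ x - x/L - L^E J^(8/5) - J^3/L ≥ 0.999 x` (R_m1a, R_pp, `wL ≤ 1`, `x ≥ J^3`); divide by `2 J`
(`mu J j = x/(2J)`). -/
def S_m1 : Prop := R_pp → R_m1a → CMw FT → R_m1

/-! ### B. The mass of the switched sequence -/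

/-- Sums over tuples are bounded by the recursion on the cells. -/
def R_tup : Prop := ∀ (K : ℕ) (S : Finset ℕ) (m : ℕ → ℕ) (w a Φ : ℕ → ℝ) (r : ℕ),
  (∀ p ∈ S, 0 ≤ w p) → (∀ i, 0 ≤ Φ i) → (∀ i, K ≤ i → Φ i = 0) →
  (∀ i, i < K → ∑ p ∈ S.filter (fun p => m p = i), w p ≤ a i) →
  ∑ q ∈ Fintype.piFinset (fun _ : Fin r => S), (∏ i, w (q i)) * Φ (∑ i, m (q i)) ≤
    ((Us K a)^[r] Φ) 0

/-- [SV tup] Proof: `CH/M2/tup3.lean` with `K` instead of `112`. -/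
def S_tup : Prop := R_tup

/-- The sum of `1 / p` over the cells. -/
def R_cell : Prop := ∀ᶠ J : ℕ in atTop, ∀ N i : ℕ, i < 120 →
  ∑ p ∈ (Sp (zc J) N).filter (fun p => m8 (zc J) p = i), 1 / (p : ℝ) ≤ a8 i

/-- [SV cell] (adapt `CH/M2/cell.lean`: `zc J`, `8` and `120` instead of `zJ J`, `16` and `112`)
Proof. `z = zc J → ∞`. `C` from `S_mer`; `J` so large that `z ≥ 2`, `log z ≥ 12000 C`. If `i < 8` the filter is empty (`p ≥ z` gives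
`8 log p/log z ≥ 8`). If `8 ≤ i < 120` a prime `p` with `m8 z p = i` satisfies `a ≤ p ≤ b`, `a = z^(i/8) ≥ z ≥ 2`,
`b = z^((i+1)/8)`, and the sum is `≤ log((i+1)/i) + C/log a ≤ (2i+1)/(2i(i+1)) + C/log z`, where
`(2i+1)/(2i(i+1)) ≥ 1/(i+1) ≥ 1/120`, so `C/log z ≤ 0.01 * (..)`. -/
def S_cell : Prop := S_log2 → S_mer → R_cell

/-- Primes in a long window. -/
def R_win : Prop := ∀ E : ℕ, 1 ≤ E → ∀ᶠ J : ℕ in atTop, ∀ y : ℝ,
  (J : ℝ) ^ (1 / 8 : ℝ) ≤ y → ∀ S : Finset ℕ, (∀ p ∈ S, p.Prime) →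
  Real.log J ^ E * ∑ p ∈ S, tri (Real.log J ^ E * Real.log ((p : ℝ) / y)) ≤ 1.02 * y / Real.log y

/-- [SV win] Proof: `CH/M2/win.lean` (there `J^(1/4) ≤ y`, `log y ≥ L/4`) with `J^(1/8) ≤ y`, `log y ≥ L/8`: replace `4` by `8` at the
places where `log y ≥ L/4` is used (`lam = L^E ≤ (8 log y)^E`, the constant `8^E` becomes `16^E`). -/
def S_win : Prop := S_sh → R_win

/-- The innermost prime. -/
def R_ptw : Prop := ∀ E : ℕ, 1 ≤ E → ∀ᶠ J : ℕ in atTop, ∀ j ∈ Ioc J (2 * J),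
  ∀ (N r : ℕ) (q : Fin r → ℕ), (∀ i, q i ∈ Sp (zc J) N) →
  Real.log J ^ E * ∑ p ∈ Sp (zc J) N, wL (Real.log J ^ E) j (p * ∏ i, q i) ≤
    1.03 * ((j : ℝ) + 1 / 2) ^ 3 / Real.log (zc J) *
      ((∏ i, 1 / (q i : ℝ)) * Ph r (∑ i, m8 (zc J) (q i)))

/-- [SV ptw] (adapt `CH/M2/ptw.lean`)
Proof. `z = zc J`, `lam = L^E ≥ 2`, `x = (j+1/2)^3 ≤ 15.625 J^3`, `P = ∏ q i`, `M = ∑ m8 z (q i)`, `y = x/P`;
`M log z/8 ≤ log P ≤ (M + r) log z/8`. The right side is `≥ 0`.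
(a) `P ≥ z^15`: every `p ∈ Sp z N` has `p P ≥ z^16 = 729 s^6 ≥ 27 J^3 ≥ 1.7 x ≥ x exp(1/lam)` for large `J`, so `tri = 0`.
(b) `P < z^15`: `M/8 < 15`, `M < 120`. If `y < z exp(-1/lam)` the left side is `0`. Otherwise `y ≥ z/2 ≥ J^(1/8)` and R_win gives
left side `≤ 1.02 y/log y`; `log y ≥ log z - 1/lam ≥ 0.995 log z`, and `log y = log x - log P ≥ 3L - (M+r) log z/8
≥ (16 - 0.005 - (M+r)/8) log z` (`16 log z ≤ 3L + 6 log 3 ≤ 3 L + 0.005 log z` for large `J`), so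
`log y ≥ 0.995 * log z * max 8 (128 - M - r)/8`. `1.02/0.995 ≤ 1.03`. -/
def S_ptw : Prop := R_win → R_ptw

/-- The numerics. -/
def R_num : Prop :=
  ∑ r ∈ Icc 5 14, 16 / ((r + 1).factorial : ℝ) * ((Us 120 a8)^[r] (Ph r)) 0 ≤ 0.1945 ∧
  ∑ k ∈ Icc 5 7, 1 / (k.factorial : ℝ) * ((Us 58 a8)^[k] P58) 0 ≤ 0.0015

/-- [SV num] (kernel computation, compare `CH/M2/num.lean`) The true values are `0.19424..` and `0.001481..`.
Proof. As `CH/M2/num.lean`: `aN i = if 8 ≤ i then 505000 * (2 * i + 1) / (i * (i + 1)) + 1 else 0` (natural division) satisfies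
`10^6 * a8 i ≤ aN i`, `pN r M = 8000000 / max 8 (128 - M - r) + 1` for `M < 120`; lists of natural numbers. To make it cheaper use the
transposed recursion: `((Us K a)^[r] Φ) 0 = ∑_(M < K) D_r M * Φ M` for `Φ` vanishing on `[K, ∞)`, where `D_0 = (1, 0, 0, ..)` and
`D_(r+1) M = ∑_(i ≤ M) a i * D_r (M - i)`; so only 14 convolutions of lists of length 120 are needed. (Keep the numbers small: after each
step divide by `10^6` rounding up.) -/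
def S_num : Prop := R_num

/-- Long windows. -/
def R_lw : Prop := ∀ E : ℕ, 1 ≤ E → ∀ᶠ J : ℕ in atTop, ∀ j ∈ Ioc J (2 * J),
  Real.log J ^ E * ∑ n ∈ Icc 1 (27 * J ^ 3), RB J n * wL (Real.log J ^ E) j n ≤
    0.205 * (((j : ℝ) + 1 / 2) ^ 3 / (3 * Real.log J))

/-- [SV lw] (adapt `CH/M2/lw.lean`)
Proof. `N = 27 J^3`, `z = zc J`, `lam = L^E`. `Bk k J n ≤ k! * Rk z k n` (the tuples with entries in `[z, Yc J]` are among the tuples with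
entries `≥ z`; `bx`, `Rk` are cardinalities). For `k = r + 1`, `r = 5, ..., 14`: by `S_tup1`, `S_tup2`
`∑_n Rk z k n * wL lam j n ≤ (1/k!) TS S r (fun P => ∑ p ∈ S, wL lam j (p * P))`, `S = Sp z N`. By R_ptw, times `lam`, this is
`≤ (1/k!) * 1.03 x/log z * ∑_q (∏ 1/q i) * Ph r (∑ m8 z (q i))`, and by R_tup (`K = 120`, `w p = 1/p`, `m = m8 z`, `a = a8`,
`Φ = Ph r`, R_cell) `≤ (1/k!) * 1.03 x/log z * ((Us 120 a8)^[r] (Ph r)) 0`. The sum over `r` is, by R_num,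
`≤ 1.03 x/(16 log z) * 0.1945`, and `16 log z ≥ 3 L` for large `J`; `1.03 * 0.1945 ≤ 0.205`. -/
def S_lw : Prop := S_tup1 → S_tup2 → R_tup → R_cell → R_ptw → R_num → R_lw

/-- The mass of the switched sequence. -/
def R_ms : Prop := ∀ᶠ J : ℕ in atTop, ∀ j ∈ Ioc J (2 * J),
  ∑ n ∈ Icc 1 (27 * J ^ 3), RB J n * wJ J j n ≤ 0.21 * mu J j / (3 * Real.log J)

/-- [SV ms] Proof: `E` = the maximum of `1` and of the `E0` of `CMw (Bk k)` for `A = 2`, `6 ≤ k ≤ 15`. Then, with the weights `1/k!` (sum `≤ 1`),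
`2 J ∑ RB wJ ≤ L^E ∑ RB wL + J^3/L^2 ≤ 0.205 x/(3L) + J^3/L^2 ≤ 0.21 x/(3L)` for large `J` (`x ≥ J^3`), and `mu J j = x/(2J)`. -/
def S_ms : Prop := (∀ k ∈ Icc 6 15, CMw (Bk k)) → R_lw → R_ms

/-! ### C. Numbers with a prime factor larger than `Yc J` -/

/-- Selberg's sieve in orthogonal form. -/
def R_sel : Prop := ∀ (C : ℕ → Finset ℕ) (D : Finset ℕ),
  (∀ r ∈ D, Squarefree r ∧ ∀ p ∈ r.primeFactors, (∀ a ∈ C p, a < p) ∧ (C p).card < p) →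
  ∀ (T : Finset ℕ) (s N : ℕ), T ⊆ Ico s (s + N) →
  (∀ t ∈ T, ∀ r ∈ D, ∀ p ∈ r.primeFactors, t % p ∉ C p) →
  (T.card : ℝ) * GS C D ^ 2 ≤ N * GS C D + WS C D ^ 2

/-- [SV sel] (adapt `Lib/MP_d610d0_nt/Psi.lean`, `quad_form`; general tools in `AP.lean`, `Avg.lean`: `APW, APW.mul, APW.prod, APW.disc_avg, Per, avg,
avg_mul_coprime, avg_dvd`)
Proof. `psi p t = if t % p ∈ C p then -1 else gs C p = gs C p - (1 + gs C p) * ∑_(a ∈ C p) ind p a t`, `psiR r t = ∏ p ∈ r.primeFactors, psi p t`.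
`avg p (psi p) = 0`, `avg p (psi p ^ 2) = gs C p`, `APW (psi p) (gs C p * (p + 1))` (with `c = card`: `g + (1 + g) c = c (p+1)/(p-c)`). So for `r, u ∈ D`:
`|∑_(t ∈ Ico s (s+N)) psiR r t * psiR u t - N * (if r = u then ∏ gs else 0)| ≤ W r * W u`, and
`∑_(t ∈ Ico) (∑_(r ∈ D) psiR r t)^2 ≤ N * GS C D + WS C D ^ 2`. For `t ∈ T` the inner sum is `GS C D`. -/
def S_sel : Prop := R_sel

/-- The residue classes. -/
def R_cls : Prop := ∀ e p : ℕ, p.Prime → ¬ p ∣ e → (cl e p).card = if p = 2 then 1 else 2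

/-- [SV cls] Proof: `p = 2`: `e` is odd, `t = 0` is in, `t = 1` is not (`e - 2` odd). `p` odd: the two classes are `0` and the class `t0` of `2 e⁻¹`
modulo `p`, which is not `0` (work in `ZMod p`). -/
def S_cls : Prop := R_cls

/-- Comparison of squarefree numbers with all numbers. -/
def R_gt : Prop := ∀ (c f : ℕ → ℝ), (∀ p : ℕ, p.Prime → 0 ≤ c p ∧ c p < p) → f 1 = 1 →
  (∀ p n : ℕ, p.Prime → 1 ≤ n → f (p * n) = c p * f n) → ∀ (P : Finset ℕ), (∀ p ∈ P, p.Prime) →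
  ∀ N : ℕ, ∑ n ∈ (Icc 1 N).filter (fun n => n.primeFactors ⊆ P), f n / n ≤
    ∑ r ∈ (Icc 1 N).filter (fun r => Squarefree r ∧ r.primeFactors ⊆ P),
      ∏ p ∈ r.primeFactors, (c p / ((p : ℝ) - c p))

/-- [SV gt] Proof. Induction on `P`. Let `T P N`, `G P N` be the two sides (`f n ≥ 0` for `n ≥ 1`). For `P = ∅` both are `1` (`N ≥ 1`) or `0` (`N = 0`).
Step from `P` to `insert p P`, by strong induction on `N`. The `n ≤ N` with `primeFactors ⊆ insert p P` are those with `p ∤ n` (`primeFactors ⊆ P`) and the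
`n = p n'`, `1 ≤ n' ≤ N/p`, `n'.primeFactors ⊆ insert p P`; so `T (insert p P) N = T P N + (c p/p) T (insert p P) (N/p)`. The squarefree ones: `p ∤ r`, or `r = p r'` with
`r' ≤ N/p` squarefree, `r'.primeFactors ⊆ P`; so `G (insert p P) N = G P N + g G P (N/p)`, `g = c p/(p - c p)`. For `N ≥ 1`, `N/p < N`:
`T (insert p P) (N/p) ≤ G (insert p P) (N/p) = G P (N/p) + g G P (N/p/p) ≤ (1 + g) G P (N/p)` (`G P` is monotone in `N`), and `(c p/p)(1 + g) = g`. So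
`T (insert p P) N ≤ G P N + g G P (N/p) = G (insert p P) N`. -/
def S_gt : Prop := R_gt

/-- The lower bound for the sum of `f2 n / n`. -/
def R_tl : Prop := ∀ N e : ℕ, 1 ≤ N → 1 ≤ e →
  1 / 4 * Real.log N ^ 2 - (∑ p ∈ e.primeFactors, 1 / (p : ℝ)) * 2 * (1 + Real.log N) ^ 2 ≤
    ∑ n ∈ (Icc 1 N).filter (fun n => Nat.Coprime n e), f2 n / n

/-- [SV tl] Proof. For `n ≥ 1` let `d(n)` be the number of the odd divisors of `n`. `d(n) ≤ f2 n` (with `n = 2^k m`: `d(n) = ∏_(p ∣ m) (v_p + 1) ≤ ∏ 2^(v_p)`; or by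
induction on `n` (`Nat.recOnMul`-like, `n = p n'`): `d(p n') ≤ 2 d(n')` for odd `p`, since an odd divisor of `p n'` divides `n'` or is `p` times a divisor of `n'`, and
`d(2 n') = d(n')`). So the right side is at least `∑_(n ≤ N, (n,e)=1) d(n)/n ≥ ∑_(n ≤ N) d(n)/n - ∑_(p ∣ e) ∑_(n ≤ N, p ∣ n) d(n)/n`, and for `n = p n'`
`d(n) ≤ 2 d(n')`, so the last sum is `≤ (2/p) ∑_(n' ≤ N) d(n')/n' ≤ (2/p) (∑_(a ≤ N) 1/a)^2 ≤ (2/p)(1 + log N)^2`.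
Main term: `∑_(n ≤ N) d(n)/n = ∑_(a odd ≤ N) (1/a) ∑_(b ≤ N/a) 1/b ≥ ∑_(a odd ≤ N) (1/a) log(N/a)` (`∑_(b ≤ k) 1/b ≥ log(k+1) ≥ log(N/a)`, `k = N/a` natural division).
For odd `a`: `(1/a) log(N/a) ≥ (1/2)((1/a) u_a + (1/(a+1)) u_(a+1))`, `u_a = max 0 (log(N/a))`, so this is `≥ (1/2) ∑_(a ≤ N) (1/a) u_a`. Finally
`u_a/a ≥ (1/2)(u_a^2 - u_(a+1)^2)` (`u_a - u_(a+1) ≤ log((a+1)/a) ≤ 1/a`, `u_a + u_(a+1) ≤ 2 u_a`), telescoping: `∑_(a ≤ N) u_a/a ≥ (1/2) u_1^2 = (1/2) log^2 N`. -/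
def S_tl : Prop := R_tl

/-- The size of `G` and of the error terms. -/
def R_gw : Prop := ∀ᶠ J : ℕ in atTop, ∀ e : ℕ, Odd e → Rough (zc J) e →
  (e : ℝ) ≤ 27 * (J : ℝ) ^ (27 / 20 : ℝ) →
  0.0245 * Real.log J ^ 2 ≤ GS (cl e) (De e (Rc J)) ∧
  WS (cl e) (De e (Rc J)) ^ 2 ≤ (J : ℝ) ^ (645 / 1000 : ℝ)

/-- [SV gw] Proof. `R = Rc J = ⌊J^(8/25)⌋`. For `r ∈ De e R` every prime `p ∣ r` does not divide `e`, so `(cl e p).card = c2 p` (R_cls).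
Lower bound: `GS = ∑_(r ≤ R, squarefree, coprime to e) ∏ c2 p/(p - c2 p) ≥ ∑_(n ≤ R, coprime to e) f2 n/n` by R_gt with `P` = the primes `≤ R` not dividing `e`,
`c p = c2 p`, `f = f2` (`c2 2 = 1 < 2`, `c2 p = 2 < p` for odd `p`), then R_tl with `N = R`: `log R ≥ 0.3199 L` for large `J`, `0.25 * 0.3199^2 = 0.02558..`; `e` has at most
`2 log e ≤ 4 L` prime factors (`2^k ≤ e`), all `≥ zc J ≥ J^(1/8)`, so the error term is `≤ 8 L J^(-1/8) (1 + L)^2 → 0`.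
Upper bound: for `p = 2`: `g (p+1) = 3`, `p = 3`: `2 * 4 = 8`, `p ≥ 5`: `2 (p+1)/(p-2) ≤ 4`; so `∏_(p ∣ r) ≤ 2 * 4^(ω(r)) = 2 τ(r)^2` for squarefree `r`, and
`WS ≤ 2 ∑_(r ≤ R) τ(r)^2 ≤ 2 R (1 + log R)^3` (there is a lemma `sum_tau_sq` or similar in `Lib/MP_89da58_nt`; or `∑ τ^2 ≤ C_ε R^(1+ε)` by any means; only
`WS ≤ R * J^(1/1000)` is needed), `WS^2 ≤ 4 J^(0.64) (1 + L)^6 ≤ J^(0.645)`. -/
def S_gw : Prop := R_cls → R_gt → R_tl → R_gw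

/-- The sum over the cofactors. -/
def R_se : Prop := ∀ᶠ J : ℕ in atTop, ∑ e ∈ ES J, 1 / (e : ℝ) ≤ 0.0015

/-- [SV se] Proof. `z = zc J`, `X = 27 J^(27/20)`, `N = ⌊X⌋`. For `e ∈ ES J` let `k = Ω e ≥ 5`; `z^k ≤ e ≤ X < z^8` for large `J`, so `k ≤ 7`, and `1 ≤ Rk z k e` (`e` squarefree and rough:
`cf_rr_perm` in `CH/F/P/rr.lean`). So the sum is at most `∑_(k=5)^7 ∑_(n ≤ N) Rk z k n * h n`, `h n = if (n : ℝ) ≤ X then 1/n else 0`. By `S_tup1` this is `≤ ∑_k TS (Sp z N) k h/k!`. For a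
tuple `q` in `Sp z N` with product `≤ X`: `M = ∑ m8 z (q i)` satisfies `M log z/8 ≤ log X = log 27 + 1.35 L`, and `16 log z ≥ 3 L`, so `M ≤ 57.6 + 8 log 27/log z < 58`. So
`h (∏ q i) ≤ (∏ 1/q i) * P58 M`, and R_tup with `K = 58`, R_cell and R_num (second part). -/
def S_se : Prop := S_tup1 → R_tup → R_cell → R_num → R_se

/-- The number of the primes with a very large prime factor of `p + 2`. -/
def R_bg : Prop := ∀ᶠ J : ℕ in atTop, ∀ j ∈ Ioc J (2 * J),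
  (bgn J j : ℝ) ≤ 0.15 * mu J j / Real.log J ^ 2

/-- [SV bg] Proof. Let `p` be counted by `bgn J j`, `m` its prime, `e = (p+2)/m`. `p + 2 ≤ 27 J^3` (`CH.F.S_win`, part 2), so `e ≤ 27 J^3/Yc J = 27 J^(27/20)`; `e` is squarefree, rough, `Ω e = Ω (p+2) - 1 ≥ 5`:
`e ∈ ES J`. `p = e m - 2` is determined by `(e, m)`. So `bgn ≤ ∑_(e ∈ ES J) |T_e|`, `T_e` the set of the primes `m > Yc J` for which `p = e m - 2` is a prime with `wJ J j p ≠ 0`, `p ≤ 27 J^3`.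
`wJ ≠ 0` means `|log(p/x)| < 1/(2J)`, so `m` lies in an interval of length `x (exp(1/(2J)) - exp(-1/(2J)))/e ≤ 2.0002 mu/e` for large `J`, i.e. `T_e ⊆ Ico s (s + N)` with `N ≤ 2.0002 mu/e + 2`. For `r ∈ De e (Rc J)` and a
prime `q ∣ r`: `q ≤ Rc J < Yc J < m` and `q < p` (`p > J^3`), so `q` divides neither `m` nor `e m - 2 = p`, i.e. `m % q ∉ cl e q` (`cl e q` is the set of the residues `t` with `q ∣ t` or `q ∣ e t - 2`). `e` is odd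
(rough, `z > 2`), `(cl e q).card < q` (R_cls). R_sel: `|T_e| G^2 ≤ N G + W^2`, `G ≥ 0.0245 L^2 ≥ 1` and `W^2 ≤ J^(0.645)` (R_gw): `|T_e| ≤ N/(0.0245 L^2) + J^(0.645)`. Sum over `e`
(R_se, `|ES J| ≤ 27 J^(1.35)`): `≤ 2.0002 * 0.0015 mu/(0.0245 L^2) + 27 J^(1.35)(2 + J^(0.645)) ≤ 0.1226 mu/L^2 + 81 J^(1.995) ≤ 0.15 mu/L^2` (`mu ≥ J^2/2`). -/
def S_bg : Prop := Pool.Agent.CH.F.S_win → R_sel → R_cls → R_gw → R_se → R_bg

/-! ### D. The final assembly -/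

/-- The lower bound for `VV`. -/
def R_V : Prop := ∀ᶠ J : ℕ in atTop, 2.5 / Real.log J ≤ VV (zc J)

/-- [SV V] (compare `CH/F/P/V.lean` and the private lemmas `cs_mer_S`, `cs_mer_V` in `CH/S/P/mer.lean`, which may be copied)
Proof. `CH.S.p_tel` (last part, `X = 4000`): `VV z = (∏ p ∈ OP 4000, (1 - gd p)) * V 4001 ⌈z⌉₊`. (1) `∏ p ∈ OP 4000, (1 - gd p) = ∏_(2 < p ≤ 4000) (p-2)/(p-1) ≥ 0.089` (true value
`0.08938..`): kernel computation, e.g. a loop over `n = 3, .., 4000` with a natural number `a`, starting from `10^12`, replaced by `a * (n-2) / (n-1)` if `n` is prime (compare `loopA` in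
`Lib/MP_d610d0_nt/Mert2.lean`). (2) With `n' = 4000`, `k + 1 = ⌈z⌉₊` the two lemmas give
`-log (V 4001 ⌈z⌉₊) ≤ log log z - log log 4000 + 2/log 4000 + 1/3999`, so `V 4001 ⌈z⌉₊ ≥ (log 4000/log z) exp(-0.242) ≥ 8.29 * 0.78/log z`. (`log 4000 = 8.2940..`.) So `VV z ≥ 0.57/log z`, and
`log z ≤ (3/16) L + 0.42 ≤ 0.2 L` for large `J`: `0.57/0.2 = 2.85`. -/
def S_V : Prop := R_V

/-- Numbers divisible by the square of a large prime. -/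
def R_sq : Prop := ∀ᶠ J : ℕ in atTop, ∀ j ∈ Ioc J (2 * J), (sqn J j : ℝ) ≤ (J : ℝ) ^ (15 / 8 : ℝ)

/-- [SV sq] Proof. For a natural number `q` the window `(j^3, (j+1)^3)`, of length `3j^2 + 3j + 1 ≤ 19 J^2`, contains at most `19 J^2/q^2 + 1` multiples of `q^2`, and none if `q^2 > 27 J^3` (`(j+1)^3 ≤ 27 J^3`). So
`sqn ≤ ∑_(z ≤ q ≤ 6 J^(3/2)) (19 J^2/q^2 + 1) ≤ 19 J^2 * 2/z + 6 J^(3/2)` (`sum_Ioo_inv_sq_le`, see `CH/F/P/sq.lean`), and `z ≥ s^(3/8) ≥ J^(0.18)` for large `J`; `2 - 0.18 = 1.82 < 1.875`. -/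
def S_sq : Prop := R_sq

/-- The switched sequence: pointwise properties. -/
def R_rr : Prop := ∀ᶠ J : ℕ in atTop, ∀ n : ℕ, 1 ≤ n → 0 ≤ RB J n ∧ (RB J n ≠ 0 → Rough (zc J) n) ∧
  (Squarefree n → Rough (zc J) n → n ≤ 27 * J ^ 3 → 6 ≤ Ω n →
    (∀ m : ℕ, m.Prime → m ∣ n → (m : ℝ) ≤ Yc J) → 1 ≤ RB J n)

/-- [SV rr] (adapt `CH/F/P/rr.lean`) Proof: (1), (2) as there (`bx k lo hi n ≠ 0`: `n` is a product of primes in `[zc J, Yc J]`). (3) `k = Ω n`; `z^k ≤ n ≤ 27 J^3 < z^16` for large `J`, so `6 ≤ k ≤ 15`. The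
permutations of the list of the prime factors give `k!` tuples counted by `Bk k J n`, all entries are in `[zc J, Yc J]`. -/
def S_rr : Prop := R_rr

/-- Exchange of the summations (level `⌊√J⌋^(999/1000)`). -/
def R_sw : Prop := ∀ (J j : ℕ) (f c : ℕ → ℝ), 1 ≤ J →
  Wt (zc J) ((Nat.sqrt J : ℝ) ^ (999 / 1000 : ℝ)) c →
  (∑ n ∈ Icc 1 (27 * J ^ 3), f n * wJ J j n * dsum c (n + 2)
    = ∑ q ∈ Icc 1 (Nat.sqrt J), c q * EE J f (-2) j q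
      + (∑ q ∈ Icc 1 (Nat.sqrt J), c q / (Nat.totient q : ℝ)) *
        ∑ n ∈ Icc 1 (27 * J ^ 3), f n * wJ J j n) ∧
  ((∀ n, n < 3 → f n * wJ J j n = 0) →
    ∑ n ∈ Icc 1 (27 * J ^ 3), f n * wJ J j n * dsum c (n - 2)
    = ∑ q ∈ Icc 1 (Nat.sqrt J), c q * EE J f 2 j q
      + (∑ q ∈ Icc 1 (Nat.sqrt J), c q / (Nat.totient q : ℝ)) *
        ∑ n ∈ Icc 1 (27 * J ^ 3), f n * wJ J j n)

/-- [SV sw] Proof: `CH/F/P/sw.lean` with `Nat.sqrt J` in the place of `J` in the range of `q`. -/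
def S_sw : Prop := R_sw

/-- Lower bound. -/
def R_lo : Prop := ∀ᶠ J : ℕ in atTop, ∀ cp cm : ℕ → ℝ, SW (Nat.sqrt J) cp cm →
  ∀ j ∈ Ioc J (2 * J), Good J cp cm j →
  0.619 * VV (zc J) * mu J j - (J : ℝ) ^ 2 / Real.log J ^ 3 ≤ SS J j

/-- [SV lo] Proof: `CH/F/P/lo.lean` (`SW (Nat.sqrt J)` has `zJ (Nat.sqrt J)`, which is `zc J` by definition). -/
def S_lo : Prop := Pool.Agent.CH.F.S_win → R_sw → R_lo

/-- Upper bound. -/
def R_up : Prop := ∀ᶠ J : ℕ in atTop, ∀ cp cm : ℕ → ℝ, SW (Nat.sqrt J) cp cm →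
  ∀ j ∈ Ioc J (2 * J), Good J cp cm j →
  TT J j ≤ (3 * Real.log J + 4) * ((J : ℝ) ^ (15 / 8 : ℝ) + 72 + (J : ℝ) ^ 2 / Real.log J ^ 3
    + 0.292 * VV (zc J) * mu J j / (3 * Real.log J) + 0.15 * mu J j / Real.log J ^ 2)

/-- [SV up] (adapt `CH/F/P/up.lean`) Proof: as there, with one more class of primes `p`: those with `p + 2` squarefree and a prime factor `m > Yc J`, at most `bgn J j` (g6). For the other squarefree `p + 2` all prime factors are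
`≤ Yc J` and `RB J (p+2) ≥ 1` (R_rr). `1.39 * 0.21 = 0.2919`. -/
def S_up : Prop := Pool.Agent.CH.F.S_win → R_sw → R_rr → R_up

/-- One window. -/
def R_one : Prop := ∀ᶠ J : ℕ in atTop, ∀ cp cm : ℕ → ℝ, SW (Nat.sqrt J) cp cm →
  ∀ j ∈ Ioc J (2 * J), Good J cp cm j →
  0.01 * (J : ℝ) ^ 2 / Real.log J ^ 2 ≤ ((cubeSet 5 j).ncard : ℝ)

/-- [SV one] (adapt `CH/F/P/one.lean`) Proof. `SS - TT ≥ (0.619 - 0.292 (1 + 4/(3L))) VV mu - (3L+4) 0.15 mu/L^2 - J^2/L^3 - (3L+4)(J^(15/8) + 72 + J^2/L^3)`. With `VV ≥ 2.5/L` (R_V) the first two terms are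
`≥ 0.32 * 2.5 mu/L - 0.46 mu/L = 0.34 mu/L ≥ 0.17 J^2/L`, the rest is `≤ 9 J^2/L^2`; so `SS - TT ≥ 0.1 J^2/L` for large `J`. `SS - TT = ∑ thP p wJ J j p [Rough (p+2), Ω(p+2) ≤ 5]`, each term is `≤ 4 L`, so there are at
least `0.025 J^2/L^2` primes `p` with `wJ J j p ≠ 0`, `Rough z (p+2)`, `Ω(p+2) ≤ 5`; they lie in `cubeSet 5 j` (CH.F.S_win, and a prime `q ∣ p + 2` is `≥ z`, `q^16 ≥ z^16 = 729 s^6 > 8 J^3 ≥ j^3`), which is finite. -/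
def S_one : Prop := R_V → Pool.Agent.CH.F.S_win → R_lo → R_up → R_one

/-- [SV fin] The conclusion. Proof. `Good` holds in every window for large `J` and all `SW (Nat.sqrt J) cp cm`: g1 is `Fin1 FT (-2)` with `A = 3` for `c = cm`; g2: `EE` is linear in the sequence, `EE J (RB J) 2 j q = ∑_(k=6)^15 (1/k!) EE J (Bk k J) 2 j q`,
so `Fin1 (Bk k) 2` with `A = 3` for `c = cp` and `∑ 1/k! ≤ 1`; g3, g4, g5, g6 are R_m1, R_ms, R_sq, R_bg. `I_S` (CH.Ifc) gives `J0` and `cp, cm` with `SW s cp cm` for all `s ≥ J0`; `Nat.sqrt J ≥ J0` for large `J`. For `n ≥ n0` put `J = n - 1`, `j = n ∈ Ioc J (2J)`: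
R_one gives `0.01 (n-1)^2/log(n-1)^2 ≤ ncard`, and the left side is `≥ 0.005 n^2/(log n)^2`. -/
def S_fin : Prop := Pool.Agent.CH.I_S → Fin1 FT (-2) → (∀ k ∈ Icc 6 15, Fin1 (Bk k) 2) →
  R_m1 → R_ms → R_sq → R_bg → R_one → I_final

end Pool.Agent.CA.SV
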