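import Pool.Agent.Lib.MP_d610d0_nt.CA.SV.Stm
import Pool.Agent.Lib.MP_d610d0_nt.CH.D.Main
import Pool.Agent.Lib.MP_d610d0_nt.CH.S.All
import Pool.Agent.Lib.MP_d610d0_nt.CH.F.P.win
import Pool.Agent.Lib.MP_d610d0_nt.CH.M2.Main

set_option autoImplicit false

/-!
Project CA, section SV: the assembly from the pieces.
-/

namespace Pool.Agent.CA.SV

open Finset Filter
open scoped ArithmeticFunction.Omega
open Pool.Agent.CH (zJ wJ wL Rough VV Wt dsum thP EE)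
open Pool.Agent.CH.F (mu SW)
open Pool.Agent.CH.D (FL FT Sf)

theorem asm_z2 : ∀ᶠ J : ℕ in atTop, 2 ≤ Nat.sqrt J := by
  filter_upwards [eventually_ge_atTop 4] with J hJ
  exact Nat.le_sqrt.2 (by omega)

theorem asm_zc_le {J : ℕ} (hJ : 2 ≤ Nat.sqrt J) : zc J ≤ (J : ℝ) ^ 3 := by
  have h1 : (Nat.sqrt J : ℝ) ≤ (J : ℝ) := by exact_mod_cast Nat.sqrt_le_self J
  exact (Pool.Agent.CH.D.zJ_le hJ).trans (pow_le_pow_left₀ (Nat.cast_nonneg _) h1 3)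

theorem asm_rough_FT : ∀ᶠ J : ℕ in atTop, ∀ j ∈ Ioc J (2 * J), ∀ n, 1 ≤ n → FT J n ≠ 0 →
    wJ J j n ≠ 0 → Rough (zc J) n := by
  filter_upwards [eventually_ge_atTop 2, asm_z2] with J hJ hs j hj n hn hF hw p hp hpn
  have hprime : n.Prime := by
    by_contra h
    exact hF (by simp [FT, thP, h])
  have hpe : p = n := (Nat.prime_dvd_prime_iff_eq hp hprime).1 hpn
  have h1 := ((Pool.Agent.CH.D.p_spc J (by omega)).2.1 j hj n hn hw).1
  have h2 : J ^ 3 ≤ n := by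
    have : J ^ 3 ≤ j ^ 3 := Nat.pow_le_pow_left (mem_Ioc.1 hj).1.le 3
    omega
  rw [hpe]
  refine (asm_zc_le hs).trans ?_
  exact_mod_cast h2

theorem asm_bx_rough {k : ℕ} {lo hi : Fin k → ℝ} {z : ℝ} (hz : ∀ i, z ≤ lo i) {n : ℕ}
    (h : bx k lo hi n ≠ 0) : Rough z n := by
  classical
  have hne : ((Fintype.piFinset (fun i : Fin k => (range (n + 1)).filter
    (fun p : ℕ => p.Prime ∧ lo i ≤ (p : ℝ) ∧ (p : ℝ) ≤ hi i))).filter
      (fun q => ∏ i, q i = n)).Nonempty := by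
    rw [Finset.nonempty_iff_ne_empty]
    intro he
    apply h
    unfold bx
    rw [he]
    simp
  obtain ⟨q, hq⟩ := hne
  rw [Finset.mem_filter, Fintype.mem_piFinset] at hq
  obtain ⟨hq1, hq2⟩ := hq
  intro p hp hpn
  rw [← hq2] at hpn
  obtain ⟨i, -, hi⟩ := (Prime.dvd_finsetProd_iff hp.prime _).1 hpn
  have h3 := hq1 i
  rw [Finset.mem_filter] at h3
  have he : p = q i := (Nat.prime_dvd_prime_iff_eq hp h3.2.1).1 hi
  rw [he]
  exact (hz i).trans h3.2.2.1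

theorem asm_rough_Bk (k : ℕ) : ∀ᶠ J : ℕ in atTop, ∀ j ∈ Ioc J (2 * J), ∀ n, 1 ≤ n →
    Bk k J n ≠ 0 → wJ J j n ≠ 0 → Rough (zc J) n :=
  Eventually.of_forall fun J _ _ n _ hn _ => asm_bx_rough (fun _ => le_rfl) hn

/-- the boxes are admissible -/
theorem asm_box (k : ℕ) (hk : k ∈ Icc 6 15) :
    BoxOK k (fun J _ => zc J) (fun J _ => Yc J) := by
  refine ⟨by rw [mem_Icc] at hk; omega, ?_, ?_⟩
  · filter_upwards [eventually_ge_atTop 4] with J hJ i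
    -- `J ^ (1/12) ≤ (3 ⌊√J⌋) ^ (3/8)`
    have hJ0 : (0 : ℝ) < J := by exact_mod_cast (by omega : 0 < J)
    have hJ1 : (1 : ℝ) ≤ J := by exact_mod_cast (by omega : 1 ≤ J)
    have h1 : J < (Nat.sqrt J + 1) * (Nat.sqrt J + 1) := Nat.lt_succ_sqrt J
    have h2 : 2 ≤ Nat.sqrt J := Nat.le_sqrt.2 (by omega)
    have h3 : J ≤ (3 * Nat.sqrt J) ^ 2 := by nlinarith
    have h4 : (J : ℝ) ≤ (3 * (Nat.sqrt J : ℝ)) ^ 2 := by exact_mod_cast h3
    have h5 : (0 : ℝ) ≤ 3 * (Nat.sqrt J : ℝ) := by positivity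
    have h6 : (J : ℝ) ^ (1 / 2 : ℝ) ≤ 3 * (Nat.sqrt J : ℝ) := by
      calc (J : ℝ) ^ (1 / 2 : ℝ) ≤ ((3 * (Nat.sqrt J : ℝ)) ^ 2) ^ (1 / 2 : ℝ) :=
            Real.rpow_le_rpow hJ0.le h4 (by norm_num)
        _ = 3 * (Nat.sqrt J : ℝ) := by
            rw [← Real.rpow_natCast, ← Real.rpow_mul h5]; norm_num
    show (J : ℝ) ^ (1 / 12 : ℝ) ≤ zJ (Nat.sqrt J)
    unfold Pool.Agent.CH.zJ
    calc (J : ℝ) ^ (1 / 12 : ℝ) ≤ (J : ℝ) ^ (1 / 2 * (3 / 8) : ℝ) :=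
          Real.rpow_le_rpow_of_exponent_le hJ1 (by norm_num)
      _ = ((J : ℝ) ^ (1 / 2 : ℝ)) ^ (3 / 8 : ℝ) := Real.rpow_mul hJ0.le _ _
      _ ≤ (3 * (Nat.sqrt J : ℝ)) ^ (3 / 8 : ℝ) :=
          Real.rpow_le_rpow (Real.rpow_nonneg hJ0.le _) h6 (by norm_num)
  · exact Eventually.of_forall fun J i => le_rfl

/-- The conclusion from the pieces and the interfaces. -/
theorem of_pieces (iLL : I_LL) (iSL : I_SL) (iCL : I_CL) (iLB : I_LB) (iSB : I_SB) (iCB : I_CB)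
    (red : S_red) (tt : S_tt) (m1 : S_m1) (tup : S_tup) (cell : S_cell) (win : S_win)
    (ptw : S_ptw) (num : S_num) (lw : S_lw) (ms : S_ms) (sel : S_sel) (cls : S_cls) (gt : S_gt)
    (tl : S_tl) (gw : S_gw) (se : S_se) (bg : S_bg) (V : S_V) (sq : S_sq) (rr : S_rr) (sw : S_sw)
    (lo : S_lo) (up : S_up) (one : S_one) (fin : S_fin) : I_final := by
  have hpp := Pool.Agent.CH.D.h_pp
  have hgrp := Pool.Agent.CH.D.h_grp
  have hcfs := Pool.Agent.CH.D.p_cfs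
  have hm1a := Pool.Agent.CH.D.p_m1a Pool.Agent.CH.P.h_PNT
  obtain ⟨tL, tS, tC⟩ := tt hpp iLL iSL iCL
  have fT : Fin1 FT (-2) := red hgrp hcfs FT tL tS asm_rough_FT (-2) (Or.inr rfl)
  have fB : ∀ k ∈ Icc 6 15, Fin1 (Bk k) 2 := fun k hk =>
    red hgrp hcfs (Bk k) (iLB k _ _ (asm_box k hk)) (iSB k _ _ (asm_box k hk))
      (asm_rough_Bk k) 2 (Or.inl rfl)
  have cB : ∀ k ∈ Icc 6 15, CMw (Bk k) := fun k hk => iCB k _ _ (asm_box k hk)
  have hcell : R_cell := cell Pool.Agent.CH.M2.p_log2 Pool.Agent.CH.M2.p_mer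
  have hwin : R_win := win (Pool.Agent.CH.M2.p_sh Pool.Agent.CH.P.h_PNT)
  have hptw : R_ptw := ptw hwin
  have hlw : R_lw := lw Pool.Agent.CH.M2.p_tup1 Pool.Agent.CH.M2.p_tup2 tup hcell hptw num
  have hms : R_ms := ms cB hlw
  have hse : R_se := se Pool.Agent.CH.M2.p_tup1 tup hcell num
  have hgw : R_gw := gw cls gt tl
  have hbg : R_bg := bg Pool.Agent.CH.F.p_win sel cls hgw hse
  have hlo : R_lo := lo Pool.Agent.CH.F.p_win sw
  have hup : R_up := up Pool.Agent.CH.F.p_win sw rr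
  have hone : R_one := one V Pool.Agent.CH.F.p_win hlo hup
  exact fin Pool.Agent.CH.S.p_S fT fB (m1 hpp hm1a tC) hms sq hbg hone

end Pool.Agent.CA.SV
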