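import Pool.Agent.Lib.MP_d610d0_nt.CA.Defs
import Pool.Agent.Lib.MP_d610d0_nt.CH.F.Stm
import Pool.Agent.Lib.MP_d610d0_nt.CH.M2.Stm
import Pool.Agent.Lib.MP_d610d0_nt.CH.D.Stm

set_option autoImplicit false

/-!
Project CA, section SV (from the interfaces to the final statement): definitions.

`J` is large, `L = log J`, windows `J < j ≤ 2 J`, `x = x_j = (j + 1/2)^3`, `mu = mu J j = x / (2 J)` (`CH.F.mu`;
`J^2/2 ≤ mu ≤ 8 J^2`). The sifting limit is now `z = zc J = zJ ⌊√J⌋ = (3 ⌊√J⌋)^(3/8)`, so `z^16 = 729 ⌊√J⌋^6`, which is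
about `27 * 27 J^3`; the level is `⌊√J⌋^(999/1000)`.
-/

namespace Pool.Agent.CA.SV

open Finset Filter
open scoped ArithmeticFunction.Omega
open Pool.Agent.CH (zJ wJ wL Rough VV Wt dsum thP EE)
open Pool.Agent.CH.F (mu SW)
open Pool.Agent.CH.M2 (Sp TS)
open Pool.Agent.CH.D (FL FT Sf)

/-- The sifting limit `z = (3 ⌊√J⌋) ^ (3/8)`. -/
noncomputable def zc (J : ℕ) : ℝ := zJ (Nat.sqrt J)

/-- The upper end for the primes of the switched sequence. -/
noncomputable def Yc (J : ℕ) : ℝ := (J : ℝ) ^ (33 / 20 : ℝ)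

/-- The products of `k` primes in `[zc J, Yc J]`, counted as ordered tuples. -/
noncomputable def Bk (k : ℕ) : ℕ → ℕ → ℝ := fun J n => bx k (fun _ => zc J) (fun _ => Yc J) n

/-- The switched sequence. -/
noncomputable def RB (J n : ℕ) : ℝ := ∑ k ∈ Icc 6 15, Bk k J n / (k.factorial : ℝ)

/-- The final bound for the sequence `F`, residue class `a`, in every window. -/
def Fin1 (F : ℕ → ℕ → ℝ) (a : ℤ) : Prop := ∀ A : ℕ, ∀ᶠ J : ℕ in atTop, ∀ c : ℕ → ℝ,
  Wt (zc J) ((Nat.sqrt J : ℝ) ^ (999 / 1000 : ℝ)) c → ∀ j ∈ Ioc J (2 * J),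
  |∑ q ∈ Icc 1 (Nat.sqrt J), c q * EE J (F J) a j q| ≤ (J : ℝ) ^ 2 / (Real.log J) ^ A

/-! ### Cells (`z ^ (i / 8) ≤ p < z ^ ((i + 1) / 8)`) -/

/-- One step of the recursion for the cells. -/
noncomputable def Us (K : ℕ) (a Φ : ℕ → ℝ) : ℕ → ℝ := fun s => ∑ i ∈ range K, a i * Φ (s + i)

/-- Upper bound for the sum of `1 / p` over the cell `i`. -/
noncomputable def a8 (i : ℕ) : ℝ := if 8 ≤ i then 1.01 * (2 * i + 1) / (2 * i * (i + 1)) else 0

/-- The cell of `p`. -/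
noncomputable def m8 (z : ℝ) (p : ℕ) : ℕ := ⌊8 * Real.log p / Real.log z⌋₊

/-- Upper bound for `log z / log (x / P)` if `P` is a product of `r` primes in the cells `m_1, ..., m_r`,
`M = m_1 + ... + m_r`, and `P < z ^ 15`. -/
noncomputable def Ph (r M : ℕ) : ℝ := if M < 120 then 8 / ((max 8 (128 - M - r) : ℕ) : ℝ) else 0

/-- The indicator function of `M < 58`. -/
noncomputable def P58 (M : ℕ) : ℝ := if M < 58 then 1 else 0

/-! ### Numbers with a very large prime factor: Selberg's sieve -/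

/-- `g(p) = c / (p - c)` for `c` forbidden residue classes modulo `p`. -/
noncomputable def gs (C : ℕ → Finset ℕ) (p : ℕ) : ℝ := ((C p).card : ℝ) / ((p : ℝ) - (C p).card)

/-- `∑_{r ∈ D} ∏_{p ∣ r} g(p)` -/
noncomputable def GS (C : ℕ → Finset ℕ) (D : Finset ℕ) : ℝ :=
  ∑ r ∈ D, ∏ p ∈ r.primeFactors, gs C p

/-- The weight of the error term. -/
noncomputable def WS (C : ℕ → Finset ℕ) (D : Finset ℕ) : ℝ :=
  ∑ r ∈ D, ∏ p ∈ r.primeFactors, (gs C p * ((p : ℝ) + 1))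

/-- The residue classes of the `t` with `p ∣ t` or `p ∣ e t - 2`. -/
def cl (e p : ℕ) : Finset ℕ := (range p).filter (fun t => p ∣ t ∨ (p : ℤ) ∣ (e : ℤ) * t - 2)

/-- The squarefree numbers up to `R` coprime to `e`. -/
def De (e R : ℕ) : Finset ℕ := (Icc 1 R).filter (fun r => Squarefree r ∧ Nat.Coprime r e)

/-- The level of Selberg's sieve. -/
noncomputable def Rc (J : ℕ) : ℕ := ⌊(J : ℝ) ^ (8 / 25 : ℝ)⌋₊

/-- `1` for the prime `2`, `2` for the odd primes. -/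
def c2 (p : ℕ) : ℝ := if p = 2 then 1 else 2

/-- The completely multiplicative function with `f2 p = c2 p`. -/
noncomputable def f2 (n : ℕ) : ℝ := n.factorization.prod (fun p k => c2 p ^ k)

open Classical in
/-- The cofactors. -/
noncomputable def ES (J : ℕ) : Finset ℕ :=
  (Icc 1 ⌊27 * (J : ℝ) ^ (27 / 20 : ℝ)⌋₊).filter
    (fun e => Squarefree e ∧ Rough (zc J) e ∧ 5 ≤ Ω e)

/-! ### The windows -/

open Classical in
/-- The number of `n` in `(j^3, (j+1)^3)` divisible by the square of a prime `≥ zc J`. -/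
noncomputable def sqn (J j : ℕ) : ℕ :=
  ((Ioo (j ^ 3) ((j + 1) ^ 3)).filter (fun n : ℕ => ∃ q : ℕ, q.Prime ∧ zc J ≤ q ∧ q ^ 2 ∣ n)).card

open Classical in
/-- The number of primes `p` in the window such that `p + 2` is squarefree and rough, has at least six prime
factors and a prime factor larger than `Yc J`. -/
noncomputable def bgn (J j : ℕ) : ℕ :=
  ((Icc 1 (27 * J ^ 3)).filter (fun p : ℕ => p.Prime ∧ wJ J j p ≠ 0 ∧ Squarefree (p + 2) ∧
    Rough (zc J) (p + 2) ∧ 6 ≤ Ω (p + 2) ∧ ∃ m : ℕ, m.Prime ∧ m ∣ p + 2 ∧ Yc J < m)).card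

/-- What we know about the window `j`. -/
structure Good (J : ℕ) (cp cm : ℕ → ℝ) (j : ℕ) : Prop where
  g1 : |∑ q ∈ Icc 1 (Nat.sqrt J), cm q * EE J thP (-2) j q| ≤ (J : ℝ) ^ 2 / Real.log J ^ 3
  g2 : |∑ q ∈ Icc 1 (Nat.sqrt J), cp q * EE J (RB J) 2 j q| ≤ (J : ℝ) ^ 2 / Real.log J ^ 3
  g3 : 0.999 * mu J j ≤ ∑ n ∈ Icc 1 (27 * J ^ 3), thP n * wJ J j n
  g4 : ∑ n ∈ Icc 1 (27 * J ^ 3), RB J n * wJ J j n ≤ 0.21 * mu J j / (3 * Real.log J)
  g5 : (sqn J j : ℝ) ≤ (J : ℝ) ^ (15 / 8 : ℝ)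
  g6 : (bgn J j : ℝ) ≤ 0.15 * mu J j / Real.log J ^ 2

open Classical in
/-- The weighted number of primes `p` in the window such that `p + 2` is `z`-rough. -/
noncomputable def SS (J j : ℕ) : ℝ := ∑ p ∈ Icc 1 (27 * J ^ 3),
  thP p * wJ J j p * (if Rough (zc J) (p + 2) then 1 else 0)

open Classical in
/-- The same with at least six prime factors of `p + 2`. -/
noncomputable def TT (J j : ℕ) : ℝ := ∑ p ∈ Icc 1 (27 * J ^ 3),
  thP p * wJ J j p * (if Rough (zc J) (p + 2) ∧ 6 ≤ Ω (p + 2) then 1 else 0)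

end Pool.Agent.CA.SV
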