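import Pool.Agent.Lib.MP_d610d0_nt.CA.SV.Stm

set_option autoImplicit false

/-!
Project CA, section SV, piece lw: long windows.
-/

namespace Pool.Agent.CA.SV

open Finset Filter
open Pool.Agent.MP89da58 (tri)
open Pool.Agent.CH (zJ wJ wL Rk)
open Pool.Agent.CH.M2 (Sp TS S_tup1 S_tup2)

private lemma lw_wL_nonneg (lam : ℝ) (j n : ℕ) : 0 ≤ wL lam j n := by
  unfold wL tri
  exact le_max_left _ _

private lemma lw_Ph_nonneg (r M : ℕ) : 0 ≤ Ph r M := by
  unfold Ph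
  split_ifs
  · positivity
  · exact le_rfl

private lemma lw_Ph_zero (r M : ℕ) (h : 120 ≤ M) : Ph r M = 0 := by
  unfold Ph
  rw [if_neg (by omega)]

/-- The tuples with entries in `[z, Y]` are among the tuples with entries `≥ z`. -/
private lemma lw_bx_le (k : ℕ) (z Y : ℝ) (n : ℕ) :
    bx k (fun _ => z) (fun _ => Y) n / (k.factorial : ℝ) ≤ Rk z k n := by
  unfold bx Rk
  apply div_le_div_of_nonneg_right _ (by positivity)
  refine Nat.cast_le.2 (Finset.card_le_card ?_)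
  intro q hq
  rw [mem_filter, Fintype.mem_piFinset] at hq ⊢
  refine ⟨fun i => ?_, hq.2⟩
  have h1 := hq.1 i
  rw [mem_filter] at h1 ⊢
  exact ⟨h1.1, h1.2.1, h1.2.2.1⟩

private lemma lw_key (h1 : S_tup1) (h2 : S_tup2) (h3 : R_tup) (E J j N r : ℕ)
    (hlam : 0 ≤ Real.log J ^ E) (hz : 0 ≤ Real.log (zc J))
    (hcell : ∀ i : ℕ, i < 120 →
      ∑ p ∈ (Sp (zc J) N).filter (fun p => m8 (zc J) p = i), 1 / (p : ℝ) ≤ a8 i)
    (hptw : ∀ q : Fin r → ℕ, (∀ i, q i ∈ Sp (zc J) N) →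
      Real.log J ^ E * ∑ p ∈ Sp (zc J) N, wL (Real.log J ^ E) j (p * ∏ i, q i) ≤
        1.03 * ((j : ℝ) + 1 / 2) ^ 3 / Real.log (zc J) *
          ((∏ i, 1 / (q i : ℝ)) * Ph r (∑ i, m8 (zc J) (q i)))) :
    Real.log J ^ E * ∑ n ∈ Icc 1 N, Rk (zc J) (r + 1) n * wL (Real.log J ^ E) j n ≤
      1.03 * ((j : ℝ) + 1 / 2) ^ 3 / Real.log (zc J) *
        (1 / ((r + 1).factorial : ℝ) * ((Us 120 a8)^[r] (Ph r)) 0) := by
  have hf : (0 : ℝ) < ((r + 1).factorial : ℝ) := by exact_mod_cast Nat.factorial_pos _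
  have hc : 0 ≤ 1.03 * ((j : ℝ) + 1 / 2) ^ 3 / Real.log (zc J) := by positivity
  have e1 := h1 (zc J) N (r + 1) (wL (Real.log J ^ E) j) (lw_wL_nonneg _ _)
  rw [h2] at e1
  have e2 : Real.log J ^ E *
      TS (Sp (zc J) N) r (fun P => ∑ p ∈ Sp (zc J) N, wL (Real.log J ^ E) j (p * P)) ≤
      1.03 * ((j : ℝ) + 1 / 2) ^ 3 / Real.log (zc J) * ((Us 120 a8)^[r] (Ph r)) 0 := by
    unfold TS
    rw [Finset.mul_sum]
    calc ∑ q ∈ Fintype.piFinset (fun _ : Fin r => Sp (zc J) N),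
          Real.log J ^ E * ∑ p ∈ Sp (zc J) N, wL (Real.log J ^ E) j (p * ∏ i, q i)
        ≤ ∑ q ∈ Fintype.piFinset (fun _ : Fin r => Sp (zc J) N),
          1.03 * ((j : ℝ) + 1 / 2) ^ 3 / Real.log (zc J) *
            ((∏ i, 1 / (q i : ℝ)) * Ph r (∑ i, m8 (zc J) (q i))) := by
          apply Finset.sum_le_sum
          intro q hq
          exact hptw q (Fintype.mem_piFinset.1 hq)
      _ = 1.03 * ((j : ℝ) + 1 / 2) ^ 3 / Real.log (zc J) *
          ∑ q ∈ Fintype.piFinset (fun _ : Fin r => Sp (zc J) N),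
            (∏ i, 1 / (q i : ℝ)) * Ph r (∑ i, m8 (zc J) (q i)) := by
          rw [Finset.mul_sum]
      _ ≤ _ := by
          apply mul_le_mul_of_nonneg_left _ hc
          exact h3 120 (Sp (zc J) N) (m8 (zc J)) (fun p => 1 / (p : ℝ)) a8 (Ph r) r
            (fun p _ => by positivity) (lw_Ph_nonneg r) (lw_Ph_zero r) hcell
  calc Real.log J ^ E * ∑ n ∈ Icc 1 N, Rk (zc J) (r + 1) n * wL (Real.log J ^ E) j n
      ≤ Real.log J ^ E * (TS (Sp (zc J) N) r
          (fun P => ∑ p ∈ Sp (zc J) N, wL (Real.log J ^ E) j (p * P)) /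
            ((r + 1).factorial : ℝ)) := mul_le_mul_of_nonneg_left e1 hlam
    _ = (Real.log J ^ E * TS (Sp (zc J) N) r
          (fun P => ∑ p ∈ Sp (zc J) N, wL (Real.log J ^ E) j (p * P))) *
            (1 / ((r + 1).factorial : ℝ)) := by ring
    _ ≤ (1.03 * ((j : ℝ) + 1 / 2) ^ 3 / Real.log (zc J) * ((Us 120 a8)^[r] (Ph r)) 0) *
            (1 / ((r + 1).factorial : ℝ)) :=
          mul_le_mul_of_nonneg_right e2 (by positivity)
    _ = _ := by ring

theorem p_lw : S_lw := by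
  intro h1 h2 h3 h4 h5 h6 E hE
  filter_upwards [h4, h5 E hE, eventually_ge_atTop 3] with J hJ1 hJ2 hJ3
  intro j hj
  have hJ3r : (3 : ℝ) ≤ (J : ℝ) := by exact_mod_cast hJ3
  have hL : 0 < Real.log J := Real.log_pos (by linarith)
  have hlam : 0 ≤ Real.log J ^ E := by positivity
  have hs1 : 1 ≤ Nat.sqrt J := by
    rw [Nat.le_sqrt']
    omega
  have hs1r : (1 : ℝ) ≤ (Nat.sqrt J : ℝ) := by exact_mod_cast hs1
  have hs2 : (J : ℝ) ≤ (3 * (Nat.sqrt J : ℝ)) ^ 2 := by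
    have h7 : J < (Nat.sqrt J + 1) ^ 2 := Nat.lt_succ_sqrt' J
    have h8 : (J : ℝ) < ((Nat.sqrt J : ℝ) + 1) ^ 2 := by exact_mod_cast h7
    refine h8.le.trans ?_
    apply pow_le_pow_left₀ (by positivity)
    linarith
  have hlz : 8 * Real.log (zc J) = 3 * Real.log (3 * (Nat.sqrt J : ℝ)) := by
    unfold zc zJ
    rw [Real.log_rpow (by positivity)]
    ring
  have hlz2 : 3 * Real.log J ≤ 16 * Real.log (zc J) := by
    have e : 16 * Real.log (zc J) = 3 * (2 * Real.log (3 * (Nat.sqrt J : ℝ))) := by linarith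
    rw [e]
    have h7 : Real.log J ≤ Real.log ((3 * (Nat.sqrt J : ℝ)) ^ 2) :=
      Real.log_le_log (by linarith) hs2
    rw [Real.log_pow] at h7
    push_cast at h7
    linarith
  have hz0 : 0 < Real.log (zc J) := by linarith
  have key : ∀ r, Real.log J ^ E *
      ∑ n ∈ Icc 1 (27 * J ^ 3), Rk (zc J) (r + 1) n * wL (Real.log J ^ E) j n ≤
      1.03 * ((j : ℝ) + 1 / 2) ^ 3 / Real.log (zc J) *
        (1 / ((r + 1).factorial : ℝ) * ((Us 120 a8)^[r] (Ph r)) 0) := fun r =>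
    lw_key h1 h2 h3 E J j (27 * J ^ 3) r hlam hz0.le (fun i hi => hJ1 _ i hi)
      (fun q hq => hJ2 j hj _ r q hq)
  have hsum : Real.log J ^ E * ∑ n ∈ Icc 1 (27 * J ^ 3), RB J n * wL (Real.log J ^ E) j n ≤
      ∑ r ∈ Icc 5 14, Real.log J ^ E *
        ∑ n ∈ Icc 1 (27 * J ^ 3), Rk (zc J) (r + 1) n * wL (Real.log J ^ E) j n := by
    rw [← Finset.mul_sum]
    apply mul_le_mul_of_nonneg_left _ hlam
    rw [Finset.sum_comm]
    apply Finset.sum_le_sum
    intro n _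
    unfold RB
    rw [Finset.sum_mul]
    have e2 : (Icc 6 15 : Finset ℕ) = (Icc 5 14).image (fun r => r + 1) := by decide
    rw [e2, Finset.sum_image (fun a _ b _ h => by simpa using h)]
    apply Finset.sum_le_sum
    intro r _
    apply mul_le_mul_of_nonneg_right _ (lw_wL_nonneg _ _ _)
    unfold Bk
    exact lw_bx_le (r + 1) (zc J) (Yc J) n
  refine hsum.trans ?_
  have h7 : ∑ r ∈ Icc 5 14, Real.log J ^ E *
        ∑ n ∈ Icc 1 (27 * J ^ 3), Rk (zc J) (r + 1) n * wL (Real.log J ^ E) j n ≤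
      1.03 * ((j : ℝ) + 1 / 2) ^ 3 / Real.log (zc J) * (0.1945 / 16) := by
    calc _ ≤ ∑ r ∈ Icc 5 14, 1.03 * ((j : ℝ) + 1 / 2) ^ 3 / Real.log (zc J) *
        (1 / ((r + 1).factorial : ℝ) * ((Us 120 a8)^[r] (Ph r)) 0) :=
          Finset.sum_le_sum fun r _ => key r
      _ = 1.03 * ((j : ℝ) + 1 / 2) ^ 3 / Real.log (zc J) *
          ((∑ r ∈ Icc 5 14, 16 / ((r + 1).factorial : ℝ) * ((Us 120 a8)^[r] (Ph r)) 0) / 16) := by
          rw [← Finset.mul_sum, Finset.sum_div]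
          congr 1
          apply Finset.sum_congr rfl
          intro r _
          ring
      _ ≤ _ := by
          apply mul_le_mul_of_nonneg_left _ (by positivity)
          have := h6.1
          linarith
  refine h7.trans ?_
  have hx : 0 < ((j : ℝ) + 1 / 2) ^ 3 := by positivity
  have h8 : 1 / (16 * Real.log (zc J)) ≤ 1 / (3 * Real.log J) :=
    one_div_le_one_div_of_le (by positivity) hlz2
  calc 1.03 * ((j : ℝ) + 1 / 2) ^ 3 / Real.log (zc J) * (0.1945 / 16)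
      = (1.03 * 0.1945) * ((j : ℝ) + 1 / 2) ^ 3 * (1 / (16 * Real.log (zc J))) := by
        field_simp
    _ ≤ (1.03 * 0.1945) * ((j : ℝ) + 1 / 2) ^ 3 * (1 / (3 * Real.log J)) :=
        mul_le_mul_of_nonneg_left h8 (by positivity)
    _ ≤ 0.205 * ((j : ℝ) + 1 / 2) ^ 3 * (1 / (3 * Real.log J)) := by
        apply mul_le_mul_of_nonneg_right _ (by positivity)
        apply mul_le_mul_of_nonneg_right _ hx.le
        norm_num
    _ = 0.205 * (((j : ℝ) + 1 / 2) ^ 3 / (3 * Real.log J)) := by ring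

end Pool.Agent.CA.SV
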