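import Pool.Agent.Lib.MP_d610d0_nt.CA.SV.Stm

set_option autoImplicit false

/-! The piece `sq` of project CA, section SV: numbers in a window divisible by the square of a large prime. -/

namespace Pool.Agent.CA.SV

open Finset Filter
open Pool.Agent.CH (zJ)

private theorem sq_cnt (a b r : ℕ) (hr : 0 < r) (hab : a ≤ b) :
    (((Ioc a b).filter (fun n => r ∣ n)).card : ℝ) ≤ ((b : ℝ) - a) / r + 1 := by
  have h1 : ((Ioc 0 b).filter (fun n => r ∣ n)).card =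
      ((Ioc 0 a).filter (fun n => r ∣ n)).card + ((Ioc a b).filter (fun n => r ∣ n)).card := by
    rw [← card_union_of_disjoint, ← filter_union, Ioc_union_Ioc_eq_Ioc (Nat.zero_le _) hab]
    refine disjoint_filter_filter ?_
    rw [Finset.disjoint_left]
    intro x hx hx'
    rw [mem_Ioc] at hx hx'
    omega
  rw [Nat.Ioc_filter_dvd_card_eq_div, Nat.Ioc_filter_dvd_card_eq_div] at h1
  have hr0 : (0 : ℝ) < r := by exact_mod_cast hr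
  have h2 : ((b / r : ℕ) : ℝ) ≤ (b : ℝ) / r := Nat.cast_div_le
  have h3 : (a : ℝ) / r ≤ ((a / r : ℕ) : ℝ) + 1 := by
    rw [div_le_iff₀ hr0]
    have h := (Nat.lt_mul_div_succ a hr).le
    have h' : (a : ℝ) ≤ (r : ℝ) * (((a / r : ℕ) : ℝ) + 1) := by exact_mod_cast h
    linarith
  have h4 : ((b / r : ℕ) : ℝ) = ((a / r : ℕ) : ℝ) +
      (((Ioc a b).filter (fun n => r ∣ n)).card : ℝ) := by exact_mod_cast h1
  rw [sub_div]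
  linarith

private theorem sq_main (J j : ℕ) (hJ : 1 ≤ J) (hj : j ∈ Ioc J (2 * J)) (hz : 1 ≤ zc J) :
    (sqn J j : ℝ) ≤ 19 * (J : ℝ) ^ 2 * (2 / zc J) + ((Nat.sqrt (27 * J ^ 3) : ℕ) + 1 : ℝ) := by
  classical
  obtain ⟨hj1, hj2⟩ := mem_Ioc.1 hj
  set K : ℕ := Nat.sqrt (27 * J ^ 3) with hK
  have hq0 : 1 ≤ ⌈zc J⌉₊ := Nat.one_le_iff_ne_zero.2 (by
    intro h
    rw [Nat.ceil_eq_zero] at h
    linarith)
  have htop : (j + 1) ^ 3 ≤ 27 * J ^ 3 := by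
    have h1 : (j + 1) ^ 3 ≤ (3 * J) ^ 3 := Nat.pow_le_pow_left (by omega) 3
    have h2 : (3 * J) ^ 3 = 27 * J ^ 3 := by ring
    omega
  have hsub : (Ioo (j ^ 3) ((j + 1) ^ 3)).filter
      (fun n : ℕ => ∃ q : ℕ, q.Prime ∧ zc J ≤ q ∧ q ^ 2 ∣ n) ⊆
      (Ioo (⌈zc J⌉₊ - 1) (K + 1)).biUnion
        (fun q => (Ioc (j ^ 3) ((j + 1) ^ 3)).filter (fun n => q ^ 2 ∣ n)) := by
    intro n hn
    rw [mem_filter, mem_Ioo] at hn
    obtain ⟨⟨h1, h2⟩, q, hq, hzq, hqn⟩ := hn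
    rw [mem_biUnion]
    refine ⟨q, ?_, ?_⟩
    · rw [mem_Ioo]
      have h3 : ⌈zc J⌉₊ ≤ q := Nat.ceil_le.2 hzq
      have h4 : q ^ 2 ≤ n := Nat.le_of_dvd (by omega) hqn
      have h5 : q ≤ K := by
        rw [hK, Nat.le_sqrt']
        omega
      omega
    · rw [mem_filter, mem_Ioc]
      exact ⟨⟨h1, h2.le⟩, hqn⟩
  have h1 : (sqn J j : ℝ) ≤ ∑ q ∈ Ioo (⌈zc J⌉₊ - 1) (K + 1),
      (((Ioc (j ^ 3) ((j + 1) ^ 3)).filter (fun n => q ^ 2 ∣ n)).card : ℝ) := by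
    have : sqn J j ≤ ∑ q ∈ Ioo (⌈zc J⌉₊ - 1) (K + 1),
        ((Ioc (j ^ 3) ((j + 1) ^ 3)).filter (fun n => q ^ 2 ∣ n)).card := by
      unfold sqn
      refine (le_of_eq ?_).trans ((card_le_card hsub).trans card_biUnion_le)
      congr
    exact_mod_cast this
  have hlen : (((j + 1) ^ 3 : ℕ) : ℝ) - ((j ^ 3 : ℕ) : ℝ) ≤ 19 * (J : ℝ) ^ 2 := by
    have hJr : (1 : ℝ) ≤ J := by exact_mod_cast hJ
    have hjr : (j : ℝ) ≤ 2 * J := by exact_mod_cast hj2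
    have hj0 : (0 : ℝ) ≤ j := Nat.cast_nonneg j
    push_cast
    nlinarith
  have h2 : ∀ q ∈ Ioo (⌈zc J⌉₊ - 1) (K + 1),
      (((Ioc (j ^ 3) ((j + 1) ^ 3)).filter (fun n => q ^ 2 ∣ n)).card : ℝ) ≤
      19 * (J : ℝ) ^ 2 * ((q : ℝ) ^ 2)⁻¹ + 1 := by
    intro q hq
    rw [mem_Ioo] at hq
    have hq1 : 0 < q := by omega
    refine (sq_cnt _ _ (q ^ 2) (by positivity) (Nat.pow_le_pow_left (by omega) 3)).trans ?_
    rw [Nat.cast_pow q 2, div_eq_mul_inv]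
    have := mul_le_mul_of_nonneg_right hlen (show (0 : ℝ) ≤ ((q : ℝ) ^ 2)⁻¹ by positivity)
    linarith
  have h3 : ∑ q ∈ Ioo (⌈zc J⌉₊ - 1) (K + 1), ((q : ℝ) ^ 2)⁻¹ ≤ 2 / zc J := by
    refine (sum_Ioo_inv_sq_le (α := ℝ) _ _).trans ?_
    have h2 : ((⌈zc J⌉₊ - 1 : ℕ) : ℝ) + 1 = (⌈zc J⌉₊ : ℝ) := by
      rw [Nat.cast_sub hq0]; push_cast; ring
    rw [h2]
    exact div_le_div_of_nonneg_left (by norm_num) (by linarith) (Nat.le_ceil (zc J))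
  have h4 : ∑ _q ∈ Ioo (⌈zc J⌉₊ - 1) (K + 1), (1 : ℝ) ≤ (K : ℝ) + 1 := by
    rw [sum_const, nsmul_eq_mul, mul_one, Nat.card_Ioo]
    have : K + 1 - (⌈zc J⌉₊ - 1) - 1 ≤ K + 1 := by omega
    exact_mod_cast this
  calc (sqn J j : ℝ) ≤ _ := h1
    _ ≤ ∑ q ∈ Ioo (⌈zc J⌉₊ - 1) (K + 1), (19 * (J : ℝ) ^ 2 * ((q : ℝ) ^ 2)⁻¹ + 1) :=
        sum_le_sum h2
    _ = 19 * (J : ℝ) ^ 2 * ∑ q ∈ Ioo (⌈zc J⌉₊ - 1) (K + 1), ((q : ℝ) ^ 2)⁻¹ +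
        ∑ _q ∈ Ioo (⌈zc J⌉₊ - 1) (K + 1), (1 : ℝ) := by
        rw [sum_add_distrib, ← mul_sum]
    _ ≤ 19 * (J : ℝ) ^ 2 * (2 / zc J) + ((K : ℝ) + 1) :=
        add_le_add (mul_le_mul_of_nonneg_left h3 (by positivity)) h4

theorem p_sq : S_sq := by
  have hev : ∀ᶠ J : ℕ in atTop, (45 : ℝ) ≤ (J : ℝ) ^ (1 / 16 : ℝ) :=
    ((tendsto_rpow_atTop (show (0 : ℝ) < 1 / 16 by norm_num)).comp
      tendsto_natCast_atTop_atTop).eventually_ge_atTop 45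
  filter_upwards [hev, eventually_ge_atTop 4] with J hJe hJ4
  intro j hj
  have hJ4r : (4 : ℝ) ≤ J := by exact_mod_cast hJ4
  have hJ0 : (0 : ℝ) < J := by linarith
  have hJ1 : (1 : ℝ) ≤ J := by linarith
  have hs : (J : ℝ) ^ (1 / 2 : ℝ) ≤ 3 * ((Nat.sqrt J : ℕ) : ℝ) := by
    have h1 : J < (Nat.sqrt J + 1) ^ 2 := Nat.lt_succ_sqrt' J
    have h2 : (J : ℝ) < (((Nat.sqrt J : ℕ) : ℝ) + 1) ^ 2 := by exact_mod_cast h1
    rw [← Real.sqrt_eq_rpow]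
    have h3 : Real.sqrt J ≤ ((Nat.sqrt J : ℕ) : ℝ) + 1 := by
      rw [Real.sqrt_le_left (by positivity)]
      exact h2.le
    have h4 : (2 : ℝ) ≤ Real.sqrt J := by
      rw [Real.le_sqrt (by norm_num) hJ0.le]
      linarith
    linarith
  have hz : (J : ℝ) ^ (3 / 16 : ℝ) ≤ zc J := by
    unfold zc zJ
    calc (J : ℝ) ^ (3 / 16 : ℝ) = ((J : ℝ) ^ (1 / 2 : ℝ)) ^ (3 / 8 : ℝ) := by
          rw [← Real.rpow_mul hJ0.le]
          norm_num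
      _ ≤ _ := Real.rpow_le_rpow (by positivity) hs (by norm_num)
  have hz1 : 1 ≤ (J : ℝ) ^ (3 / 16 : ℝ) := Real.one_le_rpow hJ1 (by norm_num)
  have hzc : 1 ≤ zc J := hz1.trans hz
  have hm := sq_main J j (by omega) hj hzc
  have h1 : 19 * (J : ℝ) ^ 2 * (2 / zc J) ≤ 38 * (J : ℝ) ^ (29 / 16 : ℝ) := by
    calc 19 * (J : ℝ) ^ 2 * (2 / zc J) ≤ 19 * (J : ℝ) ^ 2 * (2 / (J : ℝ) ^ (3 / 16 : ℝ)) := by
          refine mul_le_mul_of_nonneg_left ?_ (by positivity)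
          exact div_le_div_of_nonneg_left (by norm_num) (by linarith) hz
      _ = 38 * (J : ℝ) ^ (29 / 16 : ℝ) := by
          have h : (J : ℝ) ^ 2 = (J : ℝ) ^ (29 / 16 : ℝ) * (J : ℝ) ^ (3 / 16 : ℝ) := by
            rw [← Real.rpow_add hJ0, ← Real.rpow_natCast]
            norm_num
          rw [h]
          have : (J : ℝ) ^ (3 / 16 : ℝ) ≠ 0 := by positivity
          field_simp
          norm_num
  have h2 : ((Nat.sqrt (27 * J ^ 3) : ℕ) : ℝ) ≤ 6 * (J : ℝ) ^ (3 / 2 : ℝ) := by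
    rw [← pow_le_pow_iff_left₀ (Nat.cast_nonneg _) (by positivity) (show (2 : ℕ) ≠ 0 by norm_num)]
    have h3 : (Nat.sqrt (27 * J ^ 3)) ^ 2 ≤ 27 * J ^ 3 := Nat.sqrt_le' _
    have h4 : ((Nat.sqrt (27 * J ^ 3) : ℕ) : ℝ) ^ 2 ≤ 27 * (J : ℝ) ^ 3 := by exact_mod_cast h3
    have h5 : ((J : ℝ) ^ (3 / 2 : ℝ)) ^ 2 = (J : ℝ) ^ 3 := by
      rw [← Real.rpow_natCast, ← Real.rpow_mul hJ0.le, ← Real.rpow_natCast]
      norm_num
    have h6 : 0 ≤ (J : ℝ) ^ 3 := by positivity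
    rw [mul_pow, h5]
    linarith
  have h3 : (J : ℝ) ^ (3 / 2 : ℝ) ≤ (J : ℝ) ^ (29 / 16 : ℝ) :=
    Real.rpow_le_rpow_of_exponent_le hJ1 (by norm_num)
  have h4 : (1 : ℝ) ≤ (J : ℝ) ^ (29 / 16 : ℝ) := Real.one_le_rpow hJ1 (by norm_num)
  calc (sqn J j : ℝ) ≤ 45 * (J : ℝ) ^ (29 / 16 : ℝ) := by linarith
    _ ≤ (J : ℝ) ^ (1 / 16 : ℝ) * (J : ℝ) ^ (29 / 16 : ℝ) :=
        mul_le_mul_of_nonneg_right hJe (by positivity)
    _ = (J : ℝ) ^ (15 / 8 : ℝ) := by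
        rw [← Real.rpow_add hJ0]
        norm_num

end Pool.Agent.CA.SV
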